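import Mathlib
import Pool.Agent.Lib.MP_4ca46c_ag.Std.Statement

/-!
# The conjecture of Künneth type for smooth complete intersections in `X × ℙ^r`

`D : CohData k₀ K` are Chow groups and a cohomology theory for schemes over the field `k₀`, see
`Sign/Compact.lean`.
-/

namespace Pool.Agent.Lib.MP_4ca46c_ag.Div

open CategoryTheory Limits AlgebraicGeometry
open Pool.Agent.Lib.MP_4ca46c_ag.Sign Pool.Agent.Lib.MP_4ca46c_ag.Hyp
open Pool.Agent.Lib.MP_4ca46c_ag.Std

variable {k₀ : Type} [Field k₀] {K : Type} [Field K]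

/-- The morphism of schemes `f : Y ⟶ X` is a closed immersion, and the complement of its image is
the union of `c` affine open sets. -/
def AffineCompl {X Y : Scheme.{0}} (f : Y ⟶ X) (c : ℕ) : Prop :=
  IsClosedImmersion f ∧ ∃ U : Fin c → X.Opens, (∀ i, IsAffineOpen (U i)) ∧
    (Set.range f)ᶜ = ⋃ i, (U i : Set X)

/-- The weak Lefschetz theorem: if `ρ : Y ⟶ X` is the inclusion of a smooth subvariety of
codimension `c` in a smooth proper variety, and the complement of `Y` is the union of `c` affine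
open sets, then `H^i(X) ⟶ H^i(Y)` is surjective for `i < dim Y`. -/
def WeakLefschetz (D : CohData k₀ K) : Prop := ∀ (k : Type) [Field k] [Algebra k₀ k]
  [IsAlgClosed k] (X Y : Sch k₀) (x : X ⟶ pt k₀ k) (y : Y ⟶ pt k₀ k) (ρ : Y ⟶ X) (m c : ℕ),
  IsVar x (m + c) → IsVar y m → ρ ≫ x = y → AffineCompl ρ.left c →
  ∀ i < m, ∀ u : D.H Y, D.Deg i u → ∃ v, D.Deg i v ∧ D.pbH ρ v = u

/-- The polynomial `P` annihilates the operator `F^*` on `H^i(X)`. -/
def Annihilates (D : CohData k₀ K) {X : Sch k₀} (F : X ⟶ X) (i : ℕ) (P : Polynomial ℤ) : Prop :=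
  ∀ u, D.Deg i u → Polynomial.aeval ((D.pullH F).toLinearMap : Module.End K (D.H X)) P u = 0

/-- The complex roots of `P` have absolute value `q^(i/2)`. -/
def HasWeight (q i : ℕ) (P : Polynomial ℤ) : Prop :=
  ∀ z : ℂ, Polynomial.aeval z P = 0 → ‖z‖ ^ 2 = (q : ℝ) ^ i

/-- `X` has a Weil endomorphism: an endomorphism `F` over `k` and an integer `q > 1`, such that
for every `i` the operator `F^*` on `H^i(X)` is annihilated by a monic polynomial with integral
coefficients, with complex roots of absolute value `q^(i/2)`. For `X` defined over a finite field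
with `q` elements, the Frobenius endomorphism is a Weil endomorphism. -/
def HasWeilEndo (D : CohData k₀ K) (X : PrVar k₀) : Prop :=
  ∃ (F : X.X ⟶ X.X) (q : ℕ), F ≫ X.str = X.str ∧ 1 < q ∧ ∀ i, ∃ P : Polynomial ℤ,
    P.Monic ∧ HasWeight q i P ∧ Annihilates D F i P

/-- The map `u ↦ h^j ∪ u` on `H^a(X)` has a left inverse which is given by an algebraic
correspondence (of degree `-j`). -/
def LeftInv (D : CohData k₀ K) (X : PrVar k₀) (h : D.CH X.X) (j a : ℕ) : Prop :=
  ∃ φ, X.Algebraic D (-(j : ℤ)) φ ∧ ∀ u, D.Deg a u → φ (D.cls h ^ j * u) = u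

/-- A projective embedding of `Z = X × ℙ^r`, and a point of `ℙ^r`. -/
structure ProdEmb (X : PrVar k₀) (r : ℕ) where
  κ : Type
  [fintype : Fintype κ]
  card : Fintype.card κ = r + 1
  point : pt k₀ X.k ⟶ PSo k₀ X.k κ
  point_str : point ≫ PSo.str k₀ X.k κ = 𝟙 _
  ι : Type
  [fintype' : Fintype ι]
  [nontrivial : Nontrivial ι]
  i : ι
  emb : pullback X.str (PSo.str k₀ X.k κ) ⟶ PSo k₀ X.k ι
  isClosed : IsClosedImmersion emb.left
  emb_str : emb ≫ PSo.str k₀ X.k ι = pullback.fst X.str (PSo.str k₀ X.k κ) ≫ X.str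

attribute [instance] ProdEmb.fintype ProdEmb.fintype' ProdEmb.nontrivial

namespace ProdEmb

variable {X : PrVar k₀} {r : ℕ} (V : ProdEmb X r)

/-- The product `Z = X × ℙ^r`. -/
noncomputable abbrev Z : Sch k₀ := pullback X.str (PSo.str k₀ X.k V.κ)

/-- The structure morphism of `Z`. -/
noncomputable def str : V.Z ⟶ pt k₀ X.k := pullback.fst X.str (PSo.str k₀ X.k V.κ) ≫ X.str

/-- The class of a hyperplane section of `Z`. -/
noncomputable def h (D : CohData k₀ K) : D.CH V.Z := D.pb V.emb (hyperplane D X.k V.i)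

/-- The inclusion `X ⟶ X × ℙ^r` given by the point of `ℙ^r`. -/
noncomputable def slice : X.X ⟶ V.Z := pullback.lift (𝟙 X.X) (X.str ≫ V.point)
  (by rw [Category.id_comp, Category.assoc, V.point_str, Category.comp_id])

/-- The restriction of the class `h` to `X`. -/
noncomputable def hX (D : CohData k₀ K) : D.CH X.X := D.pb V.slice (V.h D)

/-- `Y` is a smooth subvariety of codimension `c` in the base change `V'` of `Z = X × ℙ^r` to the
base field of `Y`, an algebraically closed field containing the base field of `X`; the complement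
of `Y` in `V'` is the union of `c` affine open sets, and the class of `Y` is a nonzero multiple of
`h^c`. For instance, `Y` is a smooth complete intersection of `c` hypersurface sections of
`V'`. -/
def IsSection (D : CohData k₀ K) (c : ℕ) (Y : PrVar k₀) : Prop :=
  Y.n + c = X.n + r ∧ ∃ (φ : X.k →ₐ[k₀] Y.k) (V' : Sch k₀) (v : V' ⟶ pt k₀ Y.k) (g : V' ⟶ V.Z)
    (ρ : Y.X ⟶ V'), IsPullback g v V.str (ptMap k₀ φ) ∧ ρ ≫ v = Y.str ∧ AffineCompl ρ.left c ∧
    ∃ q : ℚ, q ≠ 0 ∧ D.pf ρ (D.fund Y.X) = q • D.pb g (V.h D ^ c)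

end ProdEmb

end Pool.Agent.Lib.MP_4ca46c_ag.Div
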