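import Mathlib
import Pool.Agent.Lib.MP_4ca46c_ag.Std.Final

/-!
# Specification: smooth divisors in `X × ℙ^r`

`n = dim X`, `V = X × P`, `P = ℙ^r`, `h = D ⊗ 1 + b (1 ⊗ t)`, `Y` a smooth divisor in `V` (over a
bigger field) of class `h` (up to a multiple) with affine complement, `m = dim Y = n + r - 1`.
For `i < m` every `y ∈ H^i(Y)` is `∑_(l ≤ r) τ^l g^* x_l` with `x_l ∈ H^(i - 2l)(X)`, where
`g : Y ⟶ X`, `τ` the restriction of `t`; and
`g_* (τ^j g^* x) = κ D x` for `j = r`, `b κ x` for `j = r - 1` and `0` for other `j`, where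
`κ = tr (t^r)`.
-/

namespace Pool.Agent.Lib.MP_4ca46c_ag.Div

open CategoryTheory Limits AlgebraicGeometry MonoidalCategory CartesianMonoidalCategory Finset
open Pool.Agent.Lib.MP_4ca46c_ag.Sign Pool.Agent.Lib.MP_4ca46c_ag.Hyp
open Pool.Agent.Lib.MP_4ca46c_ag.Std

section Abstract

variable {K : Type} [Field K] [CharZero K] {𝒱 : Type 1} [Category.{0} 𝒱]
  [CartesianMonoidalCategory 𝒱] (W : Geo.WeilCohomology K 𝒱)

/-- All the projectors `H(X) ⟶ H^i(X)` are algebraic. -/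
def AllPi (X : 𝒱) : Prop := ∀ i, W.pi X i ∈ W.Cor X X 0

/-- The map `x ↦ d^j x` on `H^a(X)` has an algebraic left inverse. -/
def LInv (X : 𝒱) (d : W.H X) (j a : ℕ) : Prop :=
  ∃ s ∈ W.Cor X X (-(j : ℤ)), ∀ x ∈ W.gr X a, s (d ^ j * x) = x

/-- The data for the triangular system. -/
structure CoreData (X Y : 𝒱) (g : Y ⟶ X) (τ : W.H Y) (d : W.H X) (b κ : ℚ) (r : ℕ) : Prop where
  τ_alg : τ ∈ W.Alg Y 1
  d_alg : d ∈ W.Alg X 1
  b_ne : b ≠ 0
  κ_ne : κ ≠ 0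
  dim : W.dim Y + 1 = W.dim X + r
  push : ∀ j x, W.push g (τ ^ j * W.pull g x) =
    if j = r then (κ : K) • (d * x) else if j + 1 = r then ((b * κ : ℚ) : K) • x else 0
  span : ∀ i < W.dim Y, ∀ y ∈ W.gr Y i, ∃ x : ℕ → W.H X,
    (∀ l, 2 * l ≤ i → x l ∈ W.gr X (i - 2 * l)) ∧ (∀ l, i < 2 * l → x l = 0) ∧
      y = ∑ l ∈ range (r + 1), τ ^ l * W.pull g (x l)

/-- The inclusion of `X` in `X ⊗ P` given by a point `p` of `P`. -/
noncomputable def slice (X : 𝒱) {P : 𝒱} (p : 𝟙_ 𝒱 ⟶ P) : X ⟶ X ⊗ P :=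
  lift (𝟙 X) (toUnit X ≫ p)

end Abstract

section AbstractStatements

/-- **The triangular system.**

PROOF. Fix `i < m = dim Y`. For `y = ∑_l τ^l g^* x_l ∈ H^i(Y)` put
`U_j(y) = κ⁻¹ g_* (τ^(r-j) y)`, `0 ≤ j ≤ r`, an algebraic operator of degree `1 - j`
(`cor_push`: `g_*` has degree `dim X - dim Y = 1 - r`; `cor_mul`, `cor_comp`, `cor_rat`). By
`push`, `U_j(y) = d x_j + b x_(j-1)` (`x_(-1) = 0`). Hence
`∑_(j ≤ r) (-b)^(r-j) d^j U_j(y) = d^(r+1) x_r` (telescope).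
`x_r` is an algebraic operator of `y` of degree `-r`: if `2r ≤ i`, then `a = i - 2r` satisfies
`a + r + 2 ≤ n`, and `x_r = s (d^(r+1) x_r)` with `s` from the hypothesis; if `i < 2r`, then
`x_r = 0`. By descending induction `x_(j-1) = b⁻¹ (U_j(y) - d x_j)`, so
`x_l = A_l(y)` for `y ∈ H^i(Y)` with `A_l ∈ Cor X Y (-l)`. Then
`pi Y i = ∑_l (mul τ^l) ∘ g^* ∘ pi X (i - 2l) ∘ A_l` (sum over `l ≤ r`, `2l ≤ i`): both sides are
zero on `H^(i')(Y)`, `i' ≠ i` (`A_l` maps it to `H^(i' - 2l)(X)`, `cor_gr`, `cor_gr_zero`), and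
equal on `H^i(Y)` (for `2l > i` the term `x_l` is `0`). -/
def StCore : Prop := ∀ (K : Type) [Field K] [CharZero K] (𝒱 : Type 1) [Category.{0} 𝒱]
  [CartesianMonoidalCategory 𝒱] (W : Geo.WeilCohomology K 𝒱) (X Y : 𝒱) (g : Y ⟶ X)
  (τ : W.H Y) (d : W.H X) (b κ : ℚ) (r : ℕ), CoreData W X Y g τ d b κ r → AllPi W X →
  (∀ a, a + r + 2 ≤ W.dim X → LInv W X d (r + 1) a) → ∀ i < W.dim Y, W.pi Y i ∈ W.Cor Y Y 0

/-- **The transpose.**

PROOF. If `f = op u`, `u ∈ Alg (X ⊗ X) (n + r)`, let `u' = pull (swap) u`, where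
`swap = lift (snd X X) (fst X X)`, `f' = op u'`. For `x ∈ H^j`, `y ∈ H^k`:
`tr (f' x * y) = tr (u' * snd^* x * fst^* y) = tr (swap^* (u * fst^* x * snd^* y))
= tr (u * fst^* x * snd^* y)` (the trace on `X ⊗ X` is invariant under `swap^*`: check on
`tm a b`, `tr_tensor`, `tr_comm`) `= (-1)^(jk) tr (u * snd^* y * fst^* x) = (-1)^(jk) tr (f y * x)`
`= tr (x * f y)`: if `j + k + 2r = 2n` by `tr_comm` since `f y ∈ H^(k+2r)`, and otherwise both
sides are zero. -/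
def StTrp : Prop := ∀ (K : Type) [Field K] [CharZero K] (𝒱 : Type 1) [Category.{0} 𝒱]
  [CartesianMonoidalCategory 𝒱] (W : Geo.WeilCohomology K 𝒱) (X : 𝒱) (r : ℤ),
  ∀ f ∈ W.Cor X X r, ∃ f' ∈ W.Cor X X r, ∀ x y, W.tr X (f' x * y) = W.tr X (x * f y)

/-- **Duality.** (May use `StTrp`.)

PROOF. If `f = pi X i`, then the transpose `f'` of `StTrp` is `pi X (2n - i)`:
`tr (f' x * y) = tr (x * pi_i y) = tr (pi_(2n-i) x * y)` (check for homogeneous `x`, `y`). Finally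
`pi X n = 1 - ∑_(i ≠ n) pi X i` (`sum_pi`), and `pi X i = 0` for `i > 2n` (`pi_top`). -/
def StDual : Prop := ∀ (K : Type) [Field K] [CharZero K] (𝒱 : Type 1) [Category.{0} 𝒱]
  [CartesianMonoidalCategory 𝒱] (W : Geo.WeilCohomology K 𝒱) (X : 𝒱),
  (∀ i < W.dim X, W.pi X i ∈ W.Cor X X 0) → AllPi W X

/-- **Katz-Messing.**

PROOF. Let `F^* = (pull F).toLinearMap ∈ Cor X X 0` (`cor_pull`). Choose `P_i` for `i ≤ 2n`. For
`i ≠ j` the polynomials `P_i`, `P_j` have no common complex root (`q > 1`), so they are coprime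
over `ℚ` (`IsCoprime`; a common factor of positive degree would have a complex root). So there
are `R_i ∈ ℚ[T]` with `R_i ≡ 1 mod P_i` and `R_i ≡ 0 mod P_j` for `j ≤ 2n`, `j ≠ i`: take
`A P_i + B ∏_(j ≠ i) P_j = 1` and `R_i = B ∏_(j ≠ i) P_j`. Then `R_i(F^*)` is `1` on `H^i(X)` and
`0` on `H^j(X)` (`F^*` preserves the degree), that is `pi X i = R_i(F^*)`, and a polynomial in
`F^*` with rational coefficients is in `Cor X X 0` (`cor_id`, `cor_comp`, `cor_rat`). For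
`i > 2n`, `pi X i = 0`. -/
def StWeil : Prop := ∀ (K : Type) [Field K] [CharZero K] (𝒱 : Type 1) [Category.{0} 𝒱]
  [CartesianMonoidalCategory 𝒱] (W : Geo.WeilCohomology K 𝒱) (X : 𝒱) (F : X ⟶ X) (q : ℕ),
  1 < q → (∀ i, ∃ P : Polynomial ℤ, P.Monic ∧
    (∀ z : ℂ, Polynomial.aeval z P = 0 → ‖z‖ ^ 2 = (q : ℝ) ^ i) ∧
    ∀ x ∈ W.gr X i, Polynomial.aeval ((W.pull F).toLinearMap : Module.End K (W.H X)) P x = 0) →
  AllPi W X

/-- **The class `h` on `X × P`**, where `H(P)` is spanned by the powers of `t`.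

PROOF. Let `r = dim P`. By the Künneth formula and `hspan`, `h = ∑_(l ≤ r) tm x_l (t^l)`; taking
the part of degree `2` (`tm_gr`, `pi`) we may assume `x_l ∈ H^(2-2l)(X)`, `x_l = 0` for `l > 1`.
So `h = tm x₀ 1 + tm x₁ t`, `x₁ = b' • 1` (`connected`). `pull (slice X p)` maps `tm x y` to
`x * pull (toUnit X) (pull p y)` and `pull p t ∈ H^2(𝟙_) = 0` (`gr_top`, the unit has dimension
`0`), so `pull (slice X p) h = x₀ =: D`. If `r = 0`, then `t ∈ H^2(P) = 0` and we take `b = 1`.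
If `r > 0`: let `x : 𝟙_ ⟶ X` be a point, `pull (lift (toUnit P ≫ x) (𝟙 P)) h = b' • t` is in
`Alg P 1`, so `tr (b' • t * t^(r-1)) = b' κ ∈ ℚ` (`alg_tr`), so `b' = b ∈ ℚ`. If `b = 0` then
`h^(n+r) = tm (D^(n+r)) 1 = 0` since `n + r > n`: contradiction. Finally
`h^(n+r) = ∑_k C(n+r, k) tm (D^k) ((b t)^(n+r-k)) = C(n+r, n) b^r tm (D^n) (t^r)` (degrees;
`tm (D) 1` and `tm 1 t` commute since they have even degree: `Commute.add_pow`), so
`D^n ≠ 0`, so `tr (D^n) ≠ 0` (Poincaré duality: `tr (D^n v) = 0` for homogeneous `v` unless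
`v ∈ H^0 = K`), and it is rational (`alg_tr`). -/
def StProdH : Prop := ∀ (K : Type) [Field K] [CharZero K] (𝒱 : Type 1) [Category.{0} 𝒱]
  [CartesianMonoidalCategory 𝒱] (W : Geo.WeilCohomology K 𝒱) (X P : 𝒱) (t : W.H P)
  (h : W.H (X ⊗ P)) (κ : ℚ) (p : 𝟙_ 𝒱 ⟶ P), t ∈ W.Alg P 1 → h ∈ W.Alg (X ⊗ P) 1 → κ ≠ 0 →
  W.tr P (t ^ W.dim P) = κ →
  (∀ v : W.H P, ∃ c : ℕ → K, v = ∑ l ∈ range (W.dim P + 1), c l • t ^ l) →
  h ^ (W.dim X + W.dim P) ≠ 0 →
  ∃ b : ℚ, b ≠ 0 ∧ h = W.tm (W.pull (slice X p) h) 1 + (b : K) • W.tm 1 t ∧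
    ∃ c : ℚ, c ≠ 0 ∧ W.tr X (W.pull (slice X p) h ^ W.dim X) = c

/-- **The left inverse in degree `0`.**

PROOF. `s(u) = c⁻¹ tr (d^(n-j) u) • 1 = op (tm (c⁻¹ • 1) (d^(n-j))) u` (`op_tm`), where
`c = tr (d^n)`; `tm 1 (d^(n-j))` is in `Alg (X ⊗ X) (n - j)` (`tm_alg`). A class of degree `0` is
`a • 1` (`connected`). -/
def StLI0 : Prop := ∀ (K : Type) [Field K] [CharZero K] (𝒱 : Type 1) [Category.{0} 𝒱]
  [CartesianMonoidalCategory 𝒱] (W : Geo.WeilCohomology K 𝒱) (X : 𝒱) (d : W.H X) (c : ℚ) (j : ℕ),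
  d ∈ W.Alg X 1 → c ≠ 0 → W.tr X (d ^ W.dim X) = c → j ≤ W.dim X → LInv W X d j 0

/-- **The converse**: a left inverse of `h` on `H^(a+2r)(X × P)` gives one of `d^(r+1)` on
`H^a(X)`.

PROOF. For `x ∈ H^a(X)` let `φ(x) = ∑_(l ≤ r) (-b)^l tm (d^(r-l) x) (t^l) ∈ H^(a+2r)(X ⊗ P)`.
Then `h φ(x) = tm (d^(r+1) x) 1` (telescope; `t^(r+1) = 0` by degree; `tm_mul`: all classes
`t^l` have even degree). So `w (tm (d^(r+1) x) 1) = φ(x)`. Multiply by `tm 1 1 = 1` and push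
forward: `fst_* (tm y (t^l)) = tr (t^l) • y` (`tr_tensor`, `push_eq`), which is `0` for `l < r` and
`κ y` for `l = r`. So `s := (κ (-b)^r)⁻¹ • fst_* ∘ w ∘ fst^*` is the left inverse; its degree is
`- r - 1 + 0`. -/
def StConv : Prop := ∀ (K : Type) [Field K] [CharZero K] (𝒱 : Type 1) [Category.{0} 𝒱]
  [CartesianMonoidalCategory 𝒱] (W : Geo.WeilCohomology K 𝒱) (X P : 𝒱) (t : W.H P)
  (d : W.H X) (b κ : ℚ) (a : ℕ), t ∈ W.Alg P 1 → d ∈ W.Alg X 1 → b ≠ 0 → κ ≠ 0 →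
  W.tr P (t ^ W.dim P) = κ → (∃ w ∈ W.Cor (X ⊗ P) (X ⊗ P) (-1),
    ∀ z ∈ W.gr (X ⊗ P) (a + 2 * W.dim P), w ((W.tm d 1 + (b : K) • W.tm 1 t) * z) = z) →
  LInv W X d (W.dim P + 1) a

/-- **The converse, for the conjecture of Künneth type**: `V = X × P`, `dim P = r ≥ 1`, and for all
`a` there is `u` of degree `-1` on `V` with `h u h = ([i = a] - κ) h` on `H^i(V)`, for all `i`.

PROOF. Let `f = op u ∈ Cor V V (-1)`. For `z ∈ H^i(V)` and all `z'`:
`tr (h f(h z) z') = tr (f (h z) * (h z')) = tr (u * snd^* (h z) * fst^* (h z'))` (`h` is central),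
so `h f(h z) = ([i = a] - κ) h z`. Let `p = fst X P`, `T = tm 1 (t^(r-1))` and
`Q x = p_* (T h f(h p^* x))`, so `Q ∈ Cor X X 0` (the degrees are `- r`, `r - 1`, `1`, `-1`, `1`, `0`;
`T`, `h` are algebraic). For `x ∈ H^i(X)`: `Q x = ([i = a] - κ) p_* (T h p^* x)` and
`p_* (T h p^* x) = tr (t^(r-1)) d x + b tr (t^r) x = b c x` with `c = tr (t^r)`
(for `r ≥ 1` the trace of `t^(r-1)` is `0` by degree). So
`pi X a = (b c)⁻¹ Q + κ`: both sides agree on `H^i(X)` for all `i`. -/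
def StConvC : Prop := ∀ (K : Type) [Field K] [CharZero K] (𝒱 : Type 1) [Category.{0} 𝒱]
  [CartesianMonoidalCategory 𝒱] (W : Geo.WeilCohomology K 𝒱) (X P : 𝒱) (t : W.H P)
  (d : W.H X) (b c : ℚ) (m : ℕ), t ∈ W.Alg P 1 → d ∈ W.Alg X 1 → b ≠ 0 → c ≠ 0 →
  1 ≤ W.dim P → W.dim X + W.dim P = m + 1 → W.tr P (t ^ W.dim P) = c →
  (∀ a, ∃ κ : ℚ, ∃ u ∈ W.Alg ((X ⊗ P) ⊗ (X ⊗ P)) m, ∀ i, ∀ z ∈ W.gr (X ⊗ P) i, ∀ z',
    W.tr ((X ⊗ P) ⊗ (X ⊗ P)) (u *
      W.pull (snd (X ⊗ P) (X ⊗ P)) ((W.tm d 1 + (b : K) • W.tm 1 t) * z) *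
      W.pull (fst (X ⊗ P) (X ⊗ P)) ((W.tm d 1 + (b : K) • W.tm 1 t) * z')) =
    ((if i = a then 1 else 0) - (κ : K)) *
      W.tr (X ⊗ P) ((W.tm d 1 + (b : K) • W.tm 1 t) * z * z')) →
  AllPi W X

/-- **Left inverses from projectors.** (May use `StTrp`.) `X` is a variety of dimension `m + 1`,
`u` of degree `-1` with `h u h = ([i = a] - κ) h` on `H^i(X)` (the class `u` comes from the
projector `pi_a` of a generic hyperplane section of dimension `m`).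

PROOF. Let `f = op u ∈ Cor X X (-1)`. For `z ∈ H^i(X)` and all `z'`: `tr (h f(h z) z') =
tr (f (h z) * (h z')) = tr (u * snd^* (h z) * fst^* (h z')) = ([i = a] - κ) tr (h z z')` (`h` is
central), so `h f(h z) = ([i = a] - κ) h z`. For `i ≤ m` multiplication by `h` is injective on
`H^i(X)` (hard Lefschetz: `h^(m+1-i)` is injective on `H^i`). Let `a < m`. If `κ ≠ 1` then
`w = (1 - κ)⁻¹ f`: `w (h z) = z` for `z ∈ H^a(X)`. If `κ = 1` let `f'` be the transpose of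
`f` (`StTrp`). For `z ∈ H^a(X)` and `z' ∈ H^i(X)`: `tr (h f'(h z) z') = tr (f'(h z) * (h z'))
= tr (h z * f (h z')) = tr (z * h f(h z')) = ([i = a] - 1) tr (z h z')`; this is
`- tr (h z z')` if `i ≠ a`, and if `i = a` both `tr (z h z')` are `0` since `2a + 2 < 2(m + 1)`.
So `h (f'(h z) + z) = 0` and `w = - f'`. -/
def StLeft : Prop := ∀ (K : Type) [Field K] [CharZero K] (𝒱 : Type 1) [Category.{0} 𝒱]
  [CartesianMonoidalCategory 𝒱] (W : Geo.WeilCohomology K 𝒱) (X : 𝒱) (h : W.H X) (m a : ℕ)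
  (κ : ℚ) (u : W.H (X ⊗ X)), W.dim X = m + 1 → h ∈ W.Alg X 1 → HL W X h → a < m →
  u ∈ W.Alg (X ⊗ X) m →
  (∀ i, ∀ z ∈ W.gr X i, ∀ z', W.tr (X ⊗ X) (u * W.pull (snd X X) (h * z) *
    W.pull (fst X X) (h * z')) = ((if i = a then 1 else 0) - (κ : K)) * W.tr X (h * z * z')) →
  ∃ w ∈ W.Cor X X (-1), ∀ z ∈ W.gr X a, w (h * z) = z

end AbstractStatements

section Schemes

variable (k₀ K : Type) [Field k₀] [Field K]

/-- The variety underlying a projective variety. -/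
noncomputable def pvar {k₀ k : Type} [Field k₀] [Field k] [Algebra k₀ k] (V : ProjVar k₀ k) :
    Var k₀ k := ⟨V.X, V.str, V.n, V.isVar⟩

/-- **Extension of the base field.**

PROOF. (1) `E.tr_field`. (2) Injective: if `g^* u = 0` then `tr (u v) = tr (g^* (u v)) = 0` for
all `v`. Surjective: let `g₂ : X' × X' ⟶ X × X` be induced by `g`; it is flat (a base change of
`Spec k' ⟶ Spec k`), and the square of the diagonals of `X'`, `X` over `g`, `g₂` is cartesian, so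
`push Δ' 1 = pull g₂ (push Δ 1)` (`push_baseChange`; compare `key_squareBase`,
`key_squareDiag`, `key_flatE2` in `Std/Key.lean`). Write `cl (push Δ 1) = ∑ tm a_s b_s`
(Künneth), so the class of `Δ'` is `∑ tm (g^* a_s) (g^* b_s)` and for `v ∈ H(X')`
(`op_diag_id`, `op_tm`) `v = ∑ tr (g^* b_s * v) • g^* a_s`. (3) Let `φ = op u`, `u = cl c`,
`φ' = op (pullH g₂ u)`, and `pullH g₂ u = cl (pull g₂ c)` is algebraic. For `x, z ∈ H(X)`:
`tr (φ' (g^* x) * g^* z) = tr (g₂^* (u * p₂^* x * p₁^* z)) = tr (u * p₂^* x * p₁^* z)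
= tr (φ x * z) = tr (g^* (φ x) * g^* z)` (`tr_field` for `g₂`), and `g^*` is surjective. -/
def StBC : Prop := ∀ [CharZero K] (T : WeilTheory k₀ K), Extra T → ∀ (k k' : Type) [Field k]
  [Algebra k₀ k] [IsAlgClosed k] [Field k'] [Algebra k₀ k'] [IsAlgClosed k'] [Algebra k k']
  [IsScalarTower k₀ k k'] (X : Var k₀ k) (X' : Var k₀ k') (g : X'.X ⟶ X.X), X'.dim = X.dim →
  IsPullback g X'.str X.str (ptMap k₀ (IsScalarTower.toAlgHom k₀ k k')) →
  (∀ u, T.tr X'.X (T.pullH g u) = T.tr X.X u) ∧ Function.Bijective (T.pullH g) ∧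
  ∀ r, ∀ φ ∈ (weil T k).Cor X X r, ∃ φ' ∈ (weil T k').Cor X' X' r,
    ∀ u : T.H X.X, φ' (T.pullH g u : T.H X'.X) = T.pullH g (φ u)

/-- **The cohomology of projective space.**

PROOF. Induction on `r`. `r = 0`: `t = 0`, and `H(P) = H^0(P) = K` since `dim P = 0` (`gr_top`),
`and the trace of `1` is not zero (`exists_pt`) and rational (`tr_cl`). Let `r > 0`, `t = hypClass T k i`, `P' = PSo k₀ k {j // j ≠ i}`, `ι = PSo.hyp`.
Claim: `H(P')` is spanned by the `ι^* t^l`, `l < r`. By induction it is spanned by the `t'^l`,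
so `ι^* t = c t'`; for `r = 1` the claim is trivial, for `r > 1` we need `c ≠ 0`. By hard
Lefschetz (`E.lefschetz` for the identity `P ⟶ P`) `t^r ≠ 0`, and `t^r = cl (push ι 1) t^(r-1)`,
so `tr (ι^* t^(r-1) * ι^* v) = tr (t^r v) ≠ 0` for some `v`, so `ι^* t^(r-1) ≠ 0` and `c ≠ 0`.
Now let `a ∈ CH^r(P × P)` be the class of the diagonal (`Z = P`). With `D`, `j` from
`tDi` (`Std/GeoFacts.lean`, for `X = P`): `pull j a = pull (j ≫ snd) b` by homotopy invariance, and by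
localization `a - pull snd b = push t b'`, `t : P' × P ⟶ P × P` (as in `Std/PicProd.lean`; here
`p + 1 = r ≥ 1`). By the Künneth formula and the claim
`cl b' = ∑_(l < r) fst^* (ι^* t^l) snd^* z_l = t^* y`, `y = ∑ fst^* t^l snd^* z_l`, so
`cl (push t b') = cl (push t 1) * y` (compare traces: `cl_push`) and `push t 1 = pull fst
(hypClass)` (flat base change, as in `Std/PicProd.lean`). So
`cl a = ∑_(l ≤ r) fst^* t^l snd^* z_l` for some `z_l ∈ H(P)`, and `op (cl a) = id`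
(`op_diag_id`) gives `v = ∑_l tr (z_l v) t^l` (`op_tm`). Finally `tr (t^r) ≠ 0` because
`tr ≠ 0` (`exists_pt`) and `tr (t^l) = 0` for `l ≠ r`; it is rational (`tr_cl`). -/
def StPr : Prop := ∀ [CharZero K] (T : WeilTheory k₀ K), Extra T → ∀ (k : Type) [Field k]
  [Algebra k₀ k] [IsAlgClosed k] (κ : Type) [Fintype κ] (r : ℕ), Fintype.card κ = r + 1 →
  ∃ t ∈ T.codim (PSo k₀ k κ) 1, (∀ v : T.H (PSo k₀ k κ), ∃ c : ℕ → K,
    v = ∑ l ∈ range (r + 1), c l • (T.cl _ t) ^ l) ∧ ∃ q : ℚ, q ≠ 0 ∧ T.tr _ ((T.cl _ t) ^ r) = q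

/-- The projector onto `H^a(Y)` is given by a correspondence. -/
def ProjOp {T : WeilTheory k₀ K} (V : PVar T) (a : ℕ) : Prop :=
  ∃ c ∈ T.codim V.sq V.n, ∀ i, ∀ v ∈ T.deg V.X i, ∀ w,
    T.tr V.sq (T.cl V.sq c * T.pullH V.p₂ v * T.pullH V.p₁ w) =
      if i = a then T.tr V.X (v * w) else 0

/-- **The relation.**

PROOF. As `Std/Average.lean` and `Std/Key.lean`, with `Even i` replaced by `i = a`
(`ProjOp` for `SignOp`). -/
def StKeyA : Prop := ∀ (T : WeilTheory k₀ K) (V W : PVar T), GenSec V W → ∀ a,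
  ProjOp k₀ K W a → ∃ κ : ℚ, ∃ w ∈ T.codim (pullback V.str V.str) W.n,
    ∀ i, ∀ z ∈ T.deg V.X i, ∀ z', T.tr (pullback V.str V.str)
      (T.cl _ w * T.pullH (pullback.snd V.str V.str) (T.cl V.X V.h * z) *
        T.pullH (pullback.fst V.str V.str) (T.cl V.X V.h * z')) =
      ((if i = a then 1 else 0) - (κ : K)) * T.tr V.X (T.cl V.X V.h * z * z')

/-- **The complement of the universal hyperplane section of projective space is affine.**

PROOF. Let `P` be the projective space, `A = 𝔸(κ; P)`, `pr : A ⟶ P`, `a_j` the coordinates of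
the affine space, `ℓ / x_i = ∑ a_j x_j / x_i` on `pr⁻¹ (D i)` (this is `C.eqn` for the identity of
`A`, `Hyp/Coord.lean`). The open set `U`, complement of the range of `Fam.inc`, satisfies
`U ∩ pr⁻¹ (D i) = U_i := D(ℓ / x_i)` (basic open set of the affine open set `pr⁻¹ (D i)`: `psD i`
is affine and `pr` is an affine morphism). The functions
`(x_j / x_i) (ℓ / x_i)⁻¹` on `U_i` glue to a function `f_j = x_j / ℓ` on `U` (`f_mul'`, `eqn_mul`;
`TopCat.Sheaf.existsUnique_gluing'`), `∑ a_j f_j = 1` on `U`, and the set where `f_j ≠ 0` is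
`U ∩ pr⁻¹ (D j) = U_j`, which is affine. A scheme with functions `f_j` which generate the unit
ideal, such that the open sets `D(f_j)` are affine, is affine
(`isAffine_of_isAffineOpen_basicOpen`). -/
def StAffC : Prop := ∀ (k : Type) [Field k] [Algebra k₀ k] (κ : Type) [Fintype κ],
  ∃ (U : Sch k₀) (j : U ⟶ Aff κ (PSo k₀ k κ)), IsComplement (Fam.inc (pCoord k κ)) j ∧
    IsAffine U.left

/-- **The generic hyperplane section is a divisor of class `h` with affine complement.**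
(May use `StAffC`.)

PROOF. `V' = pullback V.str (ptMap ..)`. The map `ρ : V.Y ⟶ V'` and `push ρ 1 = pull g h`: see
the proof of `tGenClass` (`Std/GenClass.lean`; there `j : Y ⟶ XL`). The square `V.p ≫ V.toI`,
`ρ`, `Fam.inc V.C`, `V' ⟶ Aff κ V.X` is cartesian (compose `j2` and `i2` there), so `ρ` is a closed
immersion. Compose with the square `Fam.isPullback_map` over `Aff.map κ V.emb`: `ρ` is a base
change of `Fam.inc (pCoord k κ)` along `V' ⟶ Aff κ (PSo k₀ k κ)`, an affine morphism (`V' ⟶ Aff κ V.X`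
is a base change of `Spec L ⟶ Spec R`, and `Aff.map κ V.emb` is a closed immersion). So the
complement of `ρ` is the base change of the affine scheme `U` of `StAffC`, and affine. -/
def StGenDiv : Prop := ∀ (T : WeilTheory k₀ K), Extra T → ∀ (k : Type) [Field k]
  [Algebra k₀ k] [IsAlgClosed k] (V : ProjVar k₀ k) (m : ℕ), 1 ≤ m → V.n = m + 1 →
  ∃ (V' U : Sch k₀) (v' : V' ⟶ pt k₀ V.L) (g : V' ⟶ V.X) (ρ : V.Y ⟶ V') (j : U ⟶ V'),
    IsPullback g v' V.str (ptMap k₀ (IsScalarTower.toAlgHom k₀ k V.L)) ∧ ρ ≫ v' = V.y ∧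
    IsComplement ρ j ∧ IsAffine U.left ∧ T.push ρ 1 = T.pull g (V.h T)

end Schemes

end Pool.Agent.Lib.MP_4ca46c_ag.Div
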