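import Pool.Agent.Lib.MP_4ca46c_ag.Div.Spec

set_option autoImplicit false

/-!
# Extension of the base field
-/

namespace Pool.Agent.Lib.MP_4ca46c_ag.Div

open CategoryTheory Limits AlgebraicGeometry MonoidalCategory CartesianMonoidalCategory Finset
open Pool.Agent.Lib.MP_4ca46c_ag.Sign Pool.Agent.Lib.MP_4ca46c_ag.Hyp
open Pool.Agent.Lib.MP_4ca46c_ag.Std

section BC

variable {k₀ : Type} [Field k₀] {k k' : Type} [Field k] [Algebra k₀ k] [Field k'] [Algebra k₀ k']
  [Algebra k k'] [IsScalarTower k₀ k k'] {X X' : Sch k₀} {x : X ⟶ pt k₀ k} {x' : X' ⟶ pt k₀ k'}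
  {g : X' ⟶ X}

/-- the map of the squares -/
noncomputable def bc_g₂ (hg : IsPullback g x' x (ptMap k₀ (IsScalarTower.toAlgHom k₀ k k'))) :
    pullback x' x' ⟶ pullback x x :=
  pullback.lift (pullback.fst x' x' ≫ g) (pullback.snd x' x' ≫ g) (by
    rw [Category.assoc, Category.assoc, hg.w, ← Category.assoc, ← Category.assoc,
      pullback.condition])

theorem bc_g₂_fst (hg : IsPullback g x' x (ptMap k₀ (IsScalarTower.toAlgHom k₀ k k'))) :
    bc_g₂ hg ≫ pullback.fst x x = pullback.fst x' x' ≫ g := pullback.lift_fst _ _ _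

theorem bc_g₂_snd (hg : IsPullback g x' x (ptMap k₀ (IsScalarTower.toAlgHom k₀ k k'))) :
    bc_g₂ hg ≫ pullback.snd x x = pullback.snd x' x' ≫ g := pullback.lift_snd _ _ _

theorem bc_squareBase (hg : IsPullback g x' x (ptMap k₀ (IsScalarTower.toAlgHom k₀ k k'))) :
    IsPullback (bc_g₂ hg) (pullback.fst x' x' ≫ x') (pullback.fst x x ≫ x)
      (ptMap k₀ (IsScalarTower.toAlgHom k₀ k k')) := by
  have hw : pullback.fst x' x' ≫ x' = pullback.snd x' x' ≫ x' := pullback.condition
  refine ⟨⟨?_⟩, ⟨PullbackCone.IsLimit.mk _ (fun s => ?_) ?_ ?_ ?_⟩⟩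
  · rw [← Category.assoc, bc_g₂_fst, Category.assoc, hg.w, Category.assoc]
  · refine pullback.lift
      (hg.lift (s.fst ≫ pullback.fst x x) s.snd ?_)
      (hg.lift (s.fst ≫ pullback.snd x x) s.snd ?_) ?_
    · rw [Category.assoc]; exact s.condition
    · rw [Category.assoc, ← pullback.condition]; exact s.condition
    · rw [hg.lift_snd, hg.lift_snd]
  · intro s
    apply pullback.hom_ext
    · rw [Category.assoc, bc_g₂_fst, ← Category.assoc, pullback.lift_fst, hg.lift_fst]
    · rw [Category.assoc, bc_g₂_snd, ← Category.assoc, pullback.lift_snd, hg.lift_fst]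
  · intro s
    rw [← Category.assoc, pullback.lift_fst, hg.lift_snd]
  · intro s m hm1 hm2
    apply pullback.hom_ext
    · rw [pullback.lift_fst]
      apply hg.hom_ext
      · rw [hg.lift_fst, Category.assoc, ← hm1, Category.assoc, bc_g₂_fst]
      · rw [hg.lift_snd, ← hm2, Category.assoc]
    · rw [pullback.lift_snd]
      apply hg.hom_ext
      · rw [hg.lift_fst, Category.assoc, ← hm1, Category.assoc, bc_g₂_snd]
      · rw [hg.lift_snd, ← hm2, hw, Category.assoc]

theorem bc_flat (hg : IsPullback g x' x (ptMap k₀ (IsScalarTower.toAlgHom k₀ k k'))) :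
    Flat (bc_g₂ hg).left := by
  have h1 := ((bc_squareBase hg).map (Over.forget _)).flip
  refine MorphismProperty.of_isPullback (P := @Flat) h1 ?_
  change Flat (Spec.map (CommRingCat.ofHom (algebraMap k k')))
  rw [Flat.SpecMap_iff]
  change RingHom.Flat (algebraMap k k')
  rw [RingHom.flat_algebraMap_iff]
  infer_instance

theorem bc_squareDiag (hg : IsPullback g x' x (ptMap k₀ (IsScalarTower.toAlgHom k₀ k k'))) :
    IsPullback g (pullback.diagonal x') (pullback.diagonal x) (bc_g₂ hg) := by
  refine ⟨⟨?_⟩, ⟨PullbackCone.IsLimit.mk _ (fun s => s.snd ≫ pullback.fst x' x') ?_ ?_ ?_⟩⟩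
  · apply pullback.hom_ext
    · rw [Category.assoc, pullback.diagonal_fst, Category.comp_id, Category.assoc, bc_g₂_fst,
        ← Category.assoc, pullback.diagonal_fst, Category.id_comp]
    · rw [Category.assoc, pullback.diagonal_snd, Category.comp_id, Category.assoc, bc_g₂_snd,
        ← Category.assoc, pullback.diagonal_snd, Category.id_comp]
  · intro s
    have h1 := s.condition =≫ pullback.fst x x
    rw [Category.assoc, pullback.diagonal_fst, Category.comp_id, Category.assoc, bc_g₂_fst] at h1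
    rw [Category.assoc]
    exact h1.symm
  · intro s
    have h1 := s.condition =≫ pullback.fst x x
    rw [Category.assoc, pullback.diagonal_fst, Category.comp_id, Category.assoc, bc_g₂_fst] at h1
    have h2 := s.condition =≫ pullback.snd x x
    rw [Category.assoc, pullback.diagonal_snd, Category.comp_id, Category.assoc, bc_g₂_snd] at h2
    have hw : pullback.fst x' x' ≫ x' = pullback.snd x' x' ≫ x' := pullback.condition
    have h3 : s.snd ≫ pullback.fst x' x' = s.snd ≫ pullback.snd x' x' := by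
      apply hg.hom_ext
      · rw [Category.assoc, Category.assoc, ← h1, ← h2]
      · rw [Category.assoc, Category.assoc, hw]
    apply pullback.hom_ext
    · rw [Category.assoc, pullback.diagonal_fst, Category.comp_id]
    · rw [Category.assoc, pullback.diagonal_snd, Category.comp_id, h3]
  · intro s m _ hm2
    rw [← hm2, Category.assoc, pullback.diagonal_fst, Category.comp_id]

end BC

theorem tBC (k₀ K : Type) [Field k₀] [Field K] : StBC k₀ K := by
  intro _ T E k k' _ _ _ _ _ _ _ _ X X' g hdim hg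
  have vP : IsVar (pullback.fst X.str X.str ≫ X.str) (X.dim + X.dim) :=
    Var.isVar_prod X.isVar X.isVar
  have vP' : IsVar (pullback.fst X'.str X'.str ≫ X'.str) (X'.dim + X'.dim) :=
    Var.isVar_prod X'.isVar X'.isVar
  have wX : IsWeil X.X := X.isVar.isWeil
  have wX' : IsWeil X'.X := X'.isVar.isWeil
  have wP : IsWeil (pullback X.str X.str) := vP.isWeil
  have wP' : IsWeil (pullback X'.str X'.str) := vP'.isWeil
  have tr1 : ∀ u, T.tr X'.X (T.pullH g u) = T.tr X.X u :=
    E.tr_field X.str X'.str g X.dim X.isVar hg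
  have tr2 : ∀ u, T.tr (pullback X'.str X'.str) (T.pullH (bc_g₂ hg) u) =
      T.tr (pullback X.str X.str) u :=
    E.tr_field _ _ (bc_g₂ hg) _ vP (bc_squareBase hg)
  have c1 : ∀ a, T.pullH (bc_g₂ hg) (T.pullH (pullback.fst X.str X.str) a) =
      T.pullH (pullback.fst X'.str X'.str) (T.pullH g a) := by
    intro a
    rw [← T.pullH_comp _ _ wP' wP wX, ← T.pullH_comp _ _ wP' wX' wX, bc_g₂_fst]
  have c2 : ∀ a, T.pullH (bc_g₂ hg) (T.pullH (pullback.snd X.str X.str) a) =
      T.pullH (pullback.snd X'.str X'.str) (T.pullH g a) := by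
    intro a
    rw [← T.pullH_comp _ _ wP' wP wX, ← T.pullH_comp _ _ wP' wX' wX, bc_g₂_snd]
  -- the trace on the product
  have trs : ∀ p q y : T.H X'.X, T.tr (pullback X'.str X'.str)
      (T.pullH (pullback.fst X'.str X'.str) p * T.pullH (pullback.snd X'.str X'.str) q *
        T.pullH (pullback.fst X'.str X'.str) y) = T.tr X'.X (p * y) * T.tr X'.X q :=
    fun p q y => (weil T k').tr_snd (X := X') (Y := X') p q y
  have inj : Function.Injective (T.pullH g) := by
    rw [injective_iff_map_eq_zero]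
    intro u hu
    refine T.poincare _ wX _ fun v => ?_
    rw [← tr1, map_mul, hu, zero_mul, map_zero]
  -- the diagonal
  have hδ : T.cl (pullback X'.str X'.str) (T.push (pullback.diagonal X'.str) 1) =
      T.pullH (bc_g₂ hg) (T.cl (pullback X.str X.str) (T.push (pullback.diagonal X.str) 1)) := by
    rw [← T.cl_pull _ wP' wP, T.push_baseChange (pullback.diagonal X.str)
      (pullback.diagonal X'.str) g (bc_g₂ hg) (bc_squareDiag hg) X.isVar.sm vP.sm X'.isVar.sm
      vP'.sm (key_proper_diag X.str X.isVar.proper vP.isSm) (bc_flat hg), map_one (T.pull g)]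
  have hdiag : ∀ y y', T.tr (pullback X'.str X'.str)
      (T.cl _ (T.push (pullback.diagonal X'.str) 1) * T.pullH (pullback.snd X'.str X'.str) y *
      T.pullH (pullback.fst X'.str X'.str) y') = T.tr X'.X (y * y') := by
    intro y y'
    rw [mul_assoc, T.cl_push X'.str (pullback.fst X'.str X'.str ≫ X'.str)
      (pullback.diagonal X'.str)
      (by rw [← Category.assoc, pullback.diagonal_fst, Category.id_comp])
      _ _ X'.isVar vP', map_one, one_mul, map_mul, ← T.pullH_comp _ _ wX' wP' wX',
      ← T.pullH_comp _ _ wX' wP' wX', pullback.diagonal_fst,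
      pullback.diagonal_snd, T.pullH_id wX', T.pullH_id wX']
  have surj : Function.Surjective (T.pullH g) := by
    intro v
    have h1 : ∀ u : T.H (pullback X.str X.str), ∃ w : T.H X.X, ∀ y,
        T.tr (pullback X'.str X'.str) (T.pullH (bc_g₂ hg) u *
          T.pullH (pullback.snd X'.str X'.str) v * T.pullH (pullback.fst X'.str X'.str) y) =
        T.tr X'.X (T.pullH g w * y) := by
      intro u
      refine key_ind T X.str X.str (pullback.fst X.str X.str) (pullback.snd X.str X.str) _ _
        X.isVar X.isVar (IsPullback.of_hasPullback X.str X.str)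
        (C := fun u => ∃ w : T.H X.X, ∀ y,
        T.tr (pullback X'.str X'.str) (T.pullH (bc_g₂ hg) u *
          T.pullH (pullback.snd X'.str X'.str) v * T.pullH (pullback.fst X'.str X'.str) y) =
        T.tr X'.X (T.pullH g w * y)) ?_ ?_ ?_ u
      · exact ⟨0, fun y => by simp only [map_zero, zero_mul]⟩
      · rintro u₁ u₂ ⟨w₁, h₁⟩ ⟨w₂, h₂⟩
        refine ⟨w₁ + w₂, fun y => ?_⟩
        rw [map_add, add_mul, add_mul, map_add, h₁, h₂, map_add, add_mul, map_add]
      · intro i j a _ c _
        refine ⟨T.tr X'.X (T.pullH g c * v) • a, fun y => ?_⟩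
        rw [map_mul (T.pullH (bc_g₂ hg)), c1, c2,
          mul_assoc (T.pullH (pullback.fst X'.str X'.str) (T.pullH g a)),
          ← map_mul (T.pullH (pullback.snd X'.str X'.str)), trs, map_smul, smul_mul_assoc,
          map_smul, smul_eq_mul, mul_comm]
    obtain ⟨w, hw⟩ := h1 (T.cl (pullback X.str X.str) (T.push (pullback.diagonal X.str) 1))
    refine ⟨w, ?_⟩
    rw [← sub_eq_zero]
    refine T.poincare _ wX' _ fun y => ?_
    rw [sub_mul, map_sub, ← hw, ← hδ, hdiag, sub_self]
  refine ⟨tr1, ⟨inj, surj⟩, ?_⟩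
  intro r φ hφ
  rcases (weil T k).mem_cor.1 hφ with rfl | ⟨c, u, hc, hu, rfl⟩
  · refine ⟨0, AddSubgroup.zero_mem _, fun u => ?_⟩
    exact (map_zero (T.pullH g)).symm
  · obtain ⟨a, ha, rfl⟩ := hu
    have hu' : (T.pullH (bc_g₂ hg) (T.cl (pullback X.str X.str) a) : T.H (X' ⊗ X').X) ∈
        (weil T k').Alg (X' ⊗ X') c := by
      refine ⟨T.pull (bc_g₂ hg) a, T.pull_mem _ vP'.sm vP.sm _ _ ha, ?_⟩
      exact T.cl_pull _ wP' wP a
    refine ⟨(weil T k').op (X := X') (Y := X') (T.pullH (bc_g₂ hg) (T.cl (pullback X.str X.str) a)),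
      (weil T k').mem_cor.2 (Or.inr ⟨c, _, ?_, hu', rfl⟩), fun y => ?_⟩
    · change (c : ℤ) = (X'.dim : ℤ) + r
      rw [hdim]
      exact hc
    · refine (weil T k').ext_tr (X := X') fun z' => ?_
      obtain ⟨z, rfl⟩ := surj z'
      have e1 := (weil T k').op_spec (X := X') (Y := X')
        (T.pullH (bc_g₂ hg) (T.cl (pullback X.str X.str) a)) (T.pullH g y) (T.pullH g z)
      have e2 := (weil T k).op_spec (X := X) (Y := X) (T.cl (pullback X.str X.str) a) y z
      refine e1.trans ?_
      change T.tr (pullback X'.str X'.str) (T.pullH (bc_g₂ hg) (T.cl (pullback X.str X.str) a) *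
        T.pullH (pullback.snd X'.str X'.str) (T.pullH g y) *
        T.pullH (pullback.fst X'.str X'.str) (T.pullH g z)) = _
      rw [← c1, ← c2, ← map_mul, ← map_mul, tr2]
      refine e2.symm.trans ?_
      refine (tr1 _).symm.trans ?_
      exact congrArg (T.tr X'.X) (map_mul (T.pullH g) _ _)

end Pool.Agent.Lib.MP_4ca46c_ag.Div
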