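import Mathlib
import Pool.Agent.Lib.MP_4ca46c_ag.Div.Spec

/-!
# The cohomology of `X × P`, where `H(P)` is spanned by the powers of a class `t`
-/

namespace Pool.Agent.Lib.MP_4ca46c_ag.Div

open CategoryTheory Limits AlgebraicGeometry MonoidalCategory CartesianMonoidalCategory Finset
open Pool.Agent.Lib.MP_4ca46c_ag.Sign Pool.Agent.Lib.MP_4ca46c_ag.Hyp
open Pool.Agent.Lib.MP_4ca46c_ag.Std
open Geo Geo.WeilCohomology

attribute [local instance] Geo.WeilCohomology.ring Geo.WeilCohomology.algebra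
  Geo.WeilCohomology.finite Geo.WeilCohomology.graded

section Abstract

variable {K : Type} [Field K] [CharZero K] {𝒱 : Type 1} [Category.{0} 𝒱]
  [CartesianMonoidalCategory 𝒱] (W : Geo.WeilCohomology K 𝒱) {X P : 𝒱} {t : W.H P}

theorem abs_pow (ht : t ∈ W.gr P 2) (l : ℕ) : t ^ l ∈ W.gr P (2 * l) := by
  induction l with
  | zero =>
    rw [pow_zero]
    exact SetLike.GradedOne.one_mem (A := W.gr P)
  | succ l ih =>
    rw [pow_succ]
    exact SetLike.mul_mem_graded ih ht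

theorem abs_tm_mul (p : W.H X) {q : W.H P} (r : W.H X) (s : W.H P) {i : ℕ}
    (hq : q ∈ W.gr P (2 * i)) : W.tm p q * W.tm r s = W.tm (p * r) (q * s) := by
  refine W.ind (P := fun r => W.tm p q * W.tm r s = W.tm (p * r) (q * s)) r ?_
    (fun j a ha => ?_) (fun a b ha hb => ?_)
  · rw [tm_zero_left, mul_zero, mul_zero, tm_zero_left]
  · rw [W.tm_mul p s hq ha, mul_assoc 2 i j, Even.neg_one_pow (even_two_mul _), one_smul]
  · rw [tm_add_left, mul_add, ha, hb, mul_add, tm_add_left]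

theorem abs_pi_tm (ht : t ∈ W.gr P 2) (i l : ℕ) (a : W.H X) : W.pi (X ⊗ P) i (W.tm a (t ^ l)) =
    W.tm (if 2 * l ≤ i then W.pi X (i - 2 * l) a else 0) (t ^ l) := by
  refine W.ind (P := fun a => W.pi (X ⊗ P) i (W.tm a (t ^ l)) =
    W.tm (if 2 * l ≤ i then W.pi X (i - 2 * l) a else 0) (t ^ l)) a ?_
    (fun j a ha => ?_) (fun a b ha hb => ?_)
  · rw [tm_zero_left, map_zero, map_zero, ite_self, tm_zero_left]
  · have h1 := W.tm_gr ha (abs_pow W ht l)
    by_cases hj : j + 2 * l = i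
    · subst hj
      rw [W.pi_same h1, if_pos (by omega), Nat.add_sub_cancel, W.pi_same ha]
    · rw [W.pi_ne h1 hj]
      split_ifs with h2
      · rw [W.pi_ne ha (by omega), tm_zero_left]
      · rw [tm_zero_left]
  · rw [tm_add_left, map_add, ha, hb, ← tm_add_left]
    congr 1
    split_ifs
    · rw [map_add]
    · rw [add_zero]

theorem abs_span' {r : ℕ} (hspan : ∀ v : W.H P, ∃ c : ℕ → K, v = ∑ l ∈ range (r + 1), c l • t ^ l)
    (v : W.H (X ⊗ P)) : ∃ x : ℕ → W.H X, v = ∑ l ∈ range (r + 1), W.tm (x l) (t ^ l) := by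
  refine W.ind_tm (P := fun v => ∃ x : ℕ → W.H X, v = ∑ l ∈ range (r + 1), W.tm (x l) (t ^ l)) v
    ⟨fun _ => 0, ?_⟩ (fun a b => ?_) ?_
  · exact (Finset.sum_eq_zero fun l _ => W.tm_zero_left _).symm
  · obtain ⟨c, hc⟩ := hspan b
    refine ⟨fun l => c l • a, ?_⟩
    rw [hc]
    have h1 : W.tm a (∑ l ∈ range (r + 1), c l • t ^ l) =
        ∑ l ∈ range (r + 1), W.tm a (c l • t ^ l) := by
      rw [tm, map_sum, Finset.mul_sum]
      rfl
    rw [h1]
    exact Finset.sum_congr rfl fun l _ => by rw [tm_smul_right, tm_smul_left]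
  · rintro u v ⟨x, rfl⟩ ⟨y, rfl⟩
    refine ⟨fun l => x l + y l, ?_⟩
    rw [← Finset.sum_add_distrib]
    exact Finset.sum_congr rfl fun l _ => (W.tm_add_left _ _ _).symm

theorem abs_span (ht : t ∈ W.gr P 2) {r : ℕ}
    (hspan : ∀ v : W.H P, ∃ c : ℕ → K, v = ∑ l ∈ range (r + 1), c l • t ^ l)
    {i : ℕ} {v : W.H (X ⊗ P)} (hv : v ∈ W.gr (X ⊗ P) i) : ∃ x : ℕ → W.H X,
      (∀ l, 2 * l ≤ i → x l ∈ W.gr X (i - 2 * l)) ∧ (∀ l, i < 2 * l → x l = 0) ∧
        v = ∑ l ∈ range (r + 1), W.tm (x l) (t ^ l) := by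
  obtain ⟨x, hx⟩ := abs_span' W hspan v
  refine ⟨fun l => if 2 * l ≤ i then W.pi X (i - 2 * l) (x l) else 0, fun l hl => ?_,
    fun l hl => if_neg (by omega), ?_⟩
  · change (if 2 * l ≤ i then W.pi X (i - 2 * l) (x l) else 0) ∈ _
    rw [if_pos hl]
    exact W.pi_mem _ _
  · conv_lhs => rw [← W.pi_same hv, hx, map_sum]
    exact Finset.sum_congr rfl fun l _ => abs_pi_tm W ht i l (x l)

theorem abs_tr_pow (ht : t ∈ W.gr P 2) {κ : K} (hκ : W.tr P (t ^ W.dim P) = κ) (l : ℕ) :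
    W.tr P (t ^ l) = if l = W.dim P then κ else 0 := by
  split_ifs with h
  · rw [h, hκ]
  · exact W.tr_gr (abs_pow W ht l) (by omega)

theorem abs_tr_tm (a : W.H X) (b : W.H P) : W.tr (X ⊗ P) (W.tm a b) = W.tr X a * W.tr P b :=
  W.tr_tensor a b

/-- The trace of `h ∪ (y ⊗ t^j)` for `h = d ⊗ 1 + b (1 ⊗ t)`. -/
theorem abs_tr_h (ht : t ∈ W.gr P 2) {κ : K} (hκ : W.tr P (t ^ W.dim P) = κ) (d y : W.H X) (b : K)
    (j : ℕ) : W.tr (X ⊗ P) ((W.tm d 1 + b • W.tm 1 t) * W.tm y (t ^ j)) =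
      if j = W.dim P then κ * W.tr X (d * y) else
        if j + 1 = W.dim P then b * κ * W.tr X y else 0 := by
  have h1 : W.tm d 1 * W.tm y (t ^ j) = W.tm (d * y) (t ^ j) := by
    have h := abs_tm_mul W d (q := (1 : W.H P)) y (t ^ j) (i := 0)
      (SetLike.GradedOne.one_mem (A := W.gr P))
    rw [one_mul] at h
    exact h
  have h2 : W.tm 1 t * W.tm y (t ^ j) = W.tm y (t ^ (j + 1)) := by
    have h := abs_tm_mul W 1 (q := t) y (t ^ j) (i := 1) ht
    rw [one_mul, ← pow_succ'] at h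
    exact h
  rw [add_mul, smul_mul_assoc, h1, h2, map_add, map_smul, abs_tr_tm, abs_tr_tm,
    abs_tr_pow W ht hκ, abs_tr_pow W ht hκ]
  by_cases hj : j = W.dim P
  · rw [if_pos hj, if_pos hj, if_neg (by omega), mul_zero, smul_zero, add_zero, mul_comm]
  · rw [if_neg hj, if_neg hj]
    by_cases hj' : j + 1 = W.dim P
    · rw [if_pos hj', if_pos hj', mul_zero, zero_add, smul_eq_mul]
      ring
    · rw [if_neg hj', if_neg hj', mul_zero, mul_zero, smul_zero, add_zero]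

theorem abs_tm_pow (ht : t ∈ W.gr P 2) (x w : W.H X) (j : ℕ) :
    W.tm x (t ^ j) * W.tm w 1 = W.tm (x * w) (t ^ j) := by
  rw [abs_tm_mul W x w 1 (abs_pow W ht j), mul_one]

theorem abs_comm_pow {τ : W.H X} (hτ : τ ∈ W.gr X 2) (l : ℕ) (y : W.H X) :
    y * τ ^ l = τ ^ l * y := by
  refine W.ind (P := fun y => y * τ ^ l = τ ^ l * y) y (by rw [zero_mul, mul_zero])
    (fun i a ha => ?_) (fun a b ha hb => by rw [add_mul, mul_add, ha, hb])
  rw [W.comm ha (abs_pow W hτ l), Even.neg_one_pow ((even_two_mul l).mul_left i), one_mul]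

theorem abs_kun (X : 𝒱) : W.Kunneth X ↔ AllPi W X := W.kunneth_iff

end Abstract

end Pool.Agent.Lib.MP_4ca46c_ag.Div
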