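import Mathlib
import Pool.Agent.Lib.MP_4ca46c_ag.Div.Spec

/-!
# The cohomology of projective space
-/

namespace Pool.Agent.Lib.MP_4ca46c_ag.Div

open CategoryTheory Limits AlgebraicGeometry MonoidalCategory CartesianMonoidalCategory Finset
open Pool.Agent.Lib.MP_4ca46c_ag.Sign Pool.Agent.Lib.MP_4ca46c_ag.Hyp
open Pool.Agent.Lib.MP_4ca46c_ag.Std

section Abs

variable {K : Type} [Field K] [CharZero K] {𝒱 : Type 1} [Category.{0} 𝒱]
  [CartesianMonoidalCategory 𝒱] (W : Geo.WeilCohomology K 𝒱)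

/-- `H(X)` is spanned by the powers of `t` up to `t^n`. -/
def pr_Span (X : 𝒱) (t : W.H X) (n : ℕ) : Prop :=
  ∀ v : W.H X, ∃ c : ℕ → K, v = ∑ l ∈ range (n + 1), c l • t ^ l

theorem pr_pow_gr {X : 𝒱} {t : W.H X} (ht : t ∈ W.gr X 2) (l : ℕ) : t ^ l ∈ W.gr X (2 * l) := by
  have h := SetLike.pow_mem_graded l ht
  rwa [smul_eq_mul, mul_comm] at h

theorem pr_tr {X : 𝒱} {t : W.H X} (ht : t ∈ W.gr X 2) (hs : pr_Span W X t (W.dim X)) :
    W.tr X (t ^ W.dim X) ≠ 0 := by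
  intro h0
  obtain ⟨p, hp, hp1⟩ := W.exists_pt X
  obtain ⟨c, hc⟩ := hs p
  rw [hc, map_sum, Finset.sum_eq_zero] at hp1
  · exact zero_ne_one hp1
  · intro l hl
    rw [map_smul]
    by_cases h : l = W.dim X
    · rw [h, h0, smul_zero]
    · rw [W.tr_gr (pr_pow_gr W ht l) (by omega), smul_zero]

theorem pr_diag {X : 𝒱} {t : W.H X} {n : ℕ} {z : ℕ → W.H X}
    (h : W.diag X = ∑ l ∈ range (n + 1), W.tm (t ^ l) (z l)) : pr_Span W X t n := by
  intro v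
  refine ⟨fun l => W.tr X (z l * v), ?_⟩
  have h1 := LinearMap.congr_fun (W.op_diag_id (X := X)) v
  rw [h, W.op_sum, LinearMap.sum_apply, LinearMap.id_apply] at h1
  rw [← h1]
  refine sum_congr rfl fun l _ => ?_
  rw [W.op_tm, h1]

theorem pr_claim {X' X : 𝒱} (ι : X' ⟶ X) {t : W.H X} {t' : W.H X'} {s : ℕ}
    (ht : t ∈ W.gr X 2) (ht' : t' ∈ W.gr X' 2)
    (hι : ∀ v, W.tr X (t * v) = W.tr X' (W.pull ι v)) (h0 : t ^ (s + 1) ≠ 0)
    (hs : pr_Span W X' t' s) : pr_Span W X' (W.pull ι t) s := by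
  rcases Nat.eq_zero_or_pos s with rfl | hs0
  · intro v
    obtain ⟨c, hc⟩ := hs v
    exact ⟨c, by simpa using hc⟩
  · obtain ⟨c, hc⟩ := hs (W.pull ι t)
    have h1 : W.pull ι t = c 1 • t' := by
      have h2 := congrArg (W.pi X' 2) hc
      rw [W.pi_same (W.pull_gr ι ht), map_sum,
        Finset.sum_eq_single_of_mem 1 (mem_range.2 (by omega)) (fun l _ hl => by
          rw [map_smul, W.pi_ne (pr_pow_gr W ht' l) (by omega), smul_zero])] at h2
      rw [h2, map_smul, pow_one, W.pi_same ht']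
    have h2 : c 1 ≠ 0 := by
      intro h3
      rw [h3, zero_smul] at h1
      apply h0
      have h4 : t * t = 0 := by
        refine W.duality _ fun y => ?_
        rw [mul_assoc, hι, map_mul, h1, zero_mul, map_zero]
      rw [show s + 1 = 2 + (s - 1) by omega, pow_add, pow_two, h4, zero_mul]
    intro v
    obtain ⟨d, hd⟩ := hs v
    refine ⟨fun l => d l * ((c 1)⁻¹) ^ l, ?_⟩
    rw [hd]
    refine Finset.sum_congr rfl fun l _ => ?_
    rw [h1, smul_pow, smul_smul, mul_assoc, ← mul_pow, inv_mul_cancel₀ h2, one_pow, mul_one]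

theorem pr_trE {X' X Y : 𝒱} (ι : X' ⟶ X) {t : W.H X}
    (hι : ∀ v, W.tr X (t * v) = W.tr X' (W.pull ι v)) (u : W.H (X ⊗ Y)) :
    W.tr (X' ⊗ Y) (W.pull (lift (fst X' Y ≫ ι) (snd X' Y)) u) =
      W.tr (X ⊗ Y) (W.pull (fst X Y) t * u) := by
  refine W.ind_tm (P := fun u => W.tr (X' ⊗ Y) (W.pull (lift (fst X' Y ≫ ι) (snd X' Y)) u) =
      W.tr (X ⊗ Y) (W.pull (fst X Y) t * u)) u ?_ (fun a b => ?_) (fun u v hu hv => ?_)
  · rw [map_zero, map_zero, mul_zero, map_zero]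
  · rw [W.pull_tm, W.pull_comp, W.tr_tensor, ← hι, Geo.WeilCohomology.tm, ← mul_assoc,
      ← map_mul, W.tr_tensor]
  · rw [map_add, map_add, hu, hv, mul_add, map_add]

theorem pr_expand {X' Y : 𝒱} {τ : W.H X'} {s : ℕ} (hs : pr_Span W X' τ s)
    (w : W.H (X' ⊗ Y)) :
    ∃ z : ℕ → W.H Y, w = ∑ l ∈ range (s + 1), W.tm (τ ^ l) (z l) := by
  refine W.ind_tm (P := fun w => ∃ z : ℕ → W.H Y, w = ∑ l ∈ range (s + 1), W.tm (τ ^ l) (z l))
    w ⟨fun _ => 0, ?_⟩ (fun a b => ?_) ?_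
  · simp only [W.tm_zero_right, sum_const_zero]
  · obtain ⟨c, hc⟩ := hs a
    refine ⟨fun l => c l • b, ?_⟩
    rw [hc]
    simp only [Geo.WeilCohomology.tm, map_sum, sum_mul, map_smul, smul_mul_assoc,
      mul_smul_comm]
  · rintro u v ⟨z, rfl⟩ ⟨z', rfl⟩
    refine ⟨fun l => z l + z' l, ?_⟩
    simp only [W.tm_add_right, sum_add_distrib]

theorem pr_step {X' X : 𝒱} (ι : X' ⟶ X) {t : W.H X} {s : ℕ}
    (hι : ∀ v, W.tr X (t * v) = W.tr X' (W.pull ι v)) (hs : pr_Span W X' (W.pull ι t) s)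
    {β : W.H X} {δ : W.H (X ⊗ X)} {w : W.H (X' ⊗ X)}
    (h1 : W.diag X = W.pull (snd X X) β + δ)
    (h2 : ∀ v, W.tr (X ⊗ X) (δ * v) =
      W.tr (X' ⊗ X) (w * W.pull (lift (fst X' X ≫ ι) (snd X' X)) v)) :
    pr_Span W X t (s + 1) := by
  obtain ⟨z, hz⟩ := pr_expand W hs w
  have h3 : w = W.pull (lift (fst X' X ≫ ι) (snd X' X))
      (∑ l ∈ range (s + 1), W.tm (t ^ l) (z l)) := by
    rw [hz, map_sum]
    refine sum_congr rfl fun l _ => ?_
    rw [W.pull_tm, W.pull_comp, map_pow (W.pull ι)]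
    rfl
  have h4 : δ = W.pull (fst X X) t * ∑ l ∈ range (s + 1), W.tm (t ^ l) (z l) := by
    refine W.ext_tr fun v => ?_
    rw [h2, h3, ← map_mul, pr_trE W ι hι, mul_assoc]
  refine pr_diag W (z := fun l => if l = 0 then β else z (l - 1)) ?_
  rw [h1, h4, sum_range_succ' _ (s + 1), mul_sum, add_comm]
  congr 1
  · refine sum_congr rfl fun l _ => ?_
    rw [if_neg (Nat.succ_ne_zero l), Nat.add_sub_cancel, Geo.WeilCohomology.tm,
      Geo.WeilCohomology.tm, ← mul_assoc, ← map_mul, pow_succ']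
  · rw [if_pos rfl, pow_zero, Geo.WeilCohomology.tm, map_one, one_mul]

theorem pr_zero {X : 𝒱} (hX : W.dim X = 0) (t : W.H X) : pr_Span W X t 0 := by
  intro v
  have h := W.sum_pi v
  rw [hX, mul_zero, zero_add, sum_range_one] at h
  obtain ⟨a, ha⟩ := W.connected (W.pi_mem 0 v)
  refine ⟨fun _ => a, ?_⟩
  rw [zero_add, sum_range_one, pow_zero, ← h, ha, Algebra.smul_def, mul_one]

end Abs

section Sch

variable {k₀ K : Type} [Field k₀] [Field K] [CharZero K] {T : WeilTheory k₀ K} (E : Extra T)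
  {k : Type} [Field k] [Algebra k₀ k] [IsAlgClosed k]

/-- Projective space as a variety. -/
noncomputable def pr_P (k₀ k : Type) [Field k₀] [Field k] [Algebra k₀ k] (κ : Type) (r : ℕ)
    (h : IsVar (PSo.str k₀ k κ) r) : Var k₀ k := ⟨PSo k₀ k κ, PSo.str k₀ k κ, r, h⟩

/-- The inclusion of the hyperplane. -/
noncomputable def pr_ι {κ : Type} (i : κ) {r s : ℕ} (h : IsVar (PSo.str k₀ k κ) r)
    (h' : IsVar (PSo.str k₀ k {j // j ≠ i}) s) :
    pr_P k₀ k {j // j ≠ i} s h' ⟶ pr_P k₀ k κ r h := ⟨PSo.hyp k₀ k κ i, PSo.hyp_str k₀ k κ i⟩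

/-- The decomposition of the class of the diagonal of projective space. -/
theorem pr_loc {κ : Type} [Fintype κ] (i : κ) (s : ℕ) (vP : IsVar (PSo.str k₀ k κ) (s + 1))
    (vH : IsVar (PSo.str k₀ k {j // j ≠ i}) s) :
    ∃ (β : (weil T k).H (pr_P k₀ k κ (s + 1) vP))
      (δ : (weil T k).H (pr_P k₀ k κ (s + 1) vP ⊗ pr_P k₀ k κ (s + 1) vP))
      (w : (weil T k).H (pr_P k₀ k {j // j ≠ i} s vH ⊗ pr_P k₀ k κ (s + 1) vP)),
      (weil T k).diag (pr_P k₀ k κ (s + 1) vP) = (weil T k).pull (snd _ _) β + δ ∧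
      ∀ v, (weil T k).tr _ (δ * v) = (weil T k).tr _
        (w * (weil T k).pull (lift (fst _ _ ≫ pr_ι i vP vH) (snd _ _)) v) := by
  classical
  have vQ := Var.isVar_prod vP vP
  have vT := Var.isVar_prod vH vP
  obtain ⟨D, j, hcomp, hbun⟩ := tDi k₀ k κ (PSo k₀ k κ) (PSo.str k₀ k κ) i
  set t := pullback.map (PSo.str k₀ k {j // j ≠ i}) (PSo.str k₀ k κ) (PSo.str k₀ k κ)
    (PSo.str k₀ k κ) (PSo.hyp k₀ k κ i) (𝟙 _) (𝟙 _) (by rw [PSo.hyp_str, Category.comp_id])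
      (by rw [Category.id_comp, Category.comp_id]) with ht
  have tfst : t ≫ pullback.fst (PSo.str k₀ k κ) (PSo.str k₀ k κ) =
      pullback.fst _ _ ≫ PSo.hyp k₀ k κ i := pullback.lift_fst _ _ _
  have tsnd : t ≫ pullback.snd (PSo.str k₀ k κ) (PSo.str k₀ k κ) =
      pullback.snd _ _ := (pullback.lift_snd _ _ _).trans (Category.comp_id _)
  have tcomp : t ≫ pullback.fst (PSo.str k₀ k κ) (PSo.str k₀ k κ) ≫ PSo.str k₀ k κ =
      pullback.fst (PSo.str k₀ k {j // j ≠ i}) (PSo.str k₀ k κ) ≫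
        PSo.str k₀ k {j // j ≠ i} := by
    rw [← Category.assoc, tfst, Category.assoc, PSo.hyp_str]
  have smQ := sms_isSm vQ
  have smD := (sms_open smQ j hcomp.isOpen).1
  have SQ : Sm (pullback (PSo.str k₀ k κ) (PSo.str k₀ k κ)) := sms_sm vQ
  have SP : Sm (PSo k₀ k κ) := sms_sm vP
  have SD : Sm D := ⟨k, _, _, _, smD⟩
  -- the class of the diagonal
  let P := pr_P k₀ k κ (s + 1) vP
  let Δ : P ⟶ P ⊗ P := lift (𝟙 P) (𝟙 P)
  obtain ⟨a, haeq⟩ : ∃ a : T.CH (pullback (PSo.str k₀ k κ) (PSo.str k₀ k κ)),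
      a = T.push Δ.hom (1 : T.CH P.X) := ⟨_, rfl⟩
  have ha : a ∈ T.codim (pullback (PSo.str k₀ k κ) (PSo.str k₀ k κ)) (s + 1) := by
    rw [haeq]
    exact T.push_mem P.str (P ⊗ P).str Δ.hom Δ.comm P.isVar.isSm (P ⊗ P).isVar.isSm
      (Var.isProper Δ) (s + 1) (s + 1 + (s + 1)) P.isVar.smooth (P ⊗ P).isVar.smooth 0 (s + 1)
      (by omega) 1 (T.one_mem _)
  have hcl : T.cl (P ⊗ P).X a = (weil T k).diag P := by
    rw [haeq]
    refine ((weil T k).push_eq Δ 1 _ fun y => ?_).symm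
    have h1 := T.cl_push P.str (P ⊗ P).str Δ.hom Δ.comm P.dim (P ⊗ P).dim P.isVar
      (P ⊗ P).isVar 1 y
    rw [map_one (T.cl P.X)] at h1
    exact h1
  obtain ⟨b, hb, hb'⟩ := T.pull_surjective_of_affineBundle
    (j ≫ pullback.snd (PSo.str k₀ k κ) (PSo.str k₀ k κ)) SD SP hbun (s + 1)
    (T.pull j a) (T.pull_mem j SD SQ (s + 1) _ ha)
  rw [T.pull_comp j _ SD SQ SP] at hb'
  have hmem : a - T.pull (pullback.snd (PSo.str k₀ k κ) (PSo.str k₀ k κ)) b ∈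
      T.codim (pullback (PSo.str k₀ k κ) (PSo.str k₀ k κ)) (s + 1) :=
    Submodule.sub_mem _ ha (T.pull_mem _ SQ SP (s + 1) b hb)
  have hzero : T.pull j (a -
      T.pull (pullback.snd (PSo.str k₀ k κ) (PSo.str k₀ k κ)) b) = 0 := by
    rw [map_sub, hb', sub_self]
  have hdim : SmoothOfRelativeDimension (s + (s + 1) + 1)
      (pullback.fst (PSo.str k₀ k κ) (PSo.str k₀ k κ) ≫ PSo.str k₀ k κ).left := by
    rw [show s + (s + 1) + 1 = s + 1 + (s + 1) by omega]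
    exact vQ.smooth
  obtain ⟨b', hb1, hb2⟩ := T.localization
    (pullback.fst (PSo.str k₀ k {j // j ≠ i}) (PSo.str k₀ k κ) ≫ PSo.str k₀ k {j // j ≠ i})
    (pullback.fst (PSo.str k₀ k κ) (PSo.str k₀ k κ) ≫ PSo.str k₀ k κ) t j
    tcomp (sms_isSm vT) smQ hcomp
    (s + (s + 1)) 1 vT.smooth hdim s _ hmem hzero
  have htt : (lift (fst _ _ ≫ pr_ι i vP vH) (snd _ _) :
      pr_P k₀ k {j // j ≠ i} s vH ⊗ P ⟶ P ⊗ P).hom = t := by
    refine pullback.hom_ext (f := PSo.str k₀ k κ) (g := PSo.str k₀ k κ) ?_ ?_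
    · exact (congrArg Var.Hom.hom (lift_fst (fst (pr_P k₀ k {j // j ≠ i} s vH) P ≫
        pr_ι i vP vH) (snd (pr_P k₀ k {j // j ≠ i} s vH) P))).trans tfst.symm
    · exact (congrArg Var.Hom.hom (lift_snd (fst (pr_P k₀ k {j // j ≠ i} s vH) P ≫
        pr_ι i vP vH) (snd (pr_P k₀ k {j // j ≠ i} s vH) P))).trans tsnd.symm
  refine ⟨T.cl P.X b, T.cl (P ⊗ P).X (T.push t b'),
    T.cl (pr_P k₀ k {j // j ≠ i} s vH ⊗ P).X b', ?_, fun v => ?_⟩
  · rw [← hcl]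
    have h1 : a = T.pull (pullback.snd (PSo.str k₀ k κ) (PSo.str k₀ k κ)) b +
        T.push t b' := by
      rw [hb2]
      exact (add_sub_cancel _ _).symm
    have h2 := T.cl_pull (pullback.snd (PSo.str k₀ k κ) (PSo.str k₀ k κ)) vQ.isWeil vP.isWeil b
    calc T.cl (P ⊗ P).X a = T.cl (P ⊗ P).X
          (T.pull (pullback.snd (PSo.str k₀ k κ) (PSo.str k₀ k κ)) b + T.push t b') :=
          congrArg _ h1
      _ = T.cl (P ⊗ P).X (T.pull (pullback.snd (PSo.str k₀ k κ) (PSo.str k₀ k κ)) b) +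
          T.cl (P ⊗ P).X (T.push t b') := map_add _ _ _
      _ = _ := congrArg (fun x => x + T.cl (P ⊗ P).X (T.push t b')) h2
  · have h3 := T.cl_push
      (pullback.fst (PSo.str k₀ k {j // j ≠ i}) (PSo.str k₀ k κ) ≫ PSo.str k₀ k {j // j ≠ i})
      (pullback.fst (PSo.str k₀ k κ) (PSo.str k₀ k κ) ≫ PSo.str k₀ k κ) t tcomp _ _ vT vQ b' v
    rw [← htt] at h3
    rw [← htt]
    exact h3

theorem pr_one_ne {κ : Type} {r : ℕ} (vP : IsVar (PSo.str k₀ k κ) r) :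
    (1 : T.H (PSo k₀ k κ)) ≠ 0 := by
  intro h
  obtain ⟨p, -, hp⟩ := (weil T k).exists_pt (pr_P k₀ k κ r vP)
  have h1 : p = 0 := by
    have h2 : (1 : (weil T k).H (pr_P k₀ k κ r vP)) = 0 := h
    rw [← one_mul p, h2, zero_mul]
  rw [h1, map_zero] at hp
  exact zero_ne_one hp

include E in
theorem pr_main (r : ℕ) : ∀ (κ : Type) [Fintype κ], Fintype.card κ = r + 1 →
    ∃ t ∈ T.codim (PSo k₀ k κ) 1, ∀ v : T.H (PSo k₀ k κ), ∃ c : ℕ → K,
      v = ∑ l ∈ range (r + 1), c l • (T.cl _ t) ^ l := by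
  classical
  induction r with
  | zero =>
    intro κ _ hκ
    have vP : IsVar (PSo.str k₀ k κ) 0 := tPS k₀ k κ 0 hκ
    exact ⟨0, Submodule.zero_mem _, pr_zero (weil T k) (X := pr_P k₀ k κ 0 vP) rfl _⟩
  | succ s ih =>
    intro κ _ hκ
    have hcard : 1 < Fintype.card κ := by omega
    have hnt : Nontrivial κ := Fintype.one_lt_card_iff_nontrivial.1 hcard
    obtain ⟨i⟩ : Nonempty κ := inferInstance
    have hcard' : Fintype.card {j // j ≠ i} = s + 1 := by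
      have := Fintype.card_subtype_compl (fun j => j = i)
      rw [Fintype.card_subtype_eq] at this
      have h5 : Fintype.card {j // j ≠ i} = Fintype.card {j // ¬ j = i} := rfl
      omega
    have vP : IsVar (PSo.str k₀ k κ) (s + 1) := tPS k₀ k κ (s + 1) hκ
    have vH : IsVar (PSo.str k₀ k {j // j ≠ i}) s := tPS k₀ k {j // j ≠ i} s hcard'
    obtain ⟨t', ht', hs'⟩ := ih {j // j ≠ i} hcard'
    have hcl := (tHyp k₀ k κ i).1
    have htm : hypClass T k i ∈ T.codim (PSo k₀ k κ) 1 :=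
      T.push_mem (PSo.str k₀ k {j // j ≠ i}) (PSo.str k₀ k κ) (PSo.hyp k₀ k κ i)
        (PSo.hyp_str k₀ k κ i) vH.isSm vP.isSm inferInstance s (s + 1) vH.smooth vP.smooth 0 1
        (by omega) 1 (T.one_mem _)
    refine ⟨hypClass T k i, htm, ?_⟩
    have hι : ∀ v : T.H (PSo k₀ k κ),
        T.tr (PSo k₀ k κ) (T.cl _ (hypClass T k i) * v) =
        T.tr (PSo k₀ k {j // j ≠ i}) (T.pullH (PSo.hyp k₀ k κ i) v) := by
      intro v
      have h1 := T.cl_push (PSo.str k₀ k {j // j ≠ i}) (PSo.str k₀ k κ) (PSo.hyp k₀ k κ i)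
        (PSo.hyp_str k₀ k κ i) s (s + 1) vH vP 1 v
      rw [map_one (T.cl (PSo k₀ k {j // j ≠ i})), one_mul] at h1
      exact h1
    have h0 : (T.cl (PSo k₀ k κ) (hypClass T k i)) ^ (s + 1) ≠ 0 := by
      intro h
      have h1 := (E.lefschetz (PSo.str k₀ k κ) (s + 1) vP i (𝟙 _) inferInstance
        (Category.id_comp _)).1 (s + 1) le_rfl 1 (by
          rw [Nat.sub_self]
          exact T.oneH_mem _ vP.isWeil)
      rw [T.pull_id vP.sm, h, zero_mul] at h1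
      exact pr_one_ne vP (h1 rfl)
    have ht2 : (T.cl (PSo k₀ k κ) (hypClass T k i)) ∈
        (weil T k).gr (pr_P k₀ k κ (s + 1) vP) 2 := T.cl_mem _ vP.isWeil 1 _ htm
    have ht2' : (T.cl (PSo k₀ k {j // j ≠ i}) t') ∈
        (weil T k).gr (pr_P k₀ k {j // j ≠ i} s vH) 2 := T.cl_mem _ vH.isWeil 1 _ ht'
    obtain ⟨β, δ, w, h1, h2⟩ := pr_loc (T := T) i s vP vH
    exact pr_step (weil T k) (pr_ι i vP vH) hι
      (pr_claim (weil T k) (pr_ι i vP vH) ht2 ht2' hι h0 hs') h1 h2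

end Sch

theorem tPr (k₀ K : Type) [Field k₀] [Field K] : StPr k₀ K := by
  intro _ T E k _ _ _ κ _ r hκ
  have vP : IsVar (PSo.str k₀ k κ) r := tPS k₀ k κ r hκ
  obtain ⟨t, ht, hs⟩ := pr_main E (k := k) r κ hκ
  refine ⟨t, ht, hs, ?_⟩
  obtain ⟨q, hq⟩ := T.tr_cl _ vP.isWeil (t ^ r)
  rw [map_pow] at hq
  refine ⟨q, ?_, hq⟩
  rintro rfl
  have h1 : T.cl (PSo k₀ k κ) t ∈ (weil T k).gr (pr_P k₀ k κ r vP) 2 :=
    T.cl_mem _ vP.isWeil 1 _ ht
  refine pr_tr (weil T k) h1 hs ?_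
  change T.tr _ (T.cl (PSo k₀ k κ) t ^ r) = 0
  rw [hq, Rat.cast_zero]

end Pool.Agent.Lib.MP_4ca46c_ag.Div
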