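import Mathlib
import Pool.Agent.Lib.MP_4ca46c_ag.Div.Spec

/-!
# The class `h` on `X × P`
-/

namespace Pool.Agent.Lib.MP_4ca46c_ag.Div

open CategoryTheory Limits AlgebraicGeometry MonoidalCategory CartesianMonoidalCategory Finset
open Pool.Agent.Lib.MP_4ca46c_ag.Sign Pool.Agent.Lib.MP_4ca46c_ag.Hyp
open Pool.Agent.Lib.MP_4ca46c_ag.Std

section

variable {K : Type} [Field K] [CharZero K] {𝒱 : Type 1} [Category.{0} 𝒱]
    [CartesianMonoidalCategory 𝒱] (W : Geo.WeilCohomology K 𝒱) {X P : 𝒱}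

theorem prodh_pow_alg {x : W.H X} (hx : x ∈ W.Alg X 1) (l : ℕ) : x ^ l ∈ W.Alg X l := by
  induction l with
  | zero => rw [pow_zero]; exact W.alg_one X
  | succ l ih => rw [pow_succ]; exact W.alg_mul ih hx

theorem prodh_pow_gr {x : W.H X} (hx : x ∈ W.gr X 2) (l : ℕ) : x ^ l ∈ W.gr X (2 * l) := by
  induction l with
  | zero => rw [pow_zero]; exact SetLike.one_mem_graded (W.gr X)
  | succ l ih =>
    rw [pow_succ, show 2 * (l + 1) = 2 * l + 2 by ring]
    exact SetLike.mul_mem_graded ih hx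

theorem prodh_dim_unit : W.dim (𝟙_ 𝒱) = 0 := by
  by_contra h
  have h1 : W.tr (𝟙_ 𝒱) (1 : W.H (𝟙_ 𝒱)) = 0 :=
    W.tr_gr (SetLike.one_mem_graded (W.gr (𝟙_ 𝒱))) (by omega)
  rw [W.tr_unit] at h1
  exact one_ne_zero h1

/-- the pull-back of a class of degree `2` along a map through a point is zero -/
theorem prodh_pull_pt {Z : 𝒱} (f : Z ⟶ 𝟙_ 𝒱) (p : 𝟙_ 𝒱 ⟶ X) {x : W.H X} (hx : x ∈ W.gr X 2) :
    W.pull (f ≫ p) x = 0 := by
  rw [W.pull_comp, W.gr_top (W.pull_gr p hx) (by rw [prodh_dim_unit]; norm_num), map_zero]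

theorem prodh_tm_sum (s : Finset ℕ) (f : ℕ → W.H P) (a : W.H X) :
    W.tm a (∑ l ∈ s, f l) = ∑ l ∈ s, W.tm a (f l) := by
  simp only [Geo.WeilCohomology.tm, map_sum, mul_sum]

/-- the Künneth decomposition with respect to the powers of `t` -/
theorem prodh_span {t : W.H P} {r : ℕ}
    (hspan : ∀ v : W.H P, ∃ c : ℕ → K, v = ∑ l ∈ range (r + 1), c l • t ^ l)
    (u : W.H (X ⊗ P)) : ∃ x : ℕ → W.H X, u = ∑ l ∈ range (r + 1), W.tm (x l) (t ^ l) := by
  refine W.ind_tm (P := fun u => ∃ x : ℕ → W.H X, u = ∑ l ∈ range (r + 1), W.tm (x l) (t ^ l)) u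
    ⟨fun _ => 0, ?_⟩ (fun a b => ?_) (fun u v hu hv => ?_)
  · rw [sum_eq_zero]
    intro l _
    exact W.tm_zero_left _
  · obtain ⟨c, hc⟩ := hspan b
    refine ⟨fun l => c l • a, ?_⟩
    conv_lhs => rw [hc]
    rw [prodh_tm_sum]
    refine sum_congr rfl fun l _ => ?_
    rw [W.tm_smul_right, W.tm_smul_left]
  · obtain ⟨x, hx⟩ := hu
    obtain ⟨y, hy⟩ := hv
    refine ⟨fun l => x l + y l, ?_⟩
    conv_lhs => rw [hx, hy]
    rw [← sum_add_distrib]
    refine sum_congr rfl fun l _ => ?_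
    rw [W.tm_add_left]

theorem prodh_pi {m k : ℕ} {b : W.H P} (hb : b ∈ W.gr P k) (x : W.H X) :
    W.pi (X ⊗ P) (m + k) (W.tm x b) = W.tm (W.pi X m x) b := by
  refine W.ind (P := fun x => W.pi (X ⊗ P) (m + k) (W.tm x b) = W.tm (W.pi X m x) b) x ?_
    (fun i x hx => ?_) (fun x y h h' => ?_)
  · rw [W.tm_zero_left, map_zero, map_zero, W.tm_zero_left]
  · by_cases hi : i = m
    · subst hi
      rw [W.pi_same hx, W.pi_same (W.tm_gr hx hb)]
    · rw [W.pi_ne hx hi, W.tm_zero_left, W.pi_ne (W.tm_gr hx hb) (by omega)]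
  · rw [W.tm_add_left, map_add, h, h', map_add, W.tm_add_left]

theorem prodh_pi_lt {m k : ℕ} {b : W.H P} (hb : b ∈ W.gr P k) (hm : m < k) (x : W.H X) :
    W.pi (X ⊗ P) m (W.tm x b) = 0 := by
  refine W.ind (P := fun x => W.pi (X ⊗ P) m (W.tm x b) = 0) x ?_
    (fun i x hx => ?_) (fun x y h h' => ?_)
  · rw [W.tm_zero_left, map_zero]
  · rw [W.pi_ne (W.tm_gr hx hb) (by omega)]
  · rw [W.tm_add_left, map_add, h, h', add_zero]

/-- the class of degree two -/
theorem prodh_two {t : W.H P} {r : ℕ} (ht : t ∈ W.gr P 2) (hr : W.dim P = r)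
    (hspan : ∀ v : W.H P, ∃ c : ℕ → K, v = ∑ l ∈ range (r + 1), c l • t ^ l)
    {h : W.H (X ⊗ P)} (hh : h ∈ W.gr (X ⊗ P) 2) :
    ∃ D ∈ W.gr X 2, ∃ b' : K, h = W.tm D 1 + b' • W.tm 1 t := by
  obtain ⟨x, hx⟩ := prodh_span W hspan h
  obtain ⟨b', hb'⟩ := W.connected (W.pi_mem (X := X) 0 (x 1))
  refine ⟨W.pi X 2 (x 0), W.pi_mem 2 _, b', ?_⟩
  have htl : ∀ l, t ^ l ∈ W.gr P (2 * l) := prodh_pow_gr W ht
  have h1 : h = ∑ l ∈ range (r + 2), W.pi (X ⊗ P) 2 (W.tm (x l) (t ^ l)) := by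
    rw [sum_range_succ]
    have h0 : t ^ (r + 1) = 0 := W.gr_top (htl (r + 1)) (by omega)
    rw [h0, W.tm_zero_right, map_zero, add_zero, ← map_sum, ← hx, W.pi_same hh]
  have hA : W.pi (X ⊗ P) 2 (W.tm (x 0) (t ^ 0)) = W.tm (W.pi X 2 (x 0)) 1 := by
    have := prodh_pi W (m := 2) (htl 0) (x 0)
    rw [mul_zero, add_zero] at this
    rw [this, pow_zero]
  have hB : W.pi (X ⊗ P) 2 (W.tm (x 1) (t ^ 1)) = b' • W.tm 1 t := by
    have := prodh_pi W (m := 0) (htl 1) (x 1)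
    rw [zero_add, mul_one, hb', pow_one, Algebra.algebraMap_eq_smul_one, W.tm_smul_left] at this
    rw [pow_one]
    exact this
  conv_lhs => rw [h1]
  rw [sum_range_succ', sum_range_succ', sum_eq_zero, zero_add, hA, zero_add, hB, add_comm]
  intro l _
  exact prodh_pi_lt W (htl (l + 1 + 1)) (by omega) _

theorem prodh_comm {D : W.H X} (hD : D ∈ W.gr X 2) (t : W.H P) :
    W.pull (fst X P) D * W.pull (snd X P) t = W.pull (snd X P) t * W.pull (fst X P) D := by
  refine W.ind (P := fun t => W.pull (fst X P) D * W.pull (snd X P) t =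
    W.pull (snd X P) t * W.pull (fst X P) D) t ?_ (fun i t ht => ?_) (fun x y h h' => ?_)
  · rw [map_zero, mul_zero, zero_mul]
  · rw [W.comm_smul (W.pull_gr _ hD) (W.pull_gr _ ht), pow_mul, neg_one_sq, one_pow, one_smul]
  · rw [map_add, mul_add, add_mul, h, h']

/-- a nonzero class of top degree has a nonzero trace -/
theorem prodh_top {x : W.H X} (hx : x ∈ W.gr X (2 * W.dim X)) (hx0 : x ≠ 0) : W.tr X x ≠ 0 := by
  intro h0
  apply hx0
  refine W.duality _ fun y => ?_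
  refine W.ind (P := fun y => W.tr X (x * y) = 0) y ?_ (fun i y hy => ?_) (fun y z h h' => ?_)
  · rw [mul_zero, map_zero]
  · by_cases hi : i = 0
    · subst hi
      obtain ⟨a, rfl⟩ := W.connected hy
      rw [Algebra.algebraMap_eq_smul_one, mul_smul_comm, map_smul, mul_one, h0, smul_zero]
    · exact W.tr_gr (SetLike.mul_mem_graded hx hy) (by omega)
  · rw [mul_add, map_add, h, h', add_zero]

end

theorem tProdH : StProdH := by
  intro K _ _ 𝒱 _ _ W X P t h κ p ht hh hκ htr hspan hne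
  obtain ⟨r, hr⟩ : ∃ r, W.dim P = r := ⟨_, rfl⟩
  obtain ⟨n, hn⟩ : ∃ n, W.dim X = n := ⟨_, rfl⟩
  rw [hr] at htr hspan hne
  rw [hn] at hne ⊢
  have htg : t ∈ W.gr P 2 := W.alg_gr ht
  have hhg : h ∈ W.gr (X ⊗ P) 2 := W.alg_gr hh
  have htl : ∀ l, t ^ l ∈ W.gr P (2 * l) := prodh_pow_gr W htg
  obtain ⟨D, hD, b', hb'⟩ := prodh_two W htg hr hspan hhg
  have hDl : ∀ l, D ^ l ∈ W.gr X (2 * l) := prodh_pow_gr W hD
  have hκK : ((κ : ℚ) : K) ≠ 0 := by exact_mod_cast hκ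
  -- the restriction to the slice
  have hslice : W.pull (slice X p) h = D := by
    rw [hb', map_add, map_smul, slice, W.pull_tm, W.pull_tm, W.pull_id, map_one, map_one, mul_one,
      one_mul, prodh_pull_pt W _ _ htg, smul_zero, add_zero]
  have hDalg : D ∈ W.Alg X 1 := by
    rw [← hslice]
    exact W.alg_pull _ hh
  have hA1 : W.tm D (1 : W.H P) = W.pull (fst X P) D := by
    rw [Geo.WeilCohomology.tm, map_one, mul_one]
  have hB1 : W.tm (1 : W.H X) t = W.pull (snd X P) t := by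
    rw [Geo.WeilCohomology.tm, map_one, one_mul]
  -- the rational number b
  obtain ⟨b, hb, hbh⟩ : ∃ b : ℚ, b ≠ 0 ∧ h = W.tm D 1 + (b : K) • W.tm 1 t := by
    rcases Nat.eq_zero_or_pos r with hr0 | hr0
    · have ht0 : t = 0 := W.gr_top htg (by omega)
      refine ⟨1, one_ne_zero, ?_⟩
      rw [hb', ht0, W.tm_zero_right, smul_zero, smul_zero]
    · obtain ⟨x⟩ := W.point X
      have hf : W.pull (lift (toUnit P ≫ x) (𝟙 P)) h = b' • t := by
        rw [hb', map_add, map_smul, W.pull_tm, W.pull_tm, W.pull_id, W.pull_id, map_one, one_mul,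
          prodh_pull_pt W _ _ hD, zero_mul, zero_add]
      have hbt : b' • t ∈ W.Alg P 1 := by
        rw [← hf]
        exact W.alg_pull _ hh
      have h2 : b' • t * t ^ (r - 1) ∈ W.Alg P (W.dim P) := by
        have := W.alg_mul hbt (prodh_pow_alg W ht (r - 1))
        rwa [show 1 + (r - 1) = W.dim P by omega] at this
      obtain ⟨q, hq⟩ := W.alg_tr h2
      rw [smul_mul_assoc, map_smul, ← pow_succ', show r - 1 + 1 = r by omega, htr,
        smul_eq_mul] at hq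
      have hbq : b' = ((q / κ : ℚ) : K) := by
        push_cast
        rw [eq_div_iff hκK, hq]
      refine ⟨q / κ, ?_, by rw [← hbq]; exact hb'⟩
      intro h0
      apply hne
      rw [hbq, h0, Rat.cast_zero, zero_smul, add_zero, hA1] at hb'
      rw [hb', ← map_pow, W.gr_top (hDl (n + r)) (by omega), map_zero]
  rw [hslice]
  refine ⟨b, hb, hbh, ?_⟩
  -- the top power
  have hDn : D ^ n ≠ 0 := by
    intro hD0
    apply hne
    have hcomm : Commute (W.pull (fst X P) D) ((b : K) • W.pull (snd X P) t) := by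
      change _ * _ = _ * _
      rw [mul_smul_comm, smul_mul_assoc, prodh_comm W hD]
    rw [hbh, hA1, hB1, hcomm.add_pow]
    refine sum_eq_zero fun m hm => ?_
    have hm' : m ≤ n + r := Nat.lt_succ_iff.1 (mem_range.1 hm)
    rcases lt_or_ge m n with h1 | h1
    · have h2 : t ^ (n + r - m) = 0 := W.gr_top (htl (n + r - m)) (by omega)
      rw [smul_pow, ← map_pow (W.pull (snd X P)), h2, map_zero, smul_zero, mul_zero, zero_mul]
    · have h2 : D ^ m = 0 := by
        rw [show m = n + (m - n) by omega, pow_add, hD0, zero_mul]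
      rw [← map_pow (W.pull (fst X P)), h2, map_zero, zero_mul, zero_mul]
  have hDn2 : D ^ n ∈ W.Alg X (W.dim X) := by
    rw [hn]
    exact prodh_pow_alg W hDalg n
  obtain ⟨c, hc⟩ := W.alg_tr hDn2
  refine ⟨c, ?_, hc⟩
  intro hc0
  apply prodh_top W (x := D ^ n) (by rw [hn]; exact hDl n) hDn
  rw [hc, hc0, Rat.cast_zero]

end Pool.Agent.Lib.MP_4ca46c_ag.Div
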