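import Mathlib
import Pool.Agent.Lib.MP_4ca46c_ag.Div.Spec
import Pool.Agent.Lib.MP_4ca46c_ag.Hyp.HypCompl

/-!
# The complement of the universal hyperplane section is affine
-/

namespace Pool.Agent.Lib.MP_4ca46c_ag.Hyp

open CategoryTheory Limits AlgebraicGeometry Opposite

namespace PreCoord

variable {Z T : Scheme.{0}} {κ : Type} (C : PreCoord Z κ) [Fintype κ] (z : T ⟶ Z)
  (a : κ → Γ(T, ⊤))

/-- The open set where `∑ a_j x_j` and `x_i` do not vanish. -/
noncomputable def nv (i : κ) : T.Opens :=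
  T.basicOpen (C.eqn z a i (z ⁻¹ᵁ C.D i) le_rfl)

theorem nv_le (i : κ) : C.nv z a i ≤ z ⁻¹ᵁ C.D i := T.basicOpen_le _

theorem nv_unit (i : κ) (W : T.Opens) (h : W ≤ C.nv z a i) :
    IsUnit (C.eqn z a i W (h.trans (C.nv_le z a i))) := by
  have h1 : IsUnit (T.presheaf.map (homOfLE (C.nv_le z a i)).op
      (C.eqn z a i (z ⁻¹ᵁ C.D i) le_rfl)) :=
    RingedSpace.isUnit_res_basicOpen T.toRingedSpace _
  rw [C.eqn_res] at h1
  have h2 := h1.map (T.presheaf.map (homOfLE h).op).hom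
  have h3 := C.eqn_res z a i (C.nv_le z a i) h
  rw [← h3]
  exact h2

theorem nv_inf (i j : κ) : C.nv z a j ⊓ z ⁻¹ᵁ C.D i ≤ C.nv z a i := by
  have h1 := C.nv_unit z a j (C.nv z a j ⊓ z ⁻¹ᵁ C.D i) inf_le_left
  have e := C.eqn_mul z a i j (W := C.nv z a j ⊓ z ⁻¹ᵁ C.D i) inf_le_right
    (inf_le_left.trans (C.nv_le z a j))
  rw [e] at h1
  have h2 := isUnit_of_mul_isUnit_right h1
  rw [← C.eqn_res z a i le_rfl (inf_le_right : C.nv z a j ⊓ z ⁻¹ᵁ C.D i ≤ _)] at h2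
  intro x hx
  have h3 : x ∈ T.basicOpen (T.presheaf.map (homOfLE (inf_le_right :
      C.nv z a j ⊓ z ⁻¹ᵁ C.D i ≤ z ⁻¹ᵁ C.D i)).op (C.eqn z a i (z ⁻¹ᵁ C.D i) le_rfl)) := by
    rw [T.basicOpen_of_isUnit h2]
    exact hx
  rw [T.basicOpen_res] at h3
  exact h3.2

/-- The open set where `∑ a_j x_j` does not vanish. -/
noncomputable def nvU : T.Opens := ⨆ i, C.nv z a i

theorem nv_le_nvU (i : κ) : C.nv z a i ≤ C.nvU z a := le_iSup (C.nv z a) i

theorem exists_fun (i j : κ) : ∃ s : Γ(T, C.nv z a i),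
    s * C.eqn z a i (C.nv z a i) (C.nv_le z a i) =
      z.appLE (C.D i) (C.nv z a i) (C.nv_le z a i) (C.f i j) := by
  obtain ⟨u, hu⟩ := (C.nv_unit z a i _ le_rfl)
  refine ⟨z.appLE (C.D i) (C.nv z a i) (C.nv_le z a i) (C.f i j) * (u⁻¹ : _ˣ), ?_⟩
  rw [← hu, mul_assoc, Units.inv_mul, mul_one]

theorem exists_glue (j : κ) : ∃ s : Γ(T, C.nvU z a), ∀ i,
    T.presheaf.map (homOfLE (C.nv_le_nvU z a i)).op s *
      C.eqn z a i (C.nv z a i) (C.nv_le z a i) =
        z.appLE (C.D i) (C.nv z a i) (C.nv_le z a i) (C.f i j) := by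
  choose s hs using fun i => C.exists_fun z a i j
  have hc : TopCat.Presheaf.IsCompatible T.sheaf.1 (C.nv z a) s := by
    intro i l
    have hi := congrArg (T.presheaf.map (homOfLE (inf_le_left : C.nv z a i ⊓ C.nv z a l ≤ _)).op)
      (hs i)
    have hl := congrArg (T.presheaf.map (homOfLE (inf_le_right : C.nv z a i ⊓ C.nv z a l ≤ _)).op)
      (hs l)
    rw [map_mul, C.eqn_res, ← CommRingCat.comp_apply, Scheme.Hom.appLE_map] at hi hl
    have ui := C.nv_unit z a i (C.nv z a i ⊓ C.nv z a l) inf_le_left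
    have ul := C.nv_unit z a l (C.nv z a i ⊓ C.nv z a l) inf_le_right
    have e1 := C.f_mul' z (C.nv z a i ⊓ C.nv z a l) i l j (inf_le_left.trans (C.nv_le z a i))
      (inf_le_right.trans (C.nv_le z a l))
    have e2 := C.eqn_mul z a l i (W := C.nv z a i ⊓ C.nv z a l)
      (inf_le_right.trans (C.nv_le z a l)) (inf_le_left.trans (C.nv_le z a i))
    change T.presheaf.map (homOfLE inf_le_left).op (s i) =
      T.presheaf.map (homOfLE inf_le_right).op (s l)
    refine ui.mul_right_cancel ?_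
    rw [hi, e1, e2, mul_left_comm, ← hl]
  obtain ⟨t, ht, -⟩ := TopCat.Sheaf.existsUnique_gluing' T.sheaf (C.nv z a) (C.nvU z a)
    (fun i => homOfLE (C.nv_le_nvU z a i)) le_rfl s hc
  refine ⟨t, fun i => ?_⟩
  rw [← hs i]
  congr 1
  exact ht i

theorem isAffineOpen_nvU (h : ∀ i, IsAffineOpen (z ⁻¹ᵁ C.D i)) : IsAffineOpen (C.nvU z a) := by
  choose s hs using fun j => C.exists_glue z a j
  refine isAffineOpen_of_isAffineOpen_basicOpen (C.nvU z a) (Set.range s) ?_ ?_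
  · rw [Ideal.eq_top_iff_one]
    have h1 : (∑ j, T.presheaf.map (homOfLE le_top).op (a j) * s j : Γ(T, C.nvU z a)) = 1 := by
      refine sec_ext (C.nv z a) (C.nv_le_nvU z a) le_rfl fun i => ?_
      refine (C.nv_unit z a i _ le_rfl).mul_right_cancel ?_
      rw [map_sum, map_one, one_mul, Finset.sum_mul, eqn]
      refine Finset.sum_congr rfl fun j _ => ?_
      rw [map_mul, ← hs j i, ← CommRingCat.comp_apply, ← Functor.map_comp, eqn, mul_assoc]
      rfl
    rw [← h1]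
    exact Ideal.sum_mem _ fun j _ => Ideal.mul_mem_left _ _ (Ideal.subset_span ⟨j, rfl⟩)
  · rintro _ ⟨j, rfl⟩
    have h1 : T.basicOpen (s j) = C.nv z a j := by
      refine le_antisymm ?_ ?_
      · intro x hx
        obtain ⟨i, hi⟩ := TopologicalSpace.Opens.mem_iSup.1 (T.basicOpen_le _ hx)
        refine C.nv_inf z a j i ⟨hi, ?_⟩
        have h2 : x ∈ T.basicOpen (T.presheaf.map (homOfLE (C.nv_le_nvU z a i)).op (s j)) := by
          rw [T.basicOpen_res]
          exact ⟨hi, hx⟩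
        have h3 : x ∈ T.basicOpen (C.eqn z a i (C.nv z a i) (C.nv_le z a i)) := by
          rw [T.basicOpen_of_isUnit (C.nv_unit z a i _ le_rfl)]
          exact hi
        have h4 : x ∈ T.basicOpen (z.appLE (C.D i) (C.nv z a i) (C.nv_le z a i) (C.f i j)) := by
          rw [← hs j i, T.basicOpen_mul]
          exact ⟨h2, h3⟩
        have h5 : z.appLE (C.D i) (C.nv z a i) (C.nv_le z a i) (C.f i j) =
            T.presheaf.map (homOfLE (C.nv_le z a i)).op (z.app (C.D i) (C.f i j)) := rfl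
        rw [h5, T.basicOpen_res, ← Scheme.preimage_basicOpen] at h4
        exact pre_mono z (C.basicOpen_le i j) h4.2
      · intro x hx
        have h2 := hs j j
        rw [C.f_self, map_one] at h2
        have h3 : IsUnit (T.presheaf.map (homOfLE (C.nv_le_nvU z a j)).op (s j)) :=
          IsUnit.of_mul_eq_one _ h2
        have h4 : x ∈ T.basicOpen (T.presheaf.map (homOfLE (C.nv_le_nvU z a j)).op (s j)) := by
          rw [T.basicOpen_of_isUnit h3]
          exact hx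
        rw [T.basicOpen_res] at h4
        exact h4.2
    rw [h1]
    exact (h j).basicOpen _

end PreCoord

namespace Coord

variable {Z S : Scheme.{0}} {s : Z ⟶ S} {κ : Type} (C : Coord s κ) [Fintype κ]

/-- The complement of the universal hyperplane section. -/
noncomputable def U : (𝔸(κ; Z)).Opens := C.nvU (𝔸(κ; Z) ↘ Z) (AffineSpace.coord Z)

theorem isAffineOpen_U (h : ∀ i, IsAffineOpen (C.D i)) : IsAffineOpen C.U :=
  C.isAffineOpen_nvU _ _ fun i => (h i).preimage (𝔸(κ; Z) ↘ Z)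

theorem range_U : Set.range C.U.ι = (Set.range C.inc)ᶜ := by
  rw [Scheme.Opens.range_ι]
  ext x
  constructor
  · rintro hx ⟨y, rfl⟩
    obtain ⟨i, hi⟩ := TopologicalSpace.Opens.mem_iSup.1 hx
    have h1 := (C.inc_iff C.inc).1 ⟨𝟙 _, Category.id_comp _⟩ i
    have h2 := C.map_eqn C.inc (𝔸(κ; Z) ↘ Z) (AffineSpace.coord Z) i le_rfl
      (show (C.inc ≫ (𝔸(κ; Z) ↘ Z)) ⁻¹ᵁ C.D i ≤ C.inc ⁻¹ᵁ ((𝔸(κ; Z) ↘ Z) ⁻¹ᵁ C.D i) from le_rfl)
    have h3 : C.inc.app _ (C.eqn (𝔸(κ; Z) ↘ Z) (AffineSpace.coord Z) i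
        ((𝔸(κ; Z) ↘ Z) ⁻¹ᵁ C.D i) le_rfl) = 0 := by
      rw [Scheme.Hom.app_eq_appLE]
      exact h2.trans h1
    have h4 : y ∈ C.inc ⁻¹ᵁ (𝔸(κ; Z)).basicOpen (C.eqn (𝔸(κ; Z) ↘ Z) (AffineSpace.coord Z) i
        ((𝔸(κ; Z) ↘ Z) ⁻¹ᵁ C.D i) le_rfl) := hi
    rw [Scheme.preimage_basicOpen, h3, Scheme.basicOpen_zero] at h4
    exact h4
  · intro hx
    by_contra hU
    refine hx ?_
    set t := (𝔸(κ; Z)).fromSpecResidueField x with ht
    have hv : C.Van (t ≫ (𝔸(κ; Z) ↘ Z)) (fun j => t.appTop (AffineSpace.coord Z j)) := by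
      intro i
      have h2 := C.map_eqn t (𝔸(κ; Z) ↘ Z) (AffineSpace.coord Z) i le_rfl
        (show (t ≫ (𝔸(κ; Z) ↘ Z)) ⁻¹ᵁ C.D i ≤ t ⁻¹ᵁ ((𝔸(κ; Z) ↘ Z) ⁻¹ᵁ C.D i) from le_rfl)
      refine h2.symm.trans ?_
      have h3 : t.app _ (C.eqn (𝔸(κ; Z) ↘ Z) (AffineSpace.coord Z) i
          ((𝔸(κ; Z) ↘ Z) ⁻¹ᵁ C.D i) le_rfl) = 0 := by
        rw [← basicOpen_eq_bot_iff, ← Scheme.preimage_basicOpen, eq_bot_iff]
        intro y hy
        have h4 : t y = x := by
          have h5 : t y ∈ Set.range t := ⟨y, rfl⟩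
          rw [ht, Scheme.range_fromSpecResidueField] at h5
          exact h5
        have h5 : t y ∈ C.nv (𝔸(κ; Z) ↘ Z) (AffineSpace.coord Z) i := hy
        rw [h4] at h5
        exact hU (C.nv_le_nvU _ _ i h5)
      rw [Scheme.Hom.app_eq_appLE] at h3
      exact h3
    obtain ⟨t', h'⟩ := (C.inc_iff t).2 hv
    have h1 : x ∈ Set.range t := by
      rw [ht, Scheme.range_fromSpecResidueField]
      rfl
    obtain ⟨y, hy⟩ := h1
    refine ⟨t' y, ?_⟩
    rw [← Scheme.Hom.comp_apply, h', hy]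

end Coord

end Pool.Agent.Lib.MP_4ca46c_ag.Hyp

namespace Pool.Agent.Lib.MP_4ca46c_ag.Div

open CategoryTheory Limits AlgebraicGeometry
open Pool.Agent.Lib.MP_4ca46c_ag.Sign Pool.Agent.Lib.MP_4ca46c_ag.Hyp
open Pool.Agent.Lib.MP_4ca46c_ag.Std

attribute [local instance] MvPolynomial.gradedAlgebra

theorem tAffC (k₀ : Type) [Field k₀] : StAffC k₀ := by
  intro k _ _ κ _
  refine ⟨Over.mk ((psCoord k κ).U.ι ≫ (Aff κ (PSo k₀ k κ)).hom),
    Over.homMk (psCoord k κ).U.ι rfl, ⟨?_, ?_, (psCoord k κ).range_U⟩, ?_⟩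
  · exact inferInstanceAs (IsClosedImmersion (psCoord k κ).inc)
  · exact inferInstanceAs (IsOpenImmersion (psCoord k κ).U.ι)
  · exact (psCoord k κ).isAffineOpen_U fun i =>
      Proj.isAffineOpen_basicOpen (MvPolynomial.homogeneousSubmodule κ k) (MvPolynomial.X i)
        (hX i) one_pos

end Pool.Agent.Lib.MP_4ca46c_ag.Div
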