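import Pool.Agent.Lib.MP_4ca46c_ag.Div.Spec

/-!
# Left inverses from projectors
-/

namespace Pool.Agent.Lib.MP_4ca46c_ag.Div

open CategoryTheory Limits AlgebraicGeometry MonoidalCategory CartesianMonoidalCategory Finset
open Pool.Agent.Lib.MP_4ca46c_ag.Sign Pool.Agent.Lib.MP_4ca46c_ag.Hyp
open Pool.Agent.Lib.MP_4ca46c_ag.Std

section

variable {K : Type} [Field K] [CharZero K] {𝒱 : Type 1} [Category.{0} 𝒱]
  [CartesianMonoidalCategory 𝒱] (W : Geo.WeilCohomology K 𝒱) {X : 𝒱}

/-- Classes of divisors are central. -/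
theorem left_central {h : W.H X} (hh : h ∈ W.Alg X 1) (z : W.H X) : h * z = z * h := by
  refine W.ind (P := fun z => h * z = z * h) z (by simp) (fun i y hy => ?_)
    (fun r s hr hs => by simp only [mul_add, add_mul, hr, hs])
  rw [W.comm (W.alg_gr hh) hy, Even.neg_one_pow (by simp), one_mul]

/-- Hard Lefschetz: multiplication by `h` is injective below the middle. -/
theorem left_inj {h : W.H X} (hL : HL W X h) {i : ℕ} (hi : i < W.dim X) {v : W.H X}
    (hv : v ∈ W.gr X i) (h0 : h * v = 0) : v = 0 := by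
  refine hL.1 (W.dim X - i) (by omega) v ?_ ?_
  · rwa [show W.dim X - (W.dim X - i) = i by omega]
  · rw [show W.dim X - i = (W.dim X - i - 1) + 1 by omega, pow_succ, mul_assoc, h0, mul_zero]

end

theorem tLeft (hT : StTrp) : StLeft := by
  intro K _ _ 𝒱 _ _ W X h m a κ u hdim hh hL ham hu hrel
  have hc := left_central W hh
  have hh2 : h ∈ W.gr X (2 * 1) := W.alg_gr hh
  have hf : W.op u ∈ W.Cor X X (-1) :=
    W.mem_cor.2 (Or.inr ⟨m, u, by rw [hdim]; push_cast; ring, hu, rfl⟩)
  have h1 : ∀ i, ∀ z ∈ W.gr X i,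
      h * W.op u (h * z) = ((if i = a then 1 else 0) - (κ : K)) • (h * z) := by
    intro i z hz
    refine W.ext_tr fun z' => ?_
    rw [hc, mul_assoc, W.op_spec, hrel i z hz z', smul_mul_assoc, map_smul, smul_eq_mul]
  have hg : ∀ f ∈ W.Cor X X (-1), ∀ z ∈ W.gr X a, f (h * z) ∈ W.gr X a := by
    intro f hf z hz
    exact W.cor_gr hf (SetLike.mul_mem_graded hh2 hz) (by push_cast; ring)
  by_cases hk : κ = 1
  · obtain ⟨f', hf', ht⟩ := hT K 𝒱 W X (-1) (W.op u) hf
    refine ⟨-f', AddSubgroup.neg_mem _ hf', fun z hz => ?_⟩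
    have h2 : h * (f' (h * z) + z) = 0 := by
      refine W.duality _ fun z' => ?_
      refine W.ind (P := fun z' => W.tr X (h * (f' (h * z) + z) * z') = 0) z' (by simp)
        (fun i y hy => ?_) (fun r s hr hs => by
          rw [mul_add (h * (f' (h * z) + z)), map_add, hr, hs, add_zero])
      have h3 : W.tr X (h * f' (h * z) * y) =
          ((if i = a then 1 else 0) - (κ : K)) * W.tr X (h * z * y) := by
        rw [hc (f' (h * z)), mul_assoc, ht, hc z, mul_assoc, h1 i y hy, mul_smul_comm, map_smul,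
          smul_eq_mul, ← mul_assoc, mul_assoc]
      rw [mul_add, add_mul, map_add, h3, hk]
      by_cases hi : i = a
      · subst hi
        rw [W.tr_gr (SetLike.mul_mem_graded (SetLike.mul_mem_graded hh2 hz) hy)
          (by rw [hdim]; omega)]
        ring
      · rw [if_neg hi]
        push_cast
        ring
    have h4 : f' (h * z) + z = 0 :=
      left_inj W hL (by omega) (Submodule.add_mem _ (hg f' hf' z hz) hz) h2
    rw [LinearMap.neg_apply]
    exact neg_eq_of_add_eq_zero_right h4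
  · have hk' : (1 - κ : ℚ) ≠ 0 := sub_ne_zero.2 fun h => hk h.symm
    have hk2 : (((1 - κ)⁻¹ : ℚ) : K) * (1 - (κ : K)) = 1 := by
      have : (((1 - κ)⁻¹ : ℚ) : K) * (((1 - κ : ℚ)) : K) = 1 := by
        rw [← Rat.cast_mul, inv_mul_cancel₀ hk', Rat.cast_one]
      rwa [Rat.cast_sub, Rat.cast_one] at this
    refine ⟨(((1 - κ)⁻¹ : ℚ) : K) • W.op u, W.cor_rat hf _, fun z hz => ?_⟩
    have h2 : h * ((((1 - κ)⁻¹ : ℚ) : K) • W.op u (h * z) - z) = 0 := by
      rw [mul_sub, mul_smul_comm, h1 a z hz, if_pos rfl, smul_smul, hk2, one_smul, sub_self]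
    have h4 := left_inj W hL (by omega)
      (Submodule.sub_mem _ (Submodule.smul_mem _ _ (hg _ hf z hz)) hz) h2
    rw [LinearMap.smul_apply]
    exact sub_eq_zero.1 h4

end Pool.Agent.Lib.MP_4ca46c_ag.Div
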