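import Mathlib
import Pool.Agent.Lib.MP_4ca46c_ag.Div.Abs
import Pool.Agent.Lib.MP_4ca46c_ag.Div.Statement
import Pool.Agent.Lib.MP_4ca46c_ag.Std.Bridge4
import Pool.Agent.Lib.MP_4ca46c_ag.Sign.Trans

/-!
# Bridge between the compact form of the axioms and the operators
-/

namespace Pool.Agent.Lib.MP_4ca46c_ag.Div

open CategoryTheory Limits AlgebraicGeometry MonoidalCategory CartesianMonoidalCategory Finset
open Pool.Agent.Lib.MP_4ca46c_ag.Sign Pool.Agent.Lib.MP_4ca46c_ag.Hyp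
open Pool.Agent.Lib.MP_4ca46c_ag.Std
open Geo Geo.WeilCohomology

attribute [local instance] Geo.WeilCohomology.ring Geo.WeilCohomology.algebra
  Geo.WeilCohomology.finite Geo.WeilCohomology.graded

variable {k₀ K : Type} [Field k₀] [Field K]

/-- The variety underlying `X`. -/
noncomputable def xv (X : PrVar k₀) : Var k₀ X.k := ⟨X.X, X.str, X.n, X.isVar⟩

section PV

variable [CharZero K] {T : WeilTheory k₀ K} (V : PVar T)

theorem pv_kunneth : V.KunnethConj ↔ AllPi (weil T V.k) V.var := by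
  rw [(tTrans k₀ K T V).2.1]
  constructor
  · intro h i
    have h1 := h (i : ℤ)
    have h2 : V.proj (i : ℤ) = (weil T V.k).pi V.var i := by
      rw [PVar.proj, if_pos (Int.natCast_nonneg i), Int.toNat_natCast]
    rw [h2] at h1
    exact h1
  · intro h i
    rw [PVar.proj]
    split_ifs with hi
    · exact h _
    · exact AddSubgroup.zero_mem _

theorem pv_sign : V.SignConj ↔ (weil T V.k).even V.var ∈ (weil T V.k).Cor V.var V.var 0 := by
  rw [(tTrans k₀ K T V).2.2.1, ← (weil T V.k).sign_iff]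
  exact (trans_sgn (weil T V.k) (X := V.var)).symm

theorem pv_alg (r : ℤ) (φ) : V.Algebraic r φ ↔ φ ∈ (weil T V.k).Cor V.var V.var r :=
  (tTrans k₀ K T V).1 r φ

end PV

variable {D : CohData k₀ K} (h : D.IsTheory) (h' : IsStandard D)

include h'

theorem br_kunneth [CharZero K] (X : PrVar k₀) :
    X.KunnethConj D ↔ AllPi (weil (D.weil h) X.k) (xv X) :=
  (Std.kunneth_iff h h' X.toProj).trans (pv_kunneth (X.toProj.toP (bridge_extra h h')))

theorem br_sign [CharZero K] (X : PrVar k₀) : X.SignConj D ↔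
    (weil (D.weil h) X.k).even (xv X) ∈ (weil (D.weil h) X.k).Cor (xv X) (xv X) 0 :=
  (Std.sign_iff h h' X.toProj).trans (pv_sign (X.toProj.toP (bridge_extra h h')))

theorem br_alg [CharZero K] (X : PrVar k₀) (r : ℤ) (φ : D.H X.X →ₗ[K] D.H X.X) :
    X.Algebraic D r φ ↔ φ ∈ (weil (D.weil h) X.k).Cor (xv X) (xv X) r := by
  refine Iff.trans ?_ (pv_alg (X.toProj.toP (bridge_extra h h')) r φ)
  have hz : ∀ (Y : Sch k₀) (p : ℤ) (a : D.CH Y), CodimZ D p a ↔ a ∈ (D.chow h).codimZ Y p := by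
    intro Y p a
    rw [CodimZ, ChowTheory.codimZ]
    by_cases hp : 0 ≤ p
    · rw [if_pos hp]
      exact ⟨fun h => h.elim (fun h => h.2) fun h => absurd h.1 (by omega),
        fun h => Or.inl ⟨hp, h⟩⟩
    · rw [if_neg hp]
      exact ⟨fun h => h.elim (fun h => absurd h.1 hp) fun h => h.2,
        fun h => Or.inr ⟨by omega, h⟩⟩
  constructor
  · rintro ⟨a, ha, h2⟩
    exact ⟨a, (hz _ _ _).1 ha, h2⟩
  · rintro ⟨a, ha, h2⟩
    exact ⟨a, (hz _ _ _).2 ha, h2⟩

theorem br_left [CharZero K] (X : PrVar k₀) (c : D.CH X.X) (j a : ℕ) :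
    LeftInv D X c j a ↔ LInv (weil (D.weil h) X.k) (xv X) (D.cl X.X c) j a := by
  constructor
  · rintro ⟨φ, h1, h2⟩
    exact ⟨φ, (br_alg h h' X _ φ).1 h1, h2⟩
  · rintro ⟨φ, h1, h2⟩
    exact ⟨φ, (br_alg h h' X _ φ).2 h1, h2⟩

end Pool.Agent.Lib.MP_4ca46c_ag.Div
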