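import Pool.Agent.Lib.MP_4ca46c_ag.Div.Spec

/-!
# The converse for the conjecture of Künneth type
-/

set_option autoImplicit false

namespace Pool.Agent.Lib.MP_4ca46c_ag.Div

open CategoryTheory Limits AlgebraicGeometry MonoidalCategory CartesianMonoidalCategory Finset
open Pool.Agent.Lib.MP_4ca46c_ag.Sign Pool.Agent.Lib.MP_4ca46c_ag.Hyp
open Pool.Agent.Lib.MP_4ca46c_ag.Std

section

variable {K : Type} [Field K] [CharZero K] {𝒱 : Type 1} [Category.{0} 𝒱]
  [CartesianMonoidalCategory 𝒱] (W : Geo.WeilCohomology K 𝒱) {X P : 𝒱}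

theorem convc_pow {d : W.H X} (hd : d ∈ W.Alg X 1) (j : ℕ) : d ^ j ∈ W.Alg X j := by
  induction j with
  | zero =>
    rw [pow_zero]
    exact W.alg_one X
  | succ j ih =>
    rw [pow_succ]
    exact W.alg_mul ih hd

/-- classes of even degree are central -/
theorem convc_comm {k : ℕ} {x : W.H X} (hx : x ∈ W.gr X (2 * k)) (y : W.H X) :
    x * y = y * x := by
  refine W.ind (P := fun y => x * y = y * x) y (by simp) (fun j y hy => ?_)
    (fun a b ha hb => by rw [mul_add, add_mul, ha, hb])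
  rw [W.comm hx hy]
  have h1 : Even (2 * k * j) := ⟨k * j, by ring⟩
  rw [h1.neg_one_pow, one_mul]

/-- integration over the second factor -/
theorem convc_push (a : W.H X) (v : W.H P) :
    W.push (fst X P) (W.tm a v) = W.tr P v • a := by
  refine W.push_eq _ _ _ fun y => ?_
  have h1 := W.tr_snd a v y
  rw [smul_mul_assoc, map_smul, smul_eq_mul, mul_comm]
  exact h1.symm

/-- the product of two decomposable classes -/
theorem convc_mul (p : W.H X) {i : ℕ} {q : W.H P} (hq : q ∈ W.gr P (2 * i)) (r : W.H X)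
    (s : W.H P) : W.tm p q * W.tm r s = W.tm (p * r) (q * s) := by
  have h1 : W.pull (snd X P) q * W.pull (fst X P) r = W.pull (fst X P) r * W.pull (snd X P) q :=
    convc_comm W (W.pull_gr _ hq) _
  have h2 : W.tm p q * W.tm r s = W.pull (fst X P) p *
      (W.pull (snd X P) q * W.pull (fst X P) r) * W.pull (snd X P) s := by
    simp only [Geo.WeilCohomology.tm, mul_assoc]
  rw [h2, h1]
  simp only [Geo.WeilCohomology.tm, map_mul, mul_assoc]

end

theorem tConvC : StConvC := by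
  intro K _ _ 𝒱 _ _ W X P t d b c m ht hd hb hc hP hm htr hyp a
  obtain ⟨κ, u, hu, hyp⟩ := hyp a
  set h : W.H (X ⊗ P) := W.tm d 1 + (b : K) • W.tm 1 t with hh
  have hhA : h ∈ W.Alg (X ⊗ P) 1 := by
    refine AddSubgroup.add_mem _ ?_ (W.alg_rat b ?_)
    · exact W.tm_alg hd (W.alg_one P)
    · have h1 := W.tm_alg (W.alg_one X) ht
      rwa [zero_add] at h1
  have hhg : h ∈ W.gr (X ⊗ P) (2 * 1) := W.alg_gr hhA
  have hbc : ((b * c : ℚ) : K) ≠ 0 := Rat.cast_ne_zero.2 (mul_ne_zero hb hc)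
  have hdV : W.dim (X ⊗ P) = m + 1 := by rw [W.dim_tensor, hm]
  -- the relation for the operator
  have hrel : ∀ i, ∀ z ∈ W.gr (X ⊗ P) i, h * W.op u (h * z) =
      ((if i = a then 1 else 0) - (κ : K)) • (h * z) := by
    intro i z hz
    refine W.ext_tr fun z' => ?_
    rw [convc_comm W hhg (W.op u (h * z)), mul_assoc, W.op_spec, hyp i z hz z', smul_mul_assoc,
      map_smul, smul_eq_mul]
  -- the operator
  set T : W.H (X ⊗ P) := W.tm 1 (t ^ (W.dim P - 1)) with hT
  have htp : ∀ j, t ^ j ∈ W.gr P (2 * j) := fun j => W.alg_gr (convc_pow W ht j)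
  have hTA : T ∈ W.Alg (X ⊗ P) (W.dim P - 1) := by
    have h1 := W.tm_alg (W.alg_one X) (convc_pow W ht (W.dim P - 1))
    rwa [zero_add] at h1
  set Q : W.H X →ₗ[K] W.H X := W.push (fst X P) ∘ₗ (LinearMap.mulLeft K T ∘ₗ
    (LinearMap.mulLeft K h ∘ₗ (W.op u ∘ₗ (LinearMap.mulLeft K h ∘ₗ
      (W.pull (fst X P)).toLinearMap)))) with hQ
  have hQC : Q ∈ W.Cor X X 0 := by
    have h1 : W.op u ∈ W.Cor (X ⊗ P) (X ⊗ P) (-1) :=
      W.mem_cor.2 (Or.inr ⟨m, u, by omega, hu, rfl⟩)
    have h2 := W.cor_comp (W.cor_push (fst X P)) (W.cor_comp (W.cor_mul hTA)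
      (W.cor_comp (W.cor_mul hhA) (W.cor_comp h1 (W.cor_comp (W.cor_mul hhA)
        (W.cor_pull (fst X P))))))
    have h3 : (W.dim X : ℤ) - W.dim (X ⊗ P) + (((W.dim P - 1 : ℕ) : ℤ) +
        (((1 : ℕ) : ℤ) + (-1 + (((1 : ℕ) : ℤ) + 0)))) = 0 := by
      rw [W.dim_tensor]
      push_cast [Nat.cast_sub hP]
      ring
    rw [h3] at h2
    exact h2
  have hpush : ∀ x, W.push (fst X P) (T * (h * W.pull (fst X P) x)) = ((b * c : ℚ) : K) • x := by
    intro x
    have e1 : W.pull (fst X P) x = W.tm x 1 := by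
      rw [Geo.WeilCohomology.tm, map_one, mul_one]
    have g1 : (1 : W.H P) ∈ W.gr P (2 * 0) := W.alg_gr (W.alg_one P)
    have e2 : T * (h * W.pull (fst X P) x) = W.tm (d * x) (t ^ (W.dim P - 1)) +
        (b : K) • W.tm x (t ^ W.dim P) := by
      rw [e1, hh, hT, add_mul, smul_mul_assoc, convc_mul W d g1 x 1,
        convc_mul W 1 (W.alg_gr ht) x 1, mul_add, mul_smul_comm, convc_mul W 1 (htp _),
        convc_mul W 1 (htp _)]
      simp only [one_mul, mul_one]
      rw [← pow_succ, Nat.sub_add_cancel hP]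
    rw [e2, map_add, map_smul, convc_push, convc_push, htr,
      W.tr_gr (htp (W.dim P - 1)) (by omega), zero_smul, zero_add, smul_smul, ← Rat.cast_mul]
  have hfin : W.pi X a = (((b * c)⁻¹ : ℚ) : K) • Q + (κ : K) • LinearMap.id := by
    refine W.hom_ext fun i x hx => ?_
    have h1 : Q x = ((if i = a then 1 else 0) - (κ : K)) • (((b * c : ℚ) : K) • x) := by
      have h2 : Q x = W.push (fst X P) (T * (h * W.op u (h * W.pull (fst X P) x))) := rfl
      rw [h2, hrel i _ (W.pull_gr _ hx), mul_smul_comm, map_smul, hpush]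
    rw [LinearMap.add_apply, LinearMap.smul_apply, LinearMap.smul_apply, LinearMap.id_apply, h1,
      smul_smul, smul_smul, ← add_smul]
    have h3 : (((b * c)⁻¹ : ℚ) : K) * ((if i = a then 1 else 0) - (κ : K)) *
        ((b * c : ℚ) : K) + (κ : K) = if i = a then 1 else 0 := by
      rw [Rat.cast_inv]
      field_simp
      ring
    rw [h3]
    by_cases hia : i = a
    · subst hia
      rw [W.pi_same hx, if_pos rfl, one_smul]
    · rw [W.pi_ne hx hia, if_neg hia, zero_smul]
  rw [hfin]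
  exact AddSubgroup.add_mem _ (W.cor_rat hQC _) (W.cor_rat (W.cor_id X) _)

end Pool.Agent.Lib.MP_4ca46c_ag.Div
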