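import Pool.Agent.Lib.MP_4ca46c_ag.Div.Spec

set_option autoImplicit false

/-!
# The triangular system
-/

namespace Pool.Agent.Lib.MP_4ca46c_ag.Div

open CategoryTheory Limits AlgebraicGeometry MonoidalCategory CartesianMonoidalCategory Finset
open Pool.Agent.Lib.MP_4ca46c_ag.Sign Pool.Agent.Lib.MP_4ca46c_ag.Hyp
open Pool.Agent.Lib.MP_4ca46c_ag.Std

section Core

variable {K : Type} [Field K] [CharZero K] {𝒱 : Type 1} [Category.{0} 𝒱]
  [CartesianMonoidalCategory 𝒱] (W : Geo.WeilCohomology K 𝒱) {X Y : 𝒱}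

/-- a decomposition of `y` -/
def core_Dec (g : Y ⟶ X) (τ : W.H Y) (r i : ℕ) (y : W.H Y) (x : ℕ → W.H X) : Prop :=
  (∀ l, 2 * l ≤ i → x l ∈ W.gr X (i - 2 * l)) ∧ (∀ l, i < 2 * l → x l = 0) ∧
      y = ∑ l ∈ range (r + 1), τ ^ l * W.pull g (x l)

/-- the operators `U_j` -/
noncomputable def core_U (g : Y ⟶ X) (τ : W.H Y) (κ : ℚ) (r j : ℕ) : W.H Y →ₗ[K] W.H X :=
  ((κ⁻¹ : ℚ) : K) • (W.push g ∘ₗ LinearMap.mulLeft K (τ ^ (r - j)))

theorem core_alg_pow {τ : W.H Y} (h : τ ∈ W.Alg Y 1) (l : ℕ) : τ ^ l ∈ W.Alg Y l := by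
  induction l with
  | zero => rw [pow_zero]; exact W.alg_one Y
  | succ l ih => rw [pow_succ]; exact W.alg_mul ih h

theorem core_cast {r s : ℤ} {f : W.H Y →ₗ[K] W.H X} (hf : f ∈ W.Cor X Y r) (h : r = s) :
    f ∈ W.Cor X Y s := h ▸ hf

theorem core_U_cor {g : Y ⟶ X} {τ : W.H Y} {d : W.H X} {b κ : ℚ} {r : ℕ}
    (h : CoreData W X Y g τ d b κ r) {j : ℕ} (hj : j ≤ r) :
    core_U W g τ κ r j ∈ W.Cor X Y (1 - (j : ℤ)) := by
  refine W.cor_rat ?_ _
  refine core_cast W (W.cor_comp (W.cor_push g) (W.cor_mul (core_alg_pow W h.τ_alg (r - j)))) ?_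
  have := h.dim
  omega

theorem core_U_apply {g : Y ⟶ X} {τ : W.H Y} {d : W.H X} {b κ : ℚ} {r : ℕ}
    (h : CoreData W X Y g τ d b κ r) {j : ℕ} (hj : j ≤ r) (x : ℕ → W.H X) :
    core_U W g τ κ r j (∑ l ∈ range (r + 1), τ ^ l * W.pull g (x l)) =
      d * x j + (b : K) • (match j with | 0 => 0 | j' + 1 => x j') := by
  have hκ : (κ : K) ≠ 0 := by
    rw [Ne, Rat.cast_eq_zero]; exact h.κ_ne
  have e1 : W.push g (τ ^ (r - j) * ∑ l ∈ range (r + 1), τ ^ l * W.pull g (x l)) =
      ∑ l ∈ range (r + 1), ((if l = j then (κ : K) • (d * x l) else 0) +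
        (if l + 1 = j then ((b * κ : ℚ) : K) • x l else 0)) := by
    rw [Finset.mul_sum, map_sum]
    refine Finset.sum_congr rfl fun l hl => ?_
    have hl' : l ≤ r := Nat.lt_succ_iff.1 (Finset.mem_range.1 hl)
    rw [← mul_assoc, ← pow_add, h.push]
    by_cases h1 : l = j
    · rw [if_pos (by omega), if_pos h1, if_neg (by omega), add_zero]
    · rw [if_neg (by omega), if_neg h1, zero_add]
      by_cases h2 : l + 1 = j
      · rw [if_pos (by omega), if_pos h2]
      · rw [if_neg (by omega), if_neg h2]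
  have e2 : core_U W g τ κ r j (∑ l ∈ range (r + 1), τ ^ l * W.pull g (x l)) =
      ((κ⁻¹ : ℚ) : K) • W.push g (τ ^ (r - j) * ∑ l ∈ range (r + 1), τ ^ l * W.pull g (x l)) := rfl
  rw [e2, e1, Finset.sum_add_distrib, Finset.sum_ite_eq' (range (r + 1)) j
    (fun l => (κ : K) • (d * x l)), if_pos (Finset.mem_range.2 (by omega)), smul_add, smul_smul,
    Rat.cast_inv, inv_mul_cancel₀ hκ, one_smul]
  congr 1
  cases j with
  | zero =>
    rw [smul_zero, Finset.sum_eq_zero, smul_zero]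
    intro l _
    rw [if_neg (by omega)]
  | succ j' =>
    rw [Finset.sum_eq_single_of_mem j' (Finset.mem_range.2 (by omega))
      (fun l _ hl => if_neg (by omega)), if_pos rfl, smul_smul, Rat.cast_mul]
    congr 1
    field_simp

/-- the telescope -/
theorem core_tel {g : Y ⟶ X} {τ : W.H Y} {d : W.H X} {b κ : ℚ} {r : ℕ}
    (h : CoreData W X Y g τ d b κ r) (x : ℕ → W.H X) :
    ∑ j ∈ range (r + 1), (((-b) ^ (r - j) : ℚ) : K) • (d ^ j *
      core_U W g τ κ r j (∑ l ∈ range (r + 1), τ ^ l * W.pull g (x l))) = d ^ (r + 1) * x r := by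
  obtain ⟨T, hT⟩ : ∃ T : ℕ → W.H X, ∀ j, T j = match j with
      | 0 => 0
      | j' + 1 => (((-b) ^ (r - j') : ℚ) : K) • (d ^ (j' + 1) * x j') := ⟨_, fun _ => rfl⟩
  have e1 : ∀ j ∈ range (r + 1), (((-b) ^ (r - j) : ℚ) : K) • (d ^ j *
      core_U W g τ κ r j (∑ l ∈ range (r + 1), τ ^ l * W.pull g (x l))) = T (j + 1) - T j := by
    intro j hj
    have hj' : j ≤ r := Nat.lt_succ_iff.1 (Finset.mem_range.1 hj)
    rw [core_U_apply W h hj', hT (j + 1), mul_add, ← mul_assoc, ← pow_succ, smul_add, sub_eq_add_neg]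
    congr 1
    rw [hT j]
    cases j with
    | zero => simp
    | succ j' =>
      simp only
      rw [mul_smul_comm, smul_smul, ← neg_smul]
      congr 1
      have e2 : r - j' = (r - (j' + 1)) + 1 := by omega
      rw [e2, pow_succ, ← Rat.cast_mul, ← Rat.cast_neg]
      congr 1
      ring
  rw [Finset.sum_congr rfl e1, Finset.sum_range_sub T (r + 1), hT, hT]
  simp

theorem core_A {g : Y ⟶ X} {τ : W.H Y} {d : W.H X} {b κ : ℚ} {r : ℕ}
    (h : CoreData W X Y g τ d b κ r)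
    (hL : ∀ a, a + r + 2 ≤ W.dim X → LInv W X d (r + 1) a) {i : ℕ} (hi : i < W.dim Y) :
    ∀ k l : ℕ, l + k = r → ∃ A ∈ W.Cor X Y (-(l : ℤ)), ∀ y x, core_Dec W g τ r i y x → A y = x l := by
  have hb : (b : K) ≠ 0 := by
    rw [Ne, Rat.cast_eq_zero]; exact h.b_ne
  intro k
  induction k with
  | zero =>
    intro l hl
    rw [add_zero] at hl
    subst hl
    by_cases h2 : 2 * l ≤ i
    · obtain ⟨s, hs, hs2⟩ := hL (i - 2 * l) (by have := h.dim; omega)
      refine ⟨s ∘ₗ ∑ j ∈ range (l + 1), (((-b) ^ (l - j) : ℚ) : K) •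
        (LinearMap.mulLeft K (d ^ j) ∘ₗ core_U W g τ κ l j), ?_, ?_⟩
      · have h3 : (∑ j ∈ range (l + 1), (((-b) ^ (l - j) : ℚ) : K) •
            (LinearMap.mulLeft K (d ^ j) ∘ₗ core_U W g τ κ l j)) ∈ W.Cor X Y 1 := by
          refine AddSubgroup.sum_mem _ fun j hj => ?_
          have hj' : j ≤ l := Nat.lt_succ_iff.1 (Finset.mem_range.1 hj)
          refine W.cor_rat ?_ _
          refine core_cast W (W.cor_comp (W.cor_mul (core_alg_pow W h.d_alg j))
            (core_U_cor W h hj')) ?_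
          ring
        refine core_cast W (W.cor_comp hs h3) ?_
        push_cast
        ring
      · intro y x hyx
        rw [LinearMap.comp_apply, LinearMap.sum_apply]
        have h4 : ∑ j ∈ range (l + 1), ((((-b) ^ (l - j) : ℚ) : K) •
            (LinearMap.mulLeft K (d ^ j) ∘ₗ core_U W g τ κ l j)) y = d ^ (l + 1) * x l := by
          rw [← core_tel W h x, ← hyx.2.2]
          rfl
        rw [h4, hs2 _ (hyx.1 l h2)]
    · refine ⟨0, AddSubgroup.zero_mem _, ?_⟩
      intro y x hyx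
      rw [hyx.2.1 l (by omega), LinearMap.zero_apply]
  | succ k ih =>
    intro l hl
    obtain ⟨A, hA, hA2⟩ := ih (l + 1) (by omega)
    refine ⟨((b⁻¹ : ℚ) : K) • (core_U W g τ κ r (l + 1) - LinearMap.mulLeft K d ∘ₗ A), ?_, ?_⟩
    · refine W.cor_rat ?_ _
      refine AddSubgroup.sub_mem _ ?_ ?_
      · refine core_cast W (core_U_cor W h (by omega)) ?_
        push_cast
        ring
      · refine core_cast W (W.cor_comp (W.cor_mul h.d_alg) hA) ?_
        push_cast
        ring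
    · intro y x hyx
      have h1 := hA2 y x hyx
      have h2 : core_U W g τ κ r (l + 1) y = d * x (l + 1) + (b : K) • x l := by
        rw [hyx.2.2, core_U_apply W h (by omega)]
      rw [LinearMap.smul_apply, LinearMap.sub_apply, LinearMap.comp_apply, h1, h2,
        LinearMap.mulLeft_apply, add_sub_cancel_left, smul_smul, Rat.cast_inv,
        inv_mul_cancel₀ hb, one_smul]

end Core

theorem tCore : StCore := by
  intro K _ _ 𝒱 _ _ W X Y g τ d b κ r h hpi hL i hi
  have hA := fun l (hl : l ≤ r) => core_A W h hL hi (r - l) l (by omega)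
  have hA' : ∀ l : ℕ, ∃ A ∈ W.Cor X Y (-(l : ℤ)), l ≤ r →
      ∀ y x, core_Dec W g τ r i y x → A y = x l := by
    intro l
    by_cases hl : l ≤ r
    · obtain ⟨A, h1, h2⟩ := hA l hl
      exact ⟨A, h1, fun _ => h2⟩
    · exact ⟨0, AddSubgroup.zero_mem _, fun h => absurd h hl⟩
  choose A hA1 hA2 using hA'
  have key : W.pi Y i = ∑ l ∈ (range (r + 1)).filter (fun l => 2 * l ≤ i),
      LinearMap.mulLeft K (τ ^ l) ∘ₗ (W.pull g).toLinearMap ∘ₗ W.pi X (i - 2 * l) ∘ₗ A l := by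
    refine W.hom_ext fun i' y hy => ?_
    rw [LinearMap.sum_apply]
    by_cases hii : i' = i
    · subst hii
      obtain ⟨x, hx⟩ := h.span i' hi y hy
      have hx' : core_Dec W g τ r i' y x := hx
      rw [W.pi_same hy]
      conv_lhs => rw [hx.2.2]
      rw [Finset.sum_filter]
      refine Finset.sum_congr rfl fun l hl => ?_
      have hl' : l ≤ r := Nat.lt_succ_iff.1 (Finset.mem_range.1 hl)
      by_cases h2 : 2 * l ≤ i'
      · rw [if_pos h2]
        simp only [LinearMap.comp_apply, LinearMap.mulLeft_apply]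
        rw [hA2 l hl' y x hx', W.pi_same (hx.1 l h2)]
        rfl
      · rw [if_neg h2, hx.2.1 l (by omega), map_zero, mul_zero]
    · rw [W.pi_ne hy hii]
      symm
      refine Finset.sum_eq_zero fun l hl => ?_
      obtain ⟨hl1, hl2⟩ := Finset.mem_filter.1 hl
      simp only [LinearMap.comp_apply, LinearMap.mulLeft_apply]
      have h3 : W.pi X (i - 2 * l) (A l y) = 0 := by
        by_cases h4 : 2 * l ≤ i'
        · have h5 : A l y ∈ W.gr X (i' - 2 * l) :=
            W.cor_gr (hA1 l) hy (by omega)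
          exact W.pi_ne h5 (by omega)
        · have h5 : A l y = 0 := W.cor_gr_zero (hA1 l) hy (by omega)
          rw [h5, map_zero]
      rw [h3, map_zero, mul_zero]
  rw [key]
  refine AddSubgroup.sum_mem _ fun l hl => ?_
  have h1 := W.cor_comp (W.cor_mul (core_alg_pow W h.τ_alg l))
    (W.cor_comp (W.cor_pull g) (W.cor_comp (hpi (i - 2 * l)) (hA1 l)))
  refine core_cast W h1 ?_
  ring

end Pool.Agent.Lib.MP_4ca46c_ag.Div
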