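import Pool.Agent.Lib.MP_4ca46c_ag.Div.Spec

/-!
# Duality of the projectors
-/

set_option autoImplicit false

namespace Pool.Agent.Lib.MP_4ca46c_ag.Div

open CategoryTheory Limits AlgebraicGeometry MonoidalCategory CartesianMonoidalCategory Finset
open Pool.Agent.Lib.MP_4ca46c_ag.Sign Pool.Agent.Lib.MP_4ca46c_ag.Hyp
open Pool.Agent.Lib.MP_4ca46c_ag.Std

/-- the transpose of a projector -/
theorem dual_pi {K : Type} [Field K] [CharZero K] {𝒱 : Type 1} [Category.{0} 𝒱]
    [CartesianMonoidalCategory 𝒱] (W : Geo.WeilCohomology K 𝒱) {X : 𝒱} {i i' : ℕ}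
    (hi : i + i' = 2 * W.dim X) {f : W.H X →ₗ[K] W.H X}
    (hf : ∀ x y, W.tr X (f x * y) = W.tr X (x * W.pi X i y)) : f = W.pi X i' := by
  refine W.hom_ext fun k x hx => W.ext_tr fun y => ?_
  rw [hf]
  refine W.ind (P := fun y => W.tr X (x * W.pi X i y) = W.tr X (W.pi X i' x * y)) y
    (by simp) (fun l y hy => ?_) (fun a b ha hb => by
      simp only [map_add, mul_add, ha, hb])
  by_cases hl : l = i
  · subst hl
    rw [W.pi_same hy]
    by_cases hk : k = i'
    · subst hk
      rw [W.pi_same hx]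
    · rw [W.pi_ne hx hk, zero_mul, map_zero]
      exact W.tr_gr (SetLike.mul_mem_graded hx hy) (by omega)
  · rw [W.pi_ne hy hl, mul_zero, map_zero]
    by_cases hk : k = i'
    · subst hk
      rw [W.pi_same hx]
      exact (W.tr_gr (SetLike.mul_mem_graded hx hy) (by omega)).symm
    · rw [W.pi_ne hx hk, zero_mul, map_zero]

theorem tDual (h : StTrp) : StDual := by
  intro K _ _ 𝒱 _ _ W X hX
  -- the projectors with large index
  have hbig : ∀ i, W.dim X < i → W.pi X i ∈ W.Cor X X 0 := by
    intro i hi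
    by_cases h2 : 2 * W.dim X < i
    · have h3 : W.pi X i = 0 := LinearMap.ext fun x => W.pi_top h2 x
      rw [h3]
      exact AddSubgroup.zero_mem _
    · obtain ⟨f, hf, hf'⟩ := h K 𝒱 W X 0 _ (hX (2 * W.dim X - i) (by omega))
      rw [← dual_pi W (by omega) hf']
      exact hf
  intro i
  rcases lt_trichotomy i (W.dim X) with hi | hi | hi
  · exact hX i hi
  · have h1 : W.pi X i = LinearMap.id -
        ∑ j ∈ (range (2 * W.dim X + 1)).erase i, W.pi X j := by
      ext x
      rw [LinearMap.sub_apply, LinearMap.id_apply, LinearMap.sum_apply, eq_sub_iff_add_eq,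
        Finset.add_sum_erase (range (2 * W.dim X + 1)) (fun j => W.pi X j x)
          (mem_range.2 (by omega))]
      exact W.sum_pi x
    rw [h1]
    refine AddSubgroup.sub_mem _ (W.cor_id X) (AddSubgroup.sum_mem _ fun j hj => ?_)
    have h2 : j ≠ i := (mem_erase.1 hj).1
    rcases lt_or_gt_of_ne h2 with h3 | h3
    · exact hX j (by omega)
    · exact hbig j (by omega)
  · exact hbig i hi

end Pool.Agent.Lib.MP_4ca46c_ag.Div
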