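import Mathlib
import Pool.Agent.Lib.MP_4ca46c_ag.Div.Spec

/-!
# The generic hyperplane section is a divisor with affine complement
-/

namespace Pool.Agent.Lib.MP_4ca46c_ag.Div

open CategoryTheory Limits AlgebraicGeometry
open Pool.Agent.Lib.MP_4ca46c_ag.Sign Pool.Agent.Lib.MP_4ca46c_ag.Hyp
open Pool.Agent.Lib.MP_4ca46c_ag.Std

section

variable {k₀ : Type} [Field k₀] {F F' : Type} [Field F] [Algebra k₀ F] [Field F'] [Algebra k₀ F']

theorem gendiv_ptMap_affine (φ : F →ₐ[k₀] F') : IsAffineHom (ptMap k₀ φ).left :=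
  inferInstanceAs (IsAffineHom (Spec.map (CommRingCat.ofHom φ.toRingHom)))

theorem gendiv_spG_affine (R : Type) [CommRing R] [Algebra k₀ R] [Algebra R F]
    [IsScalarTower k₀ R F] : IsAffineHom (spG k₀ R F).left :=
  inferInstanceAs (IsAffineHom (Spec.map (CommRingCat.ofHom (algebraMap R F))))

/-- The base change of a complement along an affine morphism. -/
theorem gendiv_compl {A P Y V' : Sch k₀} {i : P ⟶ A} {γ : V' ⟶ A} {ρ : Y ⟶ V'} {q : Y ⟶ P}
    (h : IsPullback q ρ i γ) (hγ : IsAffineHom γ.left) {U₀ : Sch k₀} {j₀ : U₀ ⟶ A}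
    (hc : IsComplement i j₀) (hU : IsAffine U₀.left) :
    ∃ (U : Sch k₀) (j : U ⟶ V'), IsComplement ρ j ∧ IsAffine U.left := by
  have hD : IsPullback q.left ρ.left i.left γ.left := h.map (Over.forget _)
  have hQ : IsPullback (pullback.fst γ j₀).left (pullback.snd γ j₀).left γ.left j₀.left :=
    (IsPullback.of_hasPullback γ j₀).map (Over.forget _)
  refine ⟨pullback γ j₀, pullback.fst γ j₀, ⟨?_, ?_, ?_⟩, ?_⟩
  · exact MorphismProperty.of_isPullback (P := @IsClosedImmersion) hD hc.closed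
  · exact MorphismProperty.of_isPullback (P := @IsOpenImmersion) hQ.flip hc.isOpen
  · rw [compl_range hD.flip, compl_range hQ, hc.compl, Set.preimage_compl]
  · have h1 : IsAffineHom (pullback.snd γ j₀).left :=
      MorphismProperty.of_isPullback (P := @IsAffineHom) hQ hγ
    exact isAffine_of_isAffineHom (pullback.snd γ j₀).left

end

theorem tGenDiv (k₀ K : Type) [Field k₀] [Field K] (hA : StAffC k₀) : StGenDiv k₀ K := by
  intro T E k _ _ _ V m hm hn
  have hX : IsVar V.str (m + 1) := by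
    rw [← hn]
    exact V.isVar
  have hY : IsVar V.y m := V.isVar_y E m hm hn
  have hc := V.closed
  have hU := fUnivX k₀ K T E k V.κ V.i V.X V.str (m + 1) V.emb V.emb_str hX V.closed
  obtain ⟨N, hN⟩ : ∃ N, Fintype.card V.κ = N + 1 := by
    have : 0 < Fintype.card V.κ := Fintype.card_pos
    exact ⟨Fintype.card V.κ - 1, by omega⟩
  obtain ⟨-, sA, -, sF⟩ := tAffSm k₀ k V.X V.str V.κ (m + 1) N hX.isSm hX.smooth hN
  have sI := (sF V.C).1
  have sX : Sm V.X := hX.sm
  have hy₀ : IsSm V.y₀ := V.isSm₀ m hn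
  obtain ⟨gA, gA1, gA2⟩ := genclass_gA V.str V.F (κ := V.κ)
  obtain ⟨i₀, i1, i2⟩ := genclass_i₀ V.C V.fibre gA2
  have vXF : IsVar (pullback.snd V.str (ptMap k₀ (IsScalarTower.toAlgHom k₀ k V.F))) (m + 1) :=
    genclass_var (IsPullback.of_hasPullback _ _) hX
  have fA : Flat gA.left := MorphismProperty.of_isPullback (P := @Flat)
    (gA2.map (Over.forget _)).flip (spG_flat (k₀ := k₀) V.R V.F)
  have cI : IsClosedImmersion (Fam.inc V.C).left := inferInstanceAs (IsClosedImmersion V.C.inc)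
  have e1 : T.push i₀ 1 = T.pull (pullback.fst V.str _) (V.h T) := by
    have h3 := T.push_baseChange (Fam.inc V.C) i₀ V.toI gA i2 ⟨_, _, _, _, sI⟩ ⟨_, _, _, _, sA⟩
      ⟨_, _, _, _, hy₀⟩ vXF.sm inferInstance fA 1
    rw [map_one (T.pull V.toI)] at h3
    rw [← h3, hU, ← T.pull_comp gA (Aff.pr V.κ V.X) vXF.sm ⟨_, _, _, _, sA⟩ sX, gA1]
    rfl
  have c₀ : IsClosedImmersion i₀.left :=
    MorphismProperty.of_isPullback (P := @IsClosedImmersion) (i2.map (Over.forget _)) cI
  have hQ := IsPullback.of_hasPullback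
    (pullback.snd V.str (ptMap k₀ (IsScalarTower.toAlgHom k₀ k V.F)))
    (ptMap k₀ (IsScalarTower.toAlgHom k₀ V.F V.L))
  have vXL := genclass_var hQ vXF
  obtain ⟨j, j1, j2⟩ : ∃ j : V.Y ⟶ pullback
      (pullback.snd V.str (ptMap k₀ (IsScalarTower.toAlgHom k₀ k V.F)))
      (ptMap k₀ (IsScalarTower.toAlgHom k₀ V.F V.L)), j ≫ pullback.snd _ _ = V.y ∧
      IsPullback V.p j i₀ (pullback.fst _ _) := by
    have hw : (V.p ≫ i₀) ≫ pullback.snd V.str (ptMap k₀ (IsScalarTower.toAlgHom k₀ k V.F)) =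
        V.y ≫ ptMap k₀ (IsScalarTower.toAlgHom k₀ V.F V.L) := by
      rw [Category.assoc, i1, V.isBC.w]
    refine ⟨hQ.lift _ _ hw, hQ.lift_snd _ _ _, ?_⟩
    refine IsPullback.of_bot ?_ (hQ.lift_fst _ _ _).symm hQ
    rw [hQ.lift_snd, i1]
    exact V.isBC
  have hbig := hQ.paste_horiz (IsPullback.of_hasPullback V.str
    (ptMap k₀ (IsScalarTower.toAlgHom k₀ k V.F)))
  rw [ProjVar.pt_comp] at hbig
  have e3 : T.pull (pullback.fst (pullback.snd V.str (ptMap k₀ (IsScalarTower.toAlgHom k₀ k V.F)))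
      (ptMap k₀ (IsScalarTower.toAlgHom k₀ V.F V.L)) ≫ pullback.fst V.str _) (V.h T) =
      T.pull (pullback.fst _ _) (T.push i₀ 1) := by
    rw [T.pull_comp _ _ vXL.sm vXF.sm sX, e1]
  have hfl : Flat (pullback.fst (pullback.snd V.str
      (ptMap k₀ (IsScalarTower.toAlgHom k₀ k V.F)))
      (ptMap k₀ (IsScalarTower.toAlgHom k₀ V.F V.L))).left :=
    MorphismProperty.of_isPullback (P := @Flat) (hQ.map (Over.forget _)).flip
      genclass_flat_field
  have e2 := T.push_baseChange i₀ j V.p _ j2 ⟨_, _, _, _, hy₀⟩ vXF.sm hY.sm vXL.sm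
    inferInstance hfl 1
  rw [map_one (T.pull V.p), ← e3] at e2
  -- the complement
  obtain ⟨U₀, j₀, hj₀, hU₀⟩ := hA k V.κ
  have a1 : IsAffineHom (pullback.fst (pullback.snd V.str
      (ptMap k₀ (IsScalarTower.toAlgHom k₀ k V.F)))
      (ptMap k₀ (IsScalarTower.toAlgHom k₀ V.F V.L))).left :=
    MorphismProperty.of_isPullback (P := @IsAffineHom) (hQ.map (Over.forget _)).flip
      (gendiv_ptMap_affine _)
  have a2 : IsAffineHom gA.left :=
    MorphismProperty.of_isPullback (P := @IsAffineHom) (gA2.map (Over.forget _)).flip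
      (gendiv_spG_affine (k₀ := k₀) (F := V.F) V.R)
  have a0 : IsAffineHom V.emb.left := inferInstance
  have a3 : IsAffineHom (Aff.map V.κ V.emb).left :=
    MorphismProperty.of_isPullback (P := @IsAffineHom)
      ((Aff.isPullback_map V.κ V.emb).map (Over.forget _)).flip a0
  have hbig2 := (j2.paste_horiz i2).paste_horiz
    (Fam.isPullback_map V.str V.emb V.emb_str V.monoEmb)
  obtain ⟨U, u, hu, hUa⟩ := gendiv_compl hbig2 (by
    rw [Over.comp_left, Over.comp_left]
    infer_instance) hj₀ hU₀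
  exact ⟨_, U, _, _, j, u, hbig, j1, hu, hUa, e2.symm⟩

end Pool.Agent.Lib.MP_4ca46c_ag.Div
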