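import Mathlib
import Pool.Agent.Lib.MP_4ca46c_ag.Div.Spec
import Pool.Agent.Lib.MP_4ca46c_ag.Std.LocalT

/-!
# The relation `H w H = ([i = a] - κ) H` (for the projector onto `H^a`)

Port of `Std/Average.lean` and `Std/Key.lean`.
-/

namespace Pool.Agent.Lib.MP_4ca46c_ag.Div

open CategoryTheory Limits AlgebraicGeometry TensorProduct
open Pool.Agent.Lib.MP_4ca46c_ag.Sign Pool.Agent.Lib.MP_4ca46c_ag.Hyp
open Pool.Agent.Lib.MP_4ca46c_ag.Std

theorem keya_average (k₀ K : Type) [Field k₀] [Field K] (h1 : Std.StSm k₀ K)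
    (T : WeilTheory k₀ K) (V W : PVar T) (G : GenSec V W) (d : ℕ) (hS : ProjOp k₀ K W d) :
    ∃ N₀ : ℕ, 0 < N₀ ∧ ∃ b ∈ T.codim (pullback G.y₀ G.y₀) W.n,
      ∀ i, ∀ y ∈ T.deg W.X i, ∀ y', T.tr W.sq (T.cl W.sq (T.pull G.e2 b) * T.pullH W.p₂ y *
        T.pullH W.p₁ y') = if i = d then (N₀ : K) * T.tr W.X (y * y') else 0 := by
  obtain ⟨a, ha, hS⟩ := hS
  obtain ⟨-, -, -, -, -, -, -, -, -, hW2, -, hY2, -⟩ := h1 T V W G
  have hw : IsWeil W.X := ⟨W.k, _, _, W.closed, W.str, W.n, W.isVar⟩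
  have hw2 : IsWeil W.sq := ⟨W.k, _, _, W.closed, W.sqStr, W.n + W.n, hW2⟩
  obtain ⟨N₀, σ, s, hN₀, hs, b, hb, hbs⟩ := T.norm (pullback.fst G.y₀ G.y₀ ≫ G.y₀) W.sqStr G.e2
    hY2 (Std.average_e2 G) W.n a ha
  refine ⟨N₀, hN₀, b, hb, ?_⟩
  intro i y hy y'
  have key : ∀ j : Fin N₀, T.tr W.sq (T.cl W.sq (T.pull (s j) a) * T.pullH W.p₂ y *
      T.pullH W.p₁ y') = if i = d then T.tr W.X (y * y') else 0 := by
    intro j
    have hbij : Function.Bijective (σ j) := by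
      have : Algebra.IsAlgebraic G.F W.k := IsAlgClosure.isAlgebraic
      exact Algebra.IsAlgebraic.algHom_bijective (σ j)
    let e : W.k ≃ₐ[G.F] W.k := AlgEquiv.ofBijective (σ j) hbij
    let τ : W.k →ₐ[G.F] W.k := e.symm.toAlgHom
    have hc1 : (σ j).comp τ = AlgHom.id G.F W.k := by
      ext x
      exact e.apply_symm_apply x
    have hc2 : τ.comp (σ j) = AlgHom.id G.F W.k := by
      ext x
      exact e.symm_apply_apply x
    have ht1 : Std.average_t G (σ j) ≫ Std.average_t G τ = 𝟙 _ := Std.average_t_comp G _ _ hc1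
    have ht2 : Std.average_t G τ ≫ Std.average_t G (σ j) = 𝟙 _ := Std.average_t_comp G _ _ hc2
    have hs1 := Std.average_s₁ (hs j).1 (hs j).2
    have hs2 := Std.average_s₂ (hs j).1 (hs j).2
    have hiso : IsIso (s j) := Std.average_iso ht1 ht2 (Std.average_t_str G τ) hs1 hs2
    have hisot : IsIso (Std.average_t G (σ j)) := ⟨_, ht1, ht2⟩
    have hpb : ∀ z, T.pullH (Std.average_t G (σ j)) (T.pullH (Std.average_t G τ) z) = z := by
      intro z
      rw [← T.pullH_comp _ _ hw hw hw, ht1, T.pullH_id hw]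
    have e1 : T.pullH W.p₁ y' = T.pullH (s j) (T.pullH W.p₁ (T.pullH (Std.average_t G τ) y')) := by
      rw [← T.pullH_comp _ _ hw2 hw2 hw, hs1, T.pullH_comp _ _ hw2 hw hw, hpb]
    have e2 : T.pullH W.p₂ y = T.pullH (s j) (T.pullH W.p₂ (T.pullH (Std.average_t G τ) y)) := by
      rw [← T.pullH_comp _ _ hw2 hw2 hw, hs2, T.pullH_comp _ _ hw2 hw hw, hpb]
    rw [e1, e2, T.cl_pull _ hw2 hw2, ← map_mul, ← map_mul, T.tr_iso _ hiso hw2 hw2,
      hS i _ (T.pullH_mem _ hw hw i y hy), ← T.tr_iso _ hisot hw hw, map_mul, hpb, hpb]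
  rw [hbs, map_sum, Finset.sum_mul, Finset.sum_mul, map_sum, Finset.sum_congr rfl fun j _ => key j,
    Finset.sum_const, Finset.card_univ, Fintype.card_fin]
  by_cases h : i = d
  · rw [if_pos h, if_pos h, nsmul_eq_mul]
  · rw [if_neg h, if_neg h, smul_zero]

theorem tKeyA (k₀ K : Type) [Field k₀] [Field K] : StKeyA k₀ K := by
  intro T V W G d hsign
  have h1 : Std.StSm k₀ K := Std.tSm k₀ K
  have h2 : Std.StStep0 k₀ K := Std.tStep0 k₀ K h1
  by_cases hchar : CharZero K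
  swap
  · refine ⟨0, 0, Submodule.zero_mem _, fun i z hz z' => ?_⟩
    rw [key_noChar T hchar _ (T.cl V.X V.h * z * z'), map_zero, zero_mul, zero_mul, map_zero,
      map_zero, mul_zero]
  obtain ⟨sZ, sZZ, -, -, sYY₀, -, sY₀, sYY, vZ, vYY, vZZ, vYY₀, -, -, -, -⟩ := h1 T V W G
  obtain ⟨N₀, hN₀, b, hb, hav⟩ := keya_average k₀ K h1 T V W G d hsign
  obtain ⟨κ, w₀, hw₀, hbw⟩ := h2 T V W G b hb
  have wY : IsWeil W.X := key_isWeil W
  have wYY : IsWeil W.sq := ⟨W.k, _, _, W.closed, _, _, vYY⟩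
  have wZ : IsWeil V.X := key_isWeil V
  have wZZ : IsWeil (pullback V.str V.str) := ⟨V.k, _, _, V.closed, _, _, vZZ⟩
  have sY : Sm W.X := ⟨W.k, _, _, W.str, by
    have h1 := W.isVar.smooth
    have h2 := W.isVar.proper
    exact ⟨h1.smooth, inferInstance, inferInstance⟩⟩
  set r : W.X ⟶ V.X := G.toY₀ ≫ G.toI ≫ G.toZ with hr
  set R : W.sq ⟶ pullback V.str V.str := G.e2 ≫ G.rho with hR
  set P₁ := pullback.fst V.str V.str with hP₁
  set P₂ := pullback.snd V.str V.str with hP₂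
  have hpW : IsPullback W.p₁ W.p₂ W.str W.str := IsPullback.of_hasPullback W.str W.str
  have hpZ : IsPullback P₁ P₂ V.str V.str := IsPullback.of_hasPullback V.str V.str
  -- pull-back along `R`
  have hR1 : ∀ a, T.pullH R (T.pullH P₁ a) = T.pullH W.p₁ (T.pullH r a) := by
    intro a
    rw [← T.pullH_comp R P₁ wYY wZZ wZ, ← T.pullH_comp W.p₁ r wYY wY wZ, hR, hP₁, key_RFst]
  have hR2 : ∀ a, T.pullH R (T.pullH P₂ a) = T.pullH W.p₂ (T.pullH r a) := by
    intro a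
    rw [← T.pullH_comp R P₂ wYY wZZ wZ, ← T.pullH_comp W.p₂ r wYY wY wZ, hR, hP₂, key_RSnd]
  -- the class of `b`
  have hcl : T.cl W.sq (T.pull G.e2 b) =
      (κ : K) • T.cl W.sq (T.push (pullback.diagonal W.str) 1) + T.pullH R (T.cl _ w₀) := by
    rw [hbw, map_add, map_add, map_smul, key_cl_smul,
      T.push_baseChange (pullback.diagonal G.y₀) (pullback.diagonal W.str) G.toY₀ G.e2
        (key_squareDiag G) sY₀ sYY₀ sY sYY (key_proper_diag G.y₀ G.proper vYY₀) (key_flatE2 G),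
      map_one, ← T.pull_comp G.e2 G.rho sYY sYY₀ sZZ, ← T.cl_pull R wYY wZZ]
  have hdiag : ∀ y y', T.tr W.sq (T.cl W.sq (T.push (pullback.diagonal W.str) 1) *
      T.pullH W.p₂ y * T.pullH W.p₁ y') = T.tr W.X (y * y') := by
    intro y y'
    rw [mul_assoc, T.cl_push W.str W.sqStr (pullback.diagonal W.str)
      (by rw [PVar.sqStr, ← Category.assoc, PVar.p₁, pullback.diagonal_fst, Category.id_comp])
      _ _ W.isVar vYY, map_one, one_mul, map_mul, ← T.pullH_comp _ _ wY wYY wY,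
      ← T.pullH_comp _ _ wY wYY wY, PVar.p₁, PVar.p₂, pullback.diagonal_fst,
      pullback.diagonal_snd, T.pullH_id wY, T.pullH_id wY]
  -- the Lefschetz class
  set H := T.cl V.X V.h with hH
  have hHdeg : H ∈ T.deg V.X (2 * 1) := T.cl_mem _ wZ 1 _ V.h_mem
  have hH1 : ∀ v, T.pullH P₁ H * v = v * T.pullH P₁ H :=
    key_central T wZZ (T.pullH_mem P₁ wZZ wZ _ _ hHdeg)
  have hH2 : ∀ v, T.pullH P₂ H * v = v * T.pullH P₂ H :=
    key_central T wZZ (T.pullH_mem P₂ wZZ wZ _ _ hHdeg)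
  have hcls : ∀ z, T.tr W.X (T.pullH r z) = T.tr V.X (H * z) := G.cls
  clear_value H
  have htrR : ∀ u, T.tr W.sq (T.pullH R u) =
      T.tr _ (T.pullH P₁ H * (T.pullH P₂ H * u)) := by
    intro u
    refine key_ind T V.str V.str P₁ P₂ _ _ vZ vZ hpZ
      (C := fun u => T.tr W.sq (T.pullH R u) =
        T.tr _ (T.pullH P₁ H * (T.pullH P₂ H * u))) ?_ ?_ ?_ u
    · rw [map_zero, map_zero, mul_zero, mul_zero, map_zero]
    · intro u v hu hv
      rw [map_add, map_add, hu, hv, mul_add, mul_add, map_add]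
    · intro i j a _ c _
      have e1 : T.pullH P₁ H * (T.pullH P₂ H * (T.pullH P₁ a * T.pullH P₂ c)) =
          T.pullH P₁ (H * a) * T.pullH P₂ (H * c) := by
        rw [map_mul (T.pullH P₁), map_mul (T.pullH P₂)]
        have := key_alg hH1 hH2 1 (T.pullH P₁ a) (T.pullH P₂ c)
        rwa [one_mul, one_mul] at this
      rw [map_mul (T.pullH R), hR1, hR2, T.tr_kunneth W.str W.str W.p₁ W.p₂ _ _ W.isVar W.isVar
        hpW, hcls, hcls, e1, T.tr_kunneth V.str V.str P₁ P₂ _ _ vZ vZ hpZ]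
  have hN : (N₀ : K) ≠ 0 := by
    exact_mod_cast hN₀.ne'
  refine ⟨κ / N₀, ((1 : ℚ) / N₀) • w₀, Submodule.smul_mem _ _ hw₀, fun i z hz z' => ?_⟩
  have h4 := hav i (T.pullH r z) (T.pullH_mem r wY wZ _ _ hz) (T.pullH r z')
  have h5 : T.tr W.sq (T.pullH R (T.cl _ w₀) * T.pullH W.p₂ (T.pullH r z) *
      T.pullH W.p₁ (T.pullH r z')) = T.tr _ (T.cl (pullback V.str V.str) w₀ *
        T.pullH P₂ (H * z) * T.pullH P₁ (H * z')) := by
    rw [← hR1, ← hR2, ← map_mul, ← map_mul, htrR]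
    congr 1
    rw [map_mul (T.pullH P₁), map_mul (T.pullH P₂), ← mul_assoc, hH1, mul_assoc]
    exact key_alg hH2 hH1 _ _ _
  rw [hcl, add_mul, add_mul, map_add, smul_mul_assoc, smul_mul_assoc, map_smul, hdiag, h5,
    ← map_mul (T.pullH r) z z', hcls, smul_eq_mul] at h4
  rw [key_cl_smul, smul_mul_assoc, smul_mul_assoc, map_smul, smul_eq_mul, mul_assoc H]
  have h6 : ((((1 : ℚ) / N₀ : ℚ)) : K) = 1 / N₀ := by push_cast; ring
  have h7 : (((κ / N₀ : ℚ)) : K) = (κ : K) / N₀ := by push_cast; ring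
  rw [h6, h7]
  have h8 : T.tr (pullback V.str V.str) (T.cl (pullback V.str V.str) w₀ *
      T.pullH P₂ (H * z) * T.pullH P₁ (H * z')) =
      (if i = d then (N₀ : K) * T.tr V.X (H * (z * z')) else 0) -
        (κ : K) * T.tr V.X (H * (z * z')) := by
    rw [← h4]
    ring
  rw [h8]
  split_ifs with hi
  · field_simp
  · field_simp
    ring

end Pool.Agent.Lib.MP_4ca46c_ag.Div
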