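import Pool.Agent.Lib.MP_4ca46c_ag.Div.Spec

/-!
# The left inverse in degree `0`
-/

set_option autoImplicit false

namespace Pool.Agent.Lib.MP_4ca46c_ag.Div

open CategoryTheory Limits AlgebraicGeometry MonoidalCategory CartesianMonoidalCategory Finset
open Pool.Agent.Lib.MP_4ca46c_ag.Sign Pool.Agent.Lib.MP_4ca46c_ag.Hyp
open Pool.Agent.Lib.MP_4ca46c_ag.Std

theorem li0_pow {K : Type} [Field K] [CharZero K] {𝒱 : Type 1} [Category.{0} 𝒱]
    [CartesianMonoidalCategory 𝒱] (W : Geo.WeilCohomology K 𝒱) {X : 𝒱} {d : W.H X}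
    (hd : d ∈ W.Alg X 1) (j : ℕ) : d ^ j ∈ W.Alg X j := by
  induction j with
  | zero =>
    rw [pow_zero]
    exact W.alg_one X
  | succ j ih =>
    rw [pow_succ]
    exact W.alg_mul ih hd

theorem tLI0 : StLI0 := by
  intro K _ _ 𝒱 _ _ W X d c j hd hc htr hj
  have hcK : (c : K) ≠ 0 := Rat.cast_ne_zero.2 hc
  refine ⟨W.op (W.tm (((c⁻¹ : ℚ) : K) • (1 : W.H X)) (d ^ (W.dim X - j))), ?_, fun x hx => ?_⟩
  · refine W.mem_cor.2 (Or.inr ⟨0 + (W.dim X - j), _, ?_, W.tm_alg (W.alg_rat _ (W.alg_one X))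
      (li0_pow W hd _), rfl⟩)
    omega
  · obtain ⟨a, rfl⟩ := W.connected hx
    rw [W.op_tm, ← mul_assoc, ← pow_add, Nat.sub_add_cancel hj, ← Algebra.commutes,
      ← Algebra.smul_def, map_smul, htr, Rat.cast_inv, smul_smul, smul_eq_mul, mul_assoc,
      mul_inv_cancel₀ hcK, mul_one, Algebra.algebraMap_eq_smul_one]

end Pool.Agent.Lib.MP_4ca46c_ag.Div
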