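import Mathlib
import Pool.Agent.Lib.MP_4ca46c_ag.Div.Spec

/-!
# Specification: smooth divisors in `X × ℙ^r`, the sign conjecture
-/

namespace Pool.Agent.Lib.MP_4ca46c_ag.Div

open CategoryTheory Limits AlgebraicGeometry MonoidalCategory CartesianMonoidalCategory Finset
open Pool.Agent.Lib.MP_4ca46c_ag.Sign Pool.Agent.Lib.MP_4ca46c_ag.Hyp
open Pool.Agent.Lib.MP_4ca46c_ag.Std

section Abstract

variable {K : Type} [Field K] [CharZero K] {𝒱 : Type 1} [Category.{0} 𝒱]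
  [CartesianMonoidalCategory 𝒱] (W : Geo.WeilCohomology K 𝒱)

/-- The maps `x ↦ d^(r+1) x` on `H^a(X)`, `a ≤ n - r - 2`, have a common algebraic left
inverse. -/
def UInv (X : 𝒱) (d : W.H X) (r : ℕ) : Prop :=
  ∃ s ∈ W.Cor X X (-((r + 1 : ℕ) : ℤ)), ∀ a, a + r + 2 ≤ W.dim X → ∀ x ∈ W.gr X a,
    s (d ^ (r + 1) * x) = x

end Abstract

/-- **The triangular system, uniformly.**

PROOF. As in `StCore`: let `U_j(y) = κ⁻¹ g_* (τ^(r-j) y)`, `0 ≤ j ≤ r`, of degree `1 - j`, and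
`A_r(y) = s (∑_(j ≤ r) (-b)^(r-j) d^j U_j(y))`, `A_(j-1)(y) = b⁻¹ (U_j(y) - d A_j(y))`.
If `y = ∑_l τ^l g^* x_l ∈ H^i(Y)`, `i < m`, as in `CoreData.span`, then `U_j(y) = d x_j + b x_(j-1)`
(`x_(-1) = 0`), so the argument of `s` is `d^(r+1) x_r`, and `A_r(y) = x_r`: if `i < 2r` then
`x_r = 0` and if `i = a + 2r` then `a + r + 2 ≤ n` since `i < n + r - 1`. -/
def StUni : Prop := ∀ (K : Type) [Field K] [CharZero K] (𝒱 : Type 1) [Category.{0} 𝒱]
  [CartesianMonoidalCategory 𝒱] (W : Geo.WeilCohomology K 𝒱) (X Y : 𝒱) (g : Y ⟶ X)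
  (τ : W.H Y) (d : W.H X) (b κ : ℚ) (r : ℕ), CoreData W X Y g τ d b κ r → UInv W X d r →
  ∃ A : ℕ → (W.H Y →ₗ[K] W.H X), (∀ l : ℕ, A l ∈ W.Cor X Y (-(l : ℤ))) ∧
    ∀ i < W.dim Y, ∀ y ∈ W.gr Y i, y = ∑ l ∈ range (r + 1), τ ^ l * W.pull g (A l y)

/-- **The sign conjecture for `Y`.** (May use `StUni` and `StTrp`.)

PROOF (helper69). Let `m = dim Y`, let `e` be the projector of `H(X)` onto the sum of the
`H^j(X)` with `j` of the parity of `m - 1` (`even X` or `1 - even X`), an algebraic operator of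
degree `0`, and `B(y) = ∑_l τ^l g^* (e (A_l y))`, an algebraic operator of degree `0` on `H(Y)`.
For `y ∈ H^i(Y)`: if `i` has the parity of `m` then `A_l y ∈ H^(i - 2l)(X)` is killed by `e`, so
`B y = 0`. If `i < m` has the parity of `m - 1` then `B y = y`. Let `B'` be the transpose of `B`
(`StTrp`): `tr (B' y * y') = tr (y * B y')`. For `y ∈ H^i(Y)`: if `i` has the parity of `m` then
`B' y = 0`; if `i > m` has the parity of `m - 1` then `B' y = y` (both from the above, for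
`y' ∈ H^(2m - i)(Y)`). So `(1 - B) (1 - B')` is `1` on `H^i(Y)` if `i` has the parity of `m`, and
`0` on `H^i(Y)` if `i` has the parity of `m - 1` (`i ≠ m`; `B'` has degree `0`). This operator or
`1` minus it is `even Y`. -/
def StSgn : Prop := ∀ (K : Type) [Field K] [CharZero K] (𝒱 : Type 1) [Category.{0} 𝒱]
  [CartesianMonoidalCategory 𝒱] (W : Geo.WeilCohomology K 𝒱) (X Y : 𝒱) (g : Y ⟶ X)
  (τ : W.H Y) (d : W.H X) (b κ : ℚ) (r : ℕ), CoreData W X Y g τ d b κ r → UInv W X d r →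
  W.even X ∈ W.Cor X X 0 → W.even Y ∈ W.Cor Y Y 0

end Pool.Agent.Lib.MP_4ca46c_ag.Div
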