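import Pool.Agent.Lib.MP_4ca46c_ag.Div.Spec

set_option autoImplicit false

/-!
# The argument of Katz and Messing
-/

namespace Pool.Agent.Lib.MP_4ca46c_ag.Div

open CategoryTheory Limits AlgebraicGeometry MonoidalCategory CartesianMonoidalCategory Finset
open Pool.Agent.Lib.MP_4ca46c_ag.Sign Pool.Agent.Lib.MP_4ca46c_ag.Hyp
open Pool.Agent.Lib.MP_4ca46c_ag.Std

section Weil

variable {K : Type} [Field K] [CharZero K] {𝒱 : Type 1} [Category.{0} 𝒱]
  [CartesianMonoidalCategory 𝒱] (W : Geo.WeilCohomology K 𝒱) {X : 𝒱}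

/-- polynomials in an algebraic correspondence are algebraic -/
theorem weil_cor {f : Module.End K (W.H X)} (hf : f ∈ W.Cor X X 0) (R : Polynomial ℚ) :
    Polynomial.aeval f (R.map (Rat.castHom K)) ∈ W.Cor X X 0 := by
  induction R using Polynomial.induction_on with
  | C a =>
    rw [Polynomial.map_C, Polynomial.aeval_C]
    exact W.cor_rat (W.cor_id X) a
  | add p q hp hq =>
    rw [Polynomial.map_add, map_add]
    exact AddSubgroup.add_mem _ hp hq
  | monomial n a h =>
    rw [pow_succ, ← mul_assoc, Polynomial.map_mul, map_mul, Polynomial.map_X, Polynomial.aeval_X]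
    exact W.cor_comp h hf

/-- integral polynomials -/
theorem weil_int (f : Module.End K (W.H X)) (P : Polynomial ℤ) :
    Polynomial.aeval f ((P.map (Int.castRingHom ℚ)).map (Rat.castHom K)) = Polynomial.aeval f P := by
  have h : ((Polynomial.aeval f : Polynomial K →ₐ[K] Module.End K (W.H X)).toRingHom.comp
      ((Polynomial.mapRingHom (Rat.castHom K)).comp (Polynomial.mapRingHom (Int.castRingHom ℚ)))) =
      (Polynomial.aeval f : Polynomial ℤ →ₐ[ℤ] Module.End K (W.H X)).toRingHom := by
    refine Polynomial.ringHom_ext' (Subsingleton.elim _ _) ?_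
    simp
  exact RingHom.congr_fun h P

theorem weil_coprime {q i j : ℕ} (hq : 1 < q) (hij : i ≠ j) {P Q : Polynomial ℤ}
    (hP : ∀ z : ℂ, Polynomial.aeval z P = 0 → ‖z‖ ^ 2 = (q : ℝ) ^ i)
    (hQ : ∀ z : ℂ, Polynomial.aeval z Q = 0 → ‖z‖ ^ 2 = (q : ℝ) ^ j) :
    IsCoprime (P.map (Int.castRingHom ℚ)) (Q.map (Int.castRingHom ℚ)) := by
  rw [Polynomial.isCoprime_iff_aeval_ne_zero_of_isAlgClosed ℚ ℂ]
  intro z
  by_contra hc
  rw [not_or, not_not, not_not] at hc
  have e : ∀ R : Polynomial ℤ, Polynomial.aeval z (R.map (Int.castRingHom ℚ)) =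
      Polynomial.aeval z R := fun R => Polynomial.aeval_map_algebraMap ℚ z R
  rw [e, e] at hc
  have h1 := hP z hc.1
  have h2 := hQ z hc.2
  rw [h1] at h2
  exact hij (pow_right_injective₀ (by positivity) (by
    intro h
    have : q = 1 := by exact_mod_cast h
    omega) h2)

end Weil

theorem tWeil : StWeil := by
  intro K _ _ 𝒱 _ _ W X F q hq hP i
  choose P hP1 hP2 hP3 using hP
  by_cases hi : 2 * W.dim X < i
  · have h0 : W.pi X i = 0 := by
      ext x
      exact W.pi_top hi x
    rw [h0]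
    exact AddSubgroup.zero_mem _
  obtain ⟨f, hf⟩ : ∃ f : Module.End K (W.H X), f = (W.pull F).toLinearMap := ⟨_, rfl⟩
  have hfc : f ∈ W.Cor X X 0 := by rw [hf]; exact W.cor_pull F
  have hcop : IsCoprime ((P i).map (Int.castRingHom ℚ))
      (∏ j ∈ (range (2 * W.dim X + 1)).erase i, (P j).map (Int.castRingHom ℚ)) := by
    refine IsCoprime.prod_right fun j hj => ?_
    exact weil_coprime hq (Finset.ne_of_mem_erase hj).symm (hP2 i) (hP2 j)
  obtain ⟨A, B, hAB⟩ := hcop
  have hz : ∀ j, ∀ x ∈ W.gr X j, ∀ S : Polynomial ℚ,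
      Polynomial.aeval f ((S * (P j).map (Int.castRingHom ℚ)).map (Rat.castHom K)) x = 0 := by
    intro j x hx S
    rw [Polynomial.map_mul, map_mul, weil_int W f, Module.End.mul_apply]
    have := hP3 j x hx
    rw [← hf] at this
    rw [this, map_zero]
  have key : W.pi X i = Polynomial.aeval f ((B * ∏ j ∈ (range (2 * W.dim X + 1)).erase i,
      (P j).map (Int.castRingHom ℚ)).map (Rat.castHom K)) := by
    refine W.hom_ext fun j x hx => ?_
    by_cases hj : 2 * W.dim X < j
    · rw [W.gr_top hx hj, map_zero, map_zero]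
    by_cases hij : j = i
    · subst hij
      rw [W.pi_same hx]
      have e1 : B * ∏ l ∈ (range (2 * W.dim X + 1)).erase j, (P l).map (Int.castRingHom ℚ) =
          1 - A * (P j).map (Int.castRingHom ℚ) := by
        rw [← hAB]; ring
      rw [e1, Polynomial.map_sub, map_sub, Polynomial.map_one, map_one, LinearMap.sub_apply,
        hz j x hx A, sub_zero]
      rfl
    · rw [W.pi_ne hx hij]
      have hm : j ∈ (range (2 * W.dim X + 1)).erase i :=
        Finset.mem_erase.2 ⟨hij, Finset.mem_range.2 (by omega)⟩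
      rw [← Finset.prod_erase_mul _ _ hm, ← mul_assoc]
      exact (hz j x hx _).symm
  rw [key]
  exact weil_cor W hfc _

end Pool.Agent.Lib.MP_4ca46c_ag.Div
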