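import Mathlib
import Pool.Agent.Lib.MP_4ca46c_ag.Div.Abs

/-!
# The cohomology of a divisor in `X × P`
-/

namespace Pool.Agent.Lib.MP_4ca46c_ag.Div

open CategoryTheory Limits AlgebraicGeometry MonoidalCategory CartesianMonoidalCategory Finset
open Pool.Agent.Lib.MP_4ca46c_ag.Sign Pool.Agent.Lib.MP_4ca46c_ag.Hyp
open Pool.Agent.Lib.MP_4ca46c_ag.Std
open Geo Geo.WeilCohomology

attribute [local instance] Geo.WeilCohomology.ring Geo.WeilCohomology.algebra
  Geo.WeilCohomology.finite Geo.WeilCohomology.graded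

section

variable {k₀ K : Type} [Field k₀] [Field K] [CharZero K] (T : WeilTheory k₀ K)
  {k k' : Type} [Field k] [Algebra k₀ k] [IsAlgClosed k] [Field k'] [Algebra k₀ k']
  [IsAlgClosed k']

/-- The properties of the extension of the base field. -/
structure BCmap (X : Var k₀ k) (X' : Var k₀ k') (g : X'.X ⟶ X.X) : Prop where
  tr : ∀ u, T.tr X'.X (T.pullH g u) = T.tr X.X u
  bij : Function.Bijective (T.pullH g)
  cor : ∀ r, ∀ φ ∈ (weil T k).Cor X X r, ∃ φ' ∈ (weil T k').Cor X' X' r,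
    ∀ u : T.H X.X, φ' (T.pullH g u : T.H X'.X) = T.pullH g (φ u)

variable {T}

section

variable {X : Var k₀ k} {X' : Var k₀ k'} {g : X'.X ⟶ X.X}

theorem BCmap.pi (i : ℕ) (x : T.H X.X) : T.pullH g ((weil T k).pi X i x) =
    (weil T k').pi X' i (T.pullH g x : T.H X'.X) := by
  have h : (T.pullH g).toLinearMap ∘ₗ ((weil T k).pi X i : T.H X.X →ₗ[K] T.H X.X) =
      ((weil T k').pi X' i : T.H X'.X →ₗ[K] T.H X'.X) ∘ₗ (T.pullH g).toLinearMap := by
    refine (weil T k).hom_ext (M := T.H X'.X) fun j x hx => ?_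
    have hx' : T.pullH g x ∈ (weil T k').gr X' j :=
      T.pullH_mem g X'.isVar.isWeil X.isVar.isWeil j x hx
    change T.pullH g ((weil T k).pi X i x) = (weil T k').pi X' i (T.pullH g x : T.H X'.X)
    by_cases hj : j = i
    · subst hj
      rw [(weil T k).pi_same hx, (weil T k').pi_same hx']
    · rw [(weil T k).pi_ne hx hj, (weil T k').pi_ne hx' hj]
      exact map_zero (T.pullH g)
  exact LinearMap.congr_fun h x

variable (B : BCmap T X X' g)

include B in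
theorem BCmap.gr {i : ℕ} {x' : T.H X'.X} (hx' : x' ∈ (weil T k').gr X' i) :
    ∃ x : T.H X.X, x ∈ (weil T k).gr X i ∧ T.pullH g x = x' := by
  obtain ⟨x, rfl⟩ := B.bij.2 x'
  refine ⟨(weil T k).pi X i x, (weil T k).pi_mem i x, ?_⟩
  rw [BCmap.pi, (weil T k').pi_same hx']

include B in
theorem BCmap.allPi (h : AllPi (weil T k) X) : AllPi (weil T k') X' := by
  intro i
  obtain ⟨φ', h1, h2⟩ := B.cor 0 _ (h i)
  have h3 : (weil T k').pi X' i = φ' := by
    refine LinearMap.ext fun x' => ?_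
    obtain ⟨x, rfl⟩ := B.bij.2 x'
    exact (BCmap.pi i x).symm.trans (h2 x).symm
  rw [h3]
  exact h1

include B in
theorem BCmap.even (h : (weil T k).even X ∈ (weil T k).Cor X X 0) :
    (weil T k').even X' ∈ (weil T k').Cor X' X' 0 := by
  obtain ⟨φ', h1, h2⟩ := B.cor 0 _ h
  have h3 : (weil T k').even X' = φ' := by
    refine (weil T k').hom_ext fun i x' hx' => ?_
    obtain ⟨x, hx, rfl⟩ := B.gr hx'
    rw [h2]
    rcases Nat.even_or_odd i with hi | hi
    · rw [(weil T k').even_even hx' hi, (weil T k).even_even hx hi]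
    · rw [(weil T k').even_odd hx' hi, (weil T k).even_odd hx hi]
      exact (map_zero (T.pullH g)).symm
  rw [h3]
  exact h1

include B in
theorem BCmap.linv {d : T.H X.X} {j a : ℕ} {c : ℚ} (hc : c ≠ 0)
    (h : LInv (weil T k) X d j a) : LInv (weil T k') X' ((c : K) • T.pullH g d) j a := by
  obtain ⟨s, hs, h1⟩ := h
  obtain ⟨s', hs', h2⟩ := B.cor _ s hs
  refine ⟨(((c ^ j)⁻¹ : ℚ) : K) • s', (weil T k').cor_rat hs' _, fun x' hx' => ?_⟩
  obtain ⟨x, hx, rfl⟩ := B.gr hx'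
  have h3 : (((c : K) • T.pullH g d) ^ j * T.pullH g x : T.H X'.X) =
      ((c ^ j : ℚ) : K) • T.pullH g (d ^ j * x) := by
    rw [smul_pow, smul_mul_assoc, map_mul, map_pow, Rat.cast_pow]
  change (((c ^ j)⁻¹ : ℚ) : K) • s' ((((c : K) • T.pullH g d) ^ j * T.pullH g x : T.H X'.X)) = _
  have h4 : s' (((c ^ j : ℚ) : K) • (T.pullH g (d ^ j * x) : T.H X'.X)) =
      ((c ^ j : ℚ) : K) • s' (T.pullH g (d ^ j * x) : T.H X'.X) := map_smul s' _ _
  rw [h3, h4, h2, smul_smul, ← Rat.cast_mul, inv_mul_cancel₀ (pow_ne_zero _ hc),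
    Rat.cast_one, one_smul]
  exact congrArg (T.pullH g) (h1 x hx)

end

section

variable {X P : Var k₀ k} {X' V' Y : Var k₀ k'} {gX : X'.X ⟶ X.X} {g : V'.X ⟶ (X ⊗ P).X}
  (q : V' ⟶ X') (ρ : Y ⟶ V') (BX : BCmap T X X' gX) (BV : BCmap T (X ⊗ P) V' g)

include BV in
theorem y_tr {h : T.CH (X ⊗ P).X} {c : ℚ} (hρ : T.push ρ.hom 1 = c • T.pull g h)
    (u : T.H (X ⊗ P).X) : T.tr Y.X (T.pullH ρ.hom (T.pullH g u)) =
      (c : K) * T.tr (X ⊗ P).X (T.cl _ h * u) := by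
  have h1 := T.cl_push Y.str V'.str ρ.hom ρ.comm Y.dim V'.dim Y.isVar V'.isVar 1 (T.pullH g u)
  rw [map_one (T.cl Y.X), one_mul, hρ, cl_smul, T.cl_pull g V'.isVar.isWeil (X ⊗ P).isVar.isWeil,
    smul_mul_assoc, ← map_mul, map_smul, BV.tr, smul_eq_mul] at h1
  exact h1.symm

include BX BV in
/-- The data for the triangular system. -/
theorem y_core (comm : q.hom ≫ gX = g ≫ (fst X P).hom) (t : T.CH P.X)
    (ht : t ∈ T.codim P.X 1) (hspan : ∀ v : T.H P.X, ∃ c : ℕ → K,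
      v = ∑ l ∈ range (P.dim + 1), c l • (T.cl _ t) ^ l) (κ : ℚ) (hκ0 : κ ≠ 0)
    (hκ : T.tr P.X ((T.cl _ t) ^ P.dim) = κ) (h : T.CH (X ⊗ P).X) (D : T.CH X.X)
    (hD : D ∈ T.codim X.X 1) (b : ℚ) (hb : b ≠ 0)
    (hh : T.cl _ h = ((weil T k).tm (X := X) (Y := P) (T.cl _ D) 1 +
      (b : K) • (weil T k).tm (X := X) (Y := P) 1 (T.cl _ t) : T.H (X ⊗ P).X))
    (c : ℚ) (hc : c ≠ 0) (hρ : T.push ρ.hom 1 = c • T.pull g h)
    (hX' : X'.dim = X.dim) (hdim : Y.dim + 1 = X.dim + P.dim)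
    (weak : ∀ i < Y.dim, ∀ u ∈ T.deg Y.X i, ∃ v ∈ T.deg V'.X i, T.pullH ρ.hom v = u) :
    CoreData (weil T k') X' Y (ρ ≫ q)
      (T.pullH ρ.hom (T.pullH g (T.pullH (snd X P).hom (T.cl _ t))))
      ((c : K) • T.pullH gX (T.cl _ D)) (c * b) κ P.dim := by
  set φ : T.H (X ⊗ P).X →ₐ[K] T.H Y.X := (T.pullH ρ.hom).comp (T.pullH g) with hφ
  have ht2 : T.cl _ t ∈ (weil T k).gr P 2 := T.cl_mem _ P.isVar.isWeil 1 t ht
  -- the map `φ` on decomposable classes
  have hφtm : ∀ (x : T.H X.X) (l : ℕ), φ ((weil T k).tm (X := X) (Y := P) x ((T.cl _ t) ^ l)) =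
      T.pullH (ρ ≫ q).hom (T.pullH gX x) * (φ (T.pullH (snd X P).hom (T.cl _ t))) ^ l := by
    intro x l
    have h1 : (weil T k).tm (X := X) (Y := P) x ((T.cl _ t) ^ l) =
      (T.pullH (fst X P).hom x * T.pullH (snd X P).hom ((T.cl _ t) ^ l) : T.H (X ⊗ P).X) := rfl
    rw [h1, map_mul, map_pow, map_pow]
    congr 1
    have e1 := T.pullH_comp q.hom gX V'.isVar.isWeil X'.isVar.isWeil X.isVar.isWeil x
    have e2 := T.pullH_comp g (fst X P).hom V'.isVar.isWeil (X ⊗ P).isVar.isWeil X.isVar.isWeil x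
    have e3 := T.pullH_comp ρ.hom q.hom Y.isVar.isWeil V'.isVar.isWeil X'.isVar.isWeil
      (T.pullH gX x)
    change T.pullH ρ.hom (T.pullH g (T.pullH (fst X P).hom x)) =
      T.pullH (ρ.hom ≫ q.hom) (T.pullH gX x)
    rw [e3, ← e1, ← e2, comm]
  have hτ : φ (T.pullH (snd X P).hom (T.cl _ t)) ∈ (weil T k').gr Y 2 :=
    T.pullH_mem _ Y.isVar.isWeil V'.isVar.isWeil 2 _
      (T.pullH_mem _ V'.isVar.isWeil (X ⊗ P).isVar.isWeil 2 _
        (T.pullH_mem _ (X ⊗ P).isVar.isWeil P.isVar.isWeil 2 _ ht2))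
  have hcomm : ∀ (l : ℕ) (y : T.H Y.X), y * (φ (T.pullH (snd X P).hom (T.cl _ t))) ^ l =
      (φ (T.pullH (snd X P).hom (T.cl _ t))) ^ l * y :=
    fun l y => abs_comm_pow (weil T k') hτ l y
  refine ⟨?_, ?_, mul_ne_zero hc hb, hκ0, ?_, ?_, ?_⟩
  · refine (weil T k').alg_pull ρ ⟨T.pull g (T.pull (snd X P).hom t), ?_, ?_⟩
    · exact T.pull_mem _ V'.isVar.sm (X ⊗ P).isVar.sm _ _
        (T.pull_mem _ (X ⊗ P).isVar.sm P.isVar.sm _ _ ht)
    · refine (T.cl_pull g V'.isVar.isWeil (X ⊗ P).isVar.isWeil _).trans ?_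
      exact congrArg _ (T.cl_pull _ (X ⊗ P).isVar.isWeil P.isVar.isWeil _)
  · refine (weil T k').alg_rat c ⟨T.pull gX D, T.pull_mem _ X'.isVar.sm X.isVar.sm _ _ hD, ?_⟩
    exact T.cl_pull gX X'.isVar.isWeil X.isVar.isWeil _
  · change Y.dim + 1 = X'.dim + P.dim
    rw [hX', hdim]
  · intro j x'
    obtain ⟨x, rfl⟩ := BX.bij.2 x'
    refine (weil T k').push_eq _ _ _ fun w' => ?_
    obtain ⟨w, rfl⟩ := BX.bij.2 w'
    have h1 : T.tr Y.X ((φ (T.pullH (snd X P).hom (T.cl _ t))) ^ j *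
        T.pullH (ρ ≫ q).hom (T.pullH gX x) * T.pullH (ρ ≫ q).hom (T.pullH gX w)) =
        (c : K) * (if j = P.dim then (κ : K) * T.tr X.X (T.cl _ D * (x * w)) else
        if j + 1 = P.dim then (b : K) * κ * T.tr X.X (x * w) else 0) := by
      have e1 := abs_tm_pow (weil T k) (X := X) ht2 x w j
      have e2 := hφtm x j
      have e3 := hφtm w 0
      rw [pow_zero, pow_zero, mul_one] at e3
      rw [← hcomm, ← e2, ← e3, ← map_mul]
      have e4 := y_tr ρ BV hρ ((weil T k).tm (X := X) (Y := P) (x * w) ((T.cl _ t) ^ j))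
      have e5 := abs_tr_h (weil T k) (X := X) ht2 hκ (T.cl _ D) (x * w) (b : K) j
      rw [hh] at e4
      exact (congrArg (fun z => T.tr Y.X (φ z)) e1).trans
        (e4.trans (congrArg (fun z => (c : K) * z) e5))
    refine Eq.trans ?_ h1.symm
    have e6 : ∀ z z' : T.H X.X, T.tr X'.X (T.pullH gX z * T.pullH gX z') =
        T.tr X.X (z * z') := fun z z' => by rw [← map_mul, BX.tr]
    have e7 : ∀ z z' : T.H X.X, T.tr X'.X (((κ : K) • (((c : K) • T.pullH gX z) *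
        T.pullH gX z')) * T.pullH gX w) = (c : K) * ((κ : K) * T.tr X.X (z * (z' * w))) := by
      intro z z'
      rw [smul_mul_assoc, smul_mul_assoc, smul_mul_assoc, map_smul, map_smul, ← map_mul, e6,
        mul_assoc, smul_eq_mul, smul_eq_mul]
      ring
    by_cases hj : j = P.dim
    · rw [if_pos hj, if_pos (show j = P.dim from hj)]
      exact e7 _ _
    · rw [if_neg hj, if_neg hj]
      by_cases hj' : j + 1 = P.dim
      · rw [if_pos hj', if_pos hj']
        have e8 : T.tr X'.X ((((c * b * κ : ℚ) : K) • T.pullH gX x) * T.pullH gX w) =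
            (c : K) * ((b : K) * κ * T.tr X.X (x * w)) := by
          rw [smul_mul_assoc, map_smul, e6, smul_eq_mul]
          push_cast
          ring
        exact e8
      · rw [if_neg hj', if_neg hj', mul_zero]
        have e9 : T.tr X'.X ((0 : T.H X'.X) * T.pullH gX w) = 0 := by rw [zero_mul, map_zero]
        exact e9
  · intro i hi y hy
    obtain ⟨v', hv', rfl⟩ := weak i hi y hy
    obtain ⟨v, hv, rfl⟩ := BV.gr hv'
    obtain ⟨x, h1, h2, h3⟩ := abs_span (weil T k) ht2 hspan hv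
    refine ⟨fun l => T.pullH gX (x l), fun l hl => ?_, fun l hl => ?_, ?_⟩
    · exact T.pullH_mem _ X'.isVar.isWeil X.isVar.isWeil _ _ (h1 l hl)
    · change T.pullH gX (x l) = 0
      rw [h2 l hl]
      exact map_zero (T.pullH gX)
    · have h4 : T.pullH ρ.hom (T.pullH g v) = φ v := rfl
      rw [h4, h3]
      refine (map_sum φ _ _).trans (Finset.sum_congr rfl fun l _ => ?_)
      exact (hφtm (x l) l).trans (hcomm l _)

end

end

end Pool.Agent.Lib.MP_4ca46c_ag.Div
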