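import Mathlib
import Pool.Agent.Lib.MP_4ca46c_ag.Div.Y
import Pool.Agent.Lib.MP_4ca46c_ag.Div.Bridge
import Pool.Agent.Lib.MP_4ca46c_ag.Div.Spec2
import Pool.Agent.Lib.MP_4ca46c_ag.Div.Core
import Pool.Agent.Lib.MP_4ca46c_ag.Div.Dual
import Pool.Agent.Lib.MP_4ca46c_ag.Div.Trp
import Pool.Agent.Lib.MP_4ca46c_ag.Div.Weil
import Pool.Agent.Lib.MP_4ca46c_ag.Div.ProdH
import Pool.Agent.Lib.MP_4ca46c_ag.Div.LI0
import Pool.Agent.Lib.MP_4ca46c_ag.Div.Conv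
import Pool.Agent.Lib.MP_4ca46c_ag.Div.ConvC
import Pool.Agent.Lib.MP_4ca46c_ag.Div.Left
import Pool.Agent.Lib.MP_4ca46c_ag.Div.BC
import Pool.Agent.Lib.MP_4ca46c_ag.Div.Pr
import Pool.Agent.Lib.MP_4ca46c_ag.Div.KeyA
import Pool.Agent.Lib.MP_4ca46c_ag.Div.GenDiv
import Pool.Agent.Lib.MP_4ca46c_ag.Div.AffC

/-!
# Assembly
-/

namespace Pool.Agent.Lib.MP_4ca46c_ag.Div

open CategoryTheory Limits AlgebraicGeometry MonoidalCategory CartesianMonoidalCategory Finset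
open Pool.Agent.Lib.MP_4ca46c_ag.Sign Pool.Agent.Lib.MP_4ca46c_ag.Hyp
open Pool.Agent.Lib.MP_4ca46c_ag.Std
open Geo Geo.WeilCohomology

attribute [local instance] Geo.WeilCohomology.ring Geo.WeilCohomology.algebra
  Geo.WeilCohomology.finite Geo.WeilCohomology.graded

variable {k₀ K : Type} [Field k₀] [Field K]

theorem isVar_bc {k k' : Type} [Field k] [Algebra k₀ k] [Field k'] [Algebra k₀ k']
    {φ : k →ₐ[k₀] k'} {X X' : Sch k₀} {x : X ⟶ pt k₀ k} {x' : X' ⟶ pt k₀ k'} {g : X' ⟶ X}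
    (hP : IsPullback g x' x (ptMap k₀ φ)) {n : ℕ} (hx : IsVar x n) : IsVar x' n := by
  have h1 : IsPullback g.left x'.left x.left (ptMap k₀ φ).left := hP.map (Over.forget _)
  have h2 := smoothOfRelativeDimension_isStableUnderBaseChange n
  exact ⟨MorphismProperty.of_isPullback (P := @SmoothOfRelativeDimension n) h1 hx.smooth,
    MorphismProperty.of_isPullback (P := @IsProper) h1 hx.proper,
    MorphismProperty.of_isPullback (P := @GeometricallyConnected) h1 hx.connected⟩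

section

variable {D : CohData k₀ K} (h : D.IsTheory) (h' : IsStandard D) {X : PrVar k₀} {r : ℕ}
  (V : ProdEmb X r)

/-- The projective space. -/
noncomputable def pv : Var k₀ X.k :=
  ⟨PSo k₀ X.k V.κ, PSo.str k₀ X.k V.κ, r, tPS k₀ X.k V.κ r V.card⟩

/-- The projective variety `X × ℙ^r`. -/
noncomputable def vp : ProjVar k₀ X.k where
  X := V.Z
  str := V.str
  n := X.n + r
  isVar := Var.isVar_prod X.isVar (pv V).isVar
  κ := V.ι
  i := V.i
  emb := V.emb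
  closed := V.isClosed
  emb_str := V.emb_str

theorem vp_h : (vp V).h (D.weil h) = V.h D := rfl

theorem h_codim : V.h D ∈ (D.weil h).codim (xv X ⊗ pv V).X 1 := (vp V).h_mem (D.weil h) tPS tHyp

theorem hX_codim : V.hX D ∈ (D.weil h).codim X.X 1 :=
  (D.weil h).pull_mem V.slice X.isVar.sm (xv X ⊗ pv V).isVar.sm _ _ (h_codim h V)

include h' in
theorem hl [CharZero K] : HL (weil (D.weil h) X.k) (xv X ⊗ pv V) (D.cl V.Z (V.h D)) :=
  ((bridge_extra h h').lefschetz V.str (X.n + r) (vp V).isVar V.i V.emb V.isClosed V.emb_str)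

/-- The class `h` on `X × ℙ^r`. -/
structure ZData [CharZero K] (t : D.CH (PSo k₀ X.k V.κ)) (κ b c : ℚ) : Prop where
  t_mem : t ∈ (D.weil h).codim (pv V).X 1
  span : ∀ v : D.H (PSo k₀ X.k V.κ), ∃ c : ℕ → K, v = ∑ l ∈ range (r + 1), c l • (D.cl _ t) ^ l
  κ_ne : κ ≠ 0
  tr_t : D.tr _ ((D.cl _ t) ^ r) = κ
  b_ne : b ≠ 0
  h_eq : D.cl V.Z (V.h D) = ((weil (D.weil h) X.k).tm (X := xv X) (Y := pv V)
    (D.cl _ (V.hX D)) 1 + (b : K) • (weil (D.weil h) X.k).tm (X := xv X) (Y := pv V) 1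
      (D.cl _ t) : D.H V.Z)
  c_ne : c ≠ 0
  tr_h : D.tr _ ((D.cl _ (V.hX D)) ^ X.n) = c

include h' in
theorem exists_zData [CharZero K] : ∃ t κ b c, ZData h V t κ b c := by
  obtain ⟨t, ht, hspan, κ, hκ0, hκ⟩ := tPr k₀ K (D.weil h) (bridge_extra h h') X.k V.κ r V.card
  have hne : (D.cl V.Z (V.h D) : (weil (D.weil h) X.k).H (xv X ⊗ pv V)) ^ (X.n + r) ≠ 0 := by
    intro h0
    have h1 := (hl h h' V).1 (X.n + r) le_rfl 1 (by
      rw [show (weil (D.weil h) X.k).dim (xv X ⊗ pv V) = X.n + r from rfl, Nat.sub_self]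
      exact (D.weil h).oneH_mem _ (xv X ⊗ pv V).isVar.isWeil)
      ((congrArg (fun z : (weil (D.weil h) X.k).H (xv X ⊗ pv V) => z * 1) h0).trans (zero_mul _))
    obtain ⟨p, -, hp⟩ := (weil (D.weil h) X.k).exists_pt (xv X ⊗ pv V)
    rw [← one_mul p, h1, zero_mul, map_zero] at hp
    exact zero_ne_one hp
  obtain ⟨b, hb, hh, c, hc, htr⟩ := tProdH K (Var k₀ X.k) (weil (D.weil h) X.k) (xv X) (pv V)
    (D.cl _ t) (D.cl V.Z (V.h D)) κ ⟨V.point, V.point_str⟩ ⟨t, ht, rfl⟩ ⟨V.h D, h_codim h V, rfl⟩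
    hκ0 hκ hspan hne
  have hs : (weil (D.weil h) X.k).pull (slice (xv X) (P := pv V) ⟨V.point, V.point_str⟩)
      (D.cl V.Z (V.h D)) = D.cl X.X (V.hX D) :=
    ((D.weil h).cl_pull V.slice X.isVar.isWeil (xv X ⊗ pv V).isVar.isWeil (V.h D)).symm
  rw [hs] at hh htr
  exact ⟨t, κ, b, c, ht, hspan, hκ0, hκ, hb, hh, hc, htr⟩

end

end Pool.Agent.Lib.MP_4ca46c_ag.Div
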