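import Pool.Agent.Lib.MP_4ca46c_ag.Div.Spec3
import Pool.Agent.Lib.MP_4ca46c_ag.Div.Core

/-!
# The Künneth projectors of the total space
-/

set_option autoImplicit false

namespace Pool.Agent.Lib.MP_4ca46c_ag.Div

open CategoryTheory Limits AlgebraicGeometry MonoidalCategory CartesianMonoidalCategory Finset
open Pool.Agent.Lib.MP_4ca46c_ag.Sign Pool.Agent.Lib.MP_4ca46c_ag.Hyp
open Pool.Agent.Lib.MP_4ca46c_ag.Std

theorem tPiU : StPiU := by
  intro K _ _ 𝒱 _ _ W X Y g τ R hτ hU hpi i hi
  obtain ⟨A, hA1, hA2⟩ := hU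
  have key : W.pi Y i = ∑ l ∈ (range R).filter (fun l => 2 * l ≤ i),
      LinearMap.mulLeft K (τ ^ l) ∘ₗ (W.pull g).toLinearMap ∘ₗ W.pi X (i - 2 * l) ∘ₗ A l := by
    refine W.hom_ext fun i' y hy => ?_
    rw [LinearMap.sum_apply]
    by_cases hii : i' = i
    · subst hii
      rw [W.pi_same hy]
      conv_lhs => rw [hA2 i' hi y hy]
      rw [Finset.sum_filter]
      refine Finset.sum_congr rfl fun l hl => ?_
      by_cases h2 : 2 * l ≤ i'
      · rw [if_pos h2]
        simp only [LinearMap.comp_apply, LinearMap.mulLeft_apply]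
        have h5 : A l y ∈ W.gr X (i' - 2 * l) := W.cor_gr (hA1 l) hy (by omega)
        rw [W.pi_same h5]
        rfl
      · have h5 : A l y = 0 := W.cor_gr_zero (hA1 l) hy (by omega)
        rw [if_neg h2, h5, map_zero, mul_zero]
    · rw [W.pi_ne hy hii]
      symm
      refine Finset.sum_eq_zero fun l hl => ?_
      obtain ⟨hl1, hl2⟩ := Finset.mem_filter.1 hl
      simp only [LinearMap.comp_apply, LinearMap.mulLeft_apply]
      have h3 : W.pi X (i - 2 * l) (A l y) = 0 := by
        by_cases h4 : 2 * l ≤ i'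
        · have h5 : A l y ∈ W.gr X (i' - 2 * l) :=
            W.cor_gr (hA1 l) hy (by omega)
          exact W.pi_ne h5 (by omega)
        · have h5 : A l y = 0 := W.cor_gr_zero (hA1 l) hy (by omega)
          rw [h5, map_zero]
      rw [h3, map_zero, mul_zero]
  rw [key]
  refine AddSubgroup.sum_mem _ fun l hl => ?_
  have h1 := W.cor_comp (W.cor_mul (core_alg_pow W hτ l))
    (W.cor_comp (W.cor_pull g) (W.cor_comp (hpi (i - 2 * l)) (hA1 l)))
  refine core_cast W h1 ?_
  ring

end Pool.Agent.Lib.MP_4ca46c_ag.Div
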