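import Mathlib
import Pool.Agent.Lib.MP_4ca46c_ag.Div.Spec2

/-!
# Specification: smooth complete intersections in `X × ℙ^N`

`n = dim X`, `V = X × P`, `P = ℙ^N`, `h = D ⊗ 1 + b (1 ⊗ t)`, `Y` a smooth complete intersection in
`V` (over a bigger field) of codimension `c`, of class `q h^c`, `N = c + d`, so
`m = dim Y = n + d`, `g : Y ⟶ X`, `τ` the restriction of `t`. Then `g_* (τ^j) = 0` for `j < d` and
`g_* (τ^d)` is a nonzero number. If `n ≤ d + 3` then the `x_l` in `y = ∑_l τ^l g^* x_l` are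
algebraic operators of `y`, for `y ∈ H^i(Y)`, `i < m`, without any assumption on `X`.
-/

namespace Pool.Agent.Lib.MP_4ca46c_ag.Div

open CategoryTheory Limits AlgebraicGeometry MonoidalCategory CartesianMonoidalCategory Finset
open Pool.Agent.Lib.MP_4ca46c_ag.Sign Pool.Agent.Lib.MP_4ca46c_ag.Hyp
open Pool.Agent.Lib.MP_4ca46c_ag.Std

section Abstract

variable {K : Type} [Field K] [CharZero K] {𝒱 : Type 1} [Category.{0} 𝒱]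
  [CartesianMonoidalCategory 𝒱] (W : Geo.WeilCohomology K 𝒱)

/-- The data for a fibration `g : Y ⟶ X` of relative dimension `d`. -/
structure FibData (X Y : 𝒱) (g : Y ⟶ X) (τ : W.H Y) (q : ℚ) (d : ℕ) : Prop where
  τ_alg : τ ∈ W.Alg Y 1
  q_ne : q ≠ 0
  dim : W.dim Y = W.dim X + d
  push : W.push g (τ ^ d) = (q : K) • 1
  span : ∀ i < W.dim Y, ∀ y ∈ W.gr Y i, ∃ x : ℕ → W.H X,
    (∀ l, 2 * l ≤ i → x l ∈ W.gr X (i - 2 * l)) ∧ (∀ l, i < 2 * l → x l = 0) ∧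
      y = ∑ l ∈ range (d + 2), τ ^ l * W.pull g (x l)

/-- The condition for `dim X = d + 3`. -/
def Edge (X Y : 𝒱) (g : Y ⟶ X) (τ : W.H Y) (d : ℕ) : Prop :=
  ∃ Φ ∈ W.Alg Y (d + 2), (∀ l ≤ d, ∀ x, W.tr Y (Φ * (τ ^ l * W.pull g x)) = 0) ∧
    W.tr Y (Φ * τ ^ (d + 1)) ≠ 0

/-- The classes `x_l` are algebraic operators of `y`. -/
def UnifA (X Y : 𝒱) (g : Y ⟶ X) (τ : W.H Y) (R : ℕ) : Prop :=
  ∃ A : ℕ → (W.H Y →ₗ[K] W.H X), (∀ l : ℕ, A l ∈ W.Cor X Y (-(l : ℤ))) ∧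
    ∀ i < W.dim Y, ∀ y ∈ W.gr Y i, y = ∑ l ∈ range R, τ ^ l * W.pull g (A l y)

end Abstract

section Statements

/-- **The triangular system for fibrations.**

PROOF. Let `n = dim X`, `m = dim Y = n + d`, `s_j = g_* (τ^(d + j)) ∈ Alg X j`, so `s_0 = q`; and
`g_* (τ^j) = 0` for `j < d` (`cor_push`, `cor_gr_zero`: `g_*` has degree `-d`). By the projection
formula `g_* (τ^j g^* x) = g_* (τ^j) x` (`push_eq`, `push_spec`).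
`A_(d+1)`: if `n ≤ d + 2` it is `0`. If `n = d + 3` let `ε = tr (Φ τ^(d+1))`, a rational number
(`alg_tr`, `Φ τ^(d+1) ∈ Alg Y (2d + 3)`, `2d + 3 = dim Y`), and
`A_(d+1) y = ε⁻¹ tr (Φ y) • 1 = op (tm (ε⁻¹ • 1) Φ) y` (`op_tm`; `tm_alg` gives
`tm (ε⁻¹ • 1) Φ ∈ Alg (X ⊗ Y) (0 + (d + 2))` and `dim Y - (d + 1) = d + 2`).
For `l ≤ d` (descending recursion):
`A_l y = q⁻¹ (g_* (τ^(d-l) y) - ∑_(l < l' ≤ d+1) s_(l'-l) A_(l') y)`. `A_l ∈ Cor X Y (-l)`.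
Let `y = ∑_l τ^l g^* x_l ∈ H^i(Y)`, `i < m`. Then `A_l y = x_l` for all `l ≤ d + 1`: for
`l = d + 1`, if `n ≤ d + 2` then `i < 2(d + 1)`, so `x_(d+1) = 0`; if `n = d + 3` then
`tr (Φ y) = tr (Φ τ^(d+1) g^* x_(d+1))`, and `x_(d+1)` is `0` or in `H^0(X) = K` (`connected`;
`i ≤ 2d + 2`), so this is `x_(d+1) ε`. For `l ≤ d`: `g_* (τ^(d-l) y) = ∑_(l') g_* (τ^(d-l+l'))
x_(l') = q x_l + ∑_(l' > l) s_(l'-l) x_(l')`. -/
def StTri : Prop := ∀ (K : Type) [Field K] [CharZero K] (𝒱 : Type 1) [Category.{0} 𝒱]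
  [CartesianMonoidalCategory 𝒱] (W : Geo.WeilCohomology K 𝒱) (X Y : 𝒱) (g : Y ⟶ X)
  (τ : W.H Y) (q : ℚ) (d : ℕ), FibData W X Y g τ q d →
  (W.dim X ≤ d + 2 ∨ (W.dim X = d + 3 ∧ Edge W X Y g τ d)) → UnifA W X Y g τ (d + 2)

/-- **From `X` to `Y`, Künneth.** (Then `StDual` gives `AllPi W Y`.)

PROOF. See the end of `Div/Core.lean`: `pi Y i` is the sum over `l ∈ range R` with `2l ≤ i` of
`(mul τ^l) ∘ g^* ∘ pi X (i - 2l) ∘ A_l`. On `H^i(Y)`: `A_l y ∈ H^(i-2l)(X)` (`cor_gr`), and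
`A_l y = 0` for `2l > i` (`cor_gr_zero`). On `H^(i')(Y)`, `i' ≠ i`, both sides are `0`. -/
def StPiU : Prop := ∀ (K : Type) [Field K] [CharZero K] (𝒱 : Type 1) [Category.{0} 𝒱]
  [CartesianMonoidalCategory 𝒱] (W : Geo.WeilCohomology K 𝒱) (X Y : 𝒱) (g : Y ⟶ X)
  (τ : W.H Y) (R : ℕ), τ ∈ W.Alg Y 1 → UnifA W X Y g τ R → AllPi W X →
  ∀ i < W.dim Y, W.pi Y i ∈ W.Cor Y Y 0

/-- **From `X` to `Y`, sign.** (May use `StTrp`.)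

PROOF. A copy of `tSgn` in `Div/Sgn.lean`, which uses only `UnifA`. -/
def StSgnU : Prop := ∀ (K : Type) [Field K] [CharZero K] (𝒱 : Type 1) [Category.{0} 𝒱]
  [CartesianMonoidalCategory 𝒱] (W : Geo.WeilCohomology K 𝒱) (X Y : 𝒱) (g : Y ⟶ X)
  (τ : W.H Y) (R : ℕ), τ ∈ W.Alg Y 1 → UnifA W X Y g τ R → W.even X ∈ W.Cor X X 0 →
  W.even Y ∈ W.Cor Y Y 0

/-- **From `Y` to `X`.**

PROOF. `g_* (τ^d g^* x) = g_* (τ^d) x = q x`, so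
`pi X a = q⁻¹ • g_* ∘ (mul τ^d) ∘ pi Y a ∘ g^*` and `even X = q⁻¹ • g_* ∘ (mul τ^d) ∘ even Y ∘ g^*`
(check on `H^i(X)`), and the degree is `- d + d + 0 + 0`. -/
def StDown : Prop := ∀ (K : Type) [Field K] [CharZero K] (𝒱 : Type 1) [Category.{0} 𝒱]
  [CartesianMonoidalCategory 𝒱] (W : Geo.WeilCohomology K 𝒱) (X Y : 𝒱) (g : Y ⟶ X)
  (τ : W.H Y) (q : ℚ) (d : ℕ), τ ∈ W.Alg Y 1 → q ≠ 0 → W.dim Y = W.dim X + d →
  W.push g (τ ^ d) = (q : K) • 1 →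
  (AllPi W Y → AllPi W X) ∧ (W.even Y ∈ W.Cor Y Y 0 → W.even X ∈ W.Cor X X 0)

/-- **A polynomial.**

PROOF. Let `Q = (1 + b T)^c`, of degree `c`, and `T^(N+1) = Q P + R` with `deg R < c` (division in
`ℚ[T]`, `EuclideanDomain` or `Polynomial.div`), so `Q P = T^(N+1) - R` and `deg P ≤ N + 1 - c`. The
coefficients of `T^j` in `Q P` are `0` for `c ≤ j ≤ N`. Suppose the coefficient of `T^(c-1)` in
`R` is `0`, so `deg R ≤ c - 2` (or `R = 0`) and the `(c-1)`-th derivative of `T^(N+1) - R` is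
`(N+1) N ⋯ (N + 3 - c) T^(N+2-c)`, not zero at `T = - 1/b` (`c ≤ N + 1`). But `Q` divides
`T^(N+1) - R`, so `1 + b T` divides this derivative: contradiction. -/
def StPoly : Prop := ∀ (b : ℚ) (c N : ℕ), b ≠ 0 → 1 ≤ c → c ≤ N + 1 → ∃ P : Polynomial ℚ,
  P.natDegree ≤ N + 1 - c ∧
  (∀ j, c ≤ j → j ≤ N → ((1 + Polynomial.C b * Polynomial.X) ^ c * P).coeff j = 0) ∧
  ((1 + Polynomial.C b * Polynomial.X) ^ c * P).coeff (c - 1) ≠ 0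

/-- **Traces on `X × P`.** (See `Div/Abs.lean`: `abs_tm_mul`, `abs_tr_pow`, `abs_tr_tm`.)

PROOF. `Add.Commute.add_pow` for `tm D 1` and `b • tm 1 t` (they commute: `abs_tm_mul`, degree
`2`), `(tm D 1)^k = tm (D^k) 1`, `(tm 1 t)^e = tm 1 (t^e)`, and `tm (D^(c-e)) (t^e) * tm x (t^j) =
tm (D^(c-e) x) (t^(e+j))`; the trace of `t^l` is `κ` for `l = dim P` and `0` otherwise. -/
def StTrH : Prop := ∀ (K : Type) [Field K] [CharZero K] (𝒱 : Type 1) [Category.{0} 𝒱]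
  [CartesianMonoidalCategory 𝒱] (W : Geo.WeilCohomology K 𝒱) (X P : 𝒱) (t : W.H P)
  (D : W.H X) (b κ : K), t ∈ W.gr P 2 → D ∈ W.gr X 2 → W.tr P (t ^ W.dim P) = κ →
  ∀ (c j : ℕ) (x : W.H X), j ≤ W.dim P →
    W.tr (X ⊗ P) ((W.tm D 1 + b • W.tm 1 t) ^ c * W.tm x (t ^ j)) =
      if W.dim P ≤ c + j then (c.choose (W.dim P - j) : K) * b ^ (W.dim P - j) * κ *
        W.tr X (D ^ (c + j - W.dim P) * x) else 0

/-- **The class for the condition `Edge`.** (May use `StPoly` and `StTrH`.)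

PROOF. Let `N = dim P = c + d` and `P₁ = ∑ φ_k T^k` as in `StPoly`, `deg P₁ ≤ N + 1 - c = d + 1`,
`Ψ = ∑_(k ≤ d+1) φ_k tm (D^(d+2-k)) (t^k) ∈ Alg (X ⊗ P) (d + 2)`. For `l ≤ d + 1`, `x ∈ H(X)`:
`h^c Ψ (x ⊗ t^l) = ∑_k φ_k h^c (D^(d+2-k) x ⊗ t^(k+l))` has trace (`StTrH`; terms with
`k + l > N` are `0` since `t^(k+l) = 0`)
`κ ∑_k φ_k C(c, N-k-l) b^(N-k-l) tr (D^(l+2) x)` (the exponent is `c + k + l - N + d + 2 - k`)
`= κ coeff_(N-l) ((1 + b T)^c P₁) tr (D^(l+2) x)`: this is `0` for `l ≤ d` (`c ≤ N - l ≤ N`), and for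
`l = d + 1`, `x = 1` it is `κ coeff_(c-1) tr (D^(d+3)) ≠ 0`. (`h^c` is central: even degree.) -/
def StPhi : Prop := ∀ (K : Type) [Field K] [CharZero K] (𝒱 : Type 1) [Category.{0} 𝒱]
  [CartesianMonoidalCategory 𝒱] (W : Geo.WeilCohomology K 𝒱) (X P : 𝒱) (t : W.H P)
  (D : W.H X) (b κ e : ℚ) (c d : ℕ), t ∈ W.Alg P 1 → D ∈ W.Alg X 1 → b ≠ 0 → κ ≠ 0 →
  e ≠ 0 → 1 ≤ c → W.dim P = c + d → W.dim X = d + 3 → W.tr P (t ^ W.dim P) = κ →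
  W.tr X (D ^ W.dim X) = e →
  ∃ Ψ ∈ W.Alg (X ⊗ P) (d + 2),
    (∀ l ≤ d, ∀ x, W.tr (X ⊗ P) ((W.tm D 1 + (b : K) • W.tm 1 t) ^ c *
      (Ψ * W.tm x (t ^ l))) = 0) ∧
    W.tr (X ⊗ P) ((W.tm D 1 + (b : K) • W.tm 1 t) ^ c * (Ψ * W.tm 1 (t ^ (d + 1)))) ≠ 0

end Statements

end Pool.Agent.Lib.MP_4ca46c_ag.Div
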