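import Mathlib
import Pool.Agent.Lib.MP_4ca46c_ag.Div.Y
import Pool.Agent.Lib.MP_4ca46c_ag.Div.Spec3

/-!
# The cohomology of a complete intersection in `X × P`
-/

namespace Pool.Agent.Lib.MP_4ca46c_ag.Div

open CategoryTheory Limits AlgebraicGeometry MonoidalCategory CartesianMonoidalCategory Finset
open Pool.Agent.Lib.MP_4ca46c_ag.Sign Pool.Agent.Lib.MP_4ca46c_ag.Hyp
open Pool.Agent.Lib.MP_4ca46c_ag.Std
open Geo Geo.WeilCohomology

attribute [local instance] Geo.WeilCohomology.ring Geo.WeilCohomology.algebra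
  Geo.WeilCohomology.finite Geo.WeilCohomology.graded

variable {k₀ K : Type} [Field k₀] [Field K] [CharZero K] {T : WeilTheory k₀ K}
  {k k' : Type} [Field k] [Algebra k₀ k] [IsAlgClosed k] [Field k'] [Algebra k₀ k']
  [IsAlgClosed k'] {X P : Var k₀ k} {X' V' Y : Var k₀ k'} {gX : X'.X ⟶ X.X}
  {g : V'.X ⟶ (X ⊗ P).X} (q : V' ⟶ X') (ρ : Y ⟶ V')

/-- The restriction to `Y`. -/
noncomputable def yphi (g : V'.X ⟶ (X ⊗ P).X) (ρ : Y ⟶ V') : T.H (X ⊗ P).X →ₐ[K] T.H Y.X :=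
  (T.pullH ρ.hom).comp (T.pullH g)

/-- The restriction of `t`. -/
noncomputable def ytau (g : V'.X ⟶ (X ⊗ P).X) (ρ : Y ⟶ V') (t : T.CH P.X) : T.H Y.X :=
  yphi g ρ (T.pullH (snd X P).hom (T.cl _ t))

theorem yphi_tm (comm : q.hom ≫ gX = g ≫ (fst X P).hom) (t : T.CH P.X) (x : T.H X.X) (l : ℕ) :
    yphi g ρ ((weil T k).tm (X := X) (Y := P) x ((T.cl _ t) ^ l)) =
      T.pullH (ρ ≫ q).hom (T.pullH gX x) * (ytau g ρ t) ^ l := by
  have h1 : (weil T k).tm (X := X) (Y := P) x ((T.cl _ t) ^ l) =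
    (T.pullH (fst X P).hom x * T.pullH (snd X P).hom ((T.cl _ t) ^ l) : T.H (X ⊗ P).X) := rfl
  rw [h1, map_mul, map_pow, map_pow]
  congr 1
  have e1 := T.pullH_comp q.hom gX V'.isVar.isWeil X'.isVar.isWeil X.isVar.isWeil x
  have e2 := T.pullH_comp g (fst X P).hom V'.isVar.isWeil (X ⊗ P).isVar.isWeil X.isVar.isWeil x
  have e3 := T.pullH_comp ρ.hom q.hom Y.isVar.isWeil V'.isVar.isWeil X'.isVar.isWeil
    (T.pullH gX x)
  change T.pullH ρ.hom (T.pullH g (T.pullH (fst X P).hom x)) =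
    T.pullH (ρ.hom ≫ q.hom) (T.pullH gX x)
  rw [e3, ← e1, ← e2, comm]

theorem yphi_alg {c : ℕ} {u : T.H (X ⊗ P).X} (hu : u ∈ (weil T k).Alg (X ⊗ P) c) :
    yphi g ρ u ∈ (weil T k').Alg Y c := by
  obtain ⟨a, ha, rfl⟩ := hu
  refine ⟨T.pull ρ.hom (T.pull g a), ?_, ?_⟩
  · exact T.pull_mem _ Y.isVar.sm V'.isVar.sm _ _ (T.pull_mem _ V'.isVar.sm (X ⊗ P).isVar.sm _ _ ha)
  · refine (T.cl_pull _ Y.isVar.isWeil V'.isVar.isWeil _).trans ?_
    exact congrArg _ (T.cl_pull _ V'.isVar.isWeil (X ⊗ P).isVar.isWeil _)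

theorem ytau_alg {t : T.CH P.X} (ht : t ∈ T.codim P.X 1) :
    ytau g ρ t ∈ (weil T k').Alg Y 1 :=
  yphi_alg ρ ((weil T k).alg_pull (snd X P) ⟨t, ht, rfl⟩)

/-- The image of `x ⊗ t^l`, in the form `τ^l g^* x`. -/
theorem yphi_tm' (comm : q.hom ≫ gX = g ≫ (fst X P).hom) {t : T.CH P.X}
    (ht : t ∈ T.codim P.X 1) (x : T.H X.X) (l : ℕ) :
    yphi g ρ ((weil T k).tm (X := X) (Y := P) x ((T.cl _ t) ^ l)) =
      (ytau g ρ t) ^ l * T.pullH (ρ ≫ q).hom (T.pullH gX x) :=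
  (yphi_tm q ρ comm t x l).trans
    (abs_comm_pow (weil T k') ((weil T k').alg_gr (ytau_alg (g := g) ρ ht)) l _)

variable (BX : BCmap T X X' gX) (BV : BCmap T (X ⊗ P) V' g)

include BX BV in
/-- The data for the fibration `Y ⟶ X`. -/
theorem y_fib (hTrH : StTrH) (hPhi : StPhi) (comm : q.hom ≫ gX = g ≫ (fst X P).hom) (t : T.CH P.X)
    (ht : t ∈ T.codim P.X 1) (hspan : ∀ v : T.H P.X, ∃ c : ℕ → K,
      v = ∑ l ∈ range (P.dim + 1), c l • (T.cl _ t) ^ l) (κ : ℚ) (hκ0 : κ ≠ 0)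
    (hκ : T.tr P.X ((T.cl _ t) ^ P.dim) = κ) (h : T.CH (X ⊗ P).X) (D : T.CH X.X)
    (hD : D ∈ T.codim X.X 1) (b : ℚ) (hb : b ≠ 0)
    (hh : T.cl _ h = ((weil T k).tm (X := X) (Y := P) (T.cl _ D) 1 +
      (b : K) • (weil T k).tm (X := X) (Y := P) 1 (T.cl _ t) : T.H (X ⊗ P).X))
    (e : ℚ) (he : e ≠ 0) (hDe : T.tr X.X ((T.cl _ D) ^ X.dim) = e)
    (c d : ℕ) (q₀ : ℚ) (hq₀ : q₀ ≠ 0) (hρ : T.push ρ.hom 1 = q₀ • T.pull g (h ^ c))
    (hX' : X'.dim = X.dim) (hc : 1 ≤ c) (hP : P.dim = c + d) (hdim : Y.dim = X.dim + d)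
    (hn : X.dim ≤ d + 3)
    (weak : ∀ i < Y.dim, ∀ u ∈ T.deg Y.X i, ∃ v ∈ T.deg V'.X i, T.pullH ρ.hom v = u) :
    FibData (weil T k') X' Y (ρ ≫ q) (ytau g ρ t) (q₀ * b ^ c * κ) d ∧
      ((weil T k').dim X' ≤ d + 2 ∨ ((weil T k').dim X' = d + 3 ∧
        Edge (weil T k') X' Y (ρ ≫ q) (ytau g ρ t) d)) := by
  have ht2 : T.cl _ t ∈ (weil T k).gr P 2 := T.cl_mem _ P.isVar.isWeil 1 t ht
  have hD2 : T.cl _ D ∈ (weil T k).gr X 2 := T.cl_mem _ X.isVar.isWeil 1 D hD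
  have htr : ∀ u : T.H (X ⊗ P).X, T.tr Y.X (yphi g ρ u) =
      (q₀ : K) * T.tr (X ⊗ P).X ((T.cl _ h) ^ c * u) := by
    intro u
    have h1 := y_tr ρ BV hρ u
    rw [map_pow] at h1
    exact h1
  refine ⟨⟨ytau_alg ρ ht, mul_ne_zero (mul_ne_zero hq₀ (pow_ne_zero _ hb)) hκ0, ?_, ?_, ?_⟩, ?_⟩
  · change Y.dim = X'.dim + d
    rw [hX', hdim]
  · refine (weil T k').push_eq _ _ _ fun w' => ?_
    obtain ⟨w, rfl⟩ := BX.bij.2 w'
    have e1 := yphi_tm' q ρ comm ht w d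
    have e2 := htr ((weil T k).tm (X := X) (Y := P) w ((T.cl _ t) ^ d))
    have e3 := hTrH K (Var k₀ k) (weil T k) X P (T.cl _ t) (T.cl _ D) (b : K) (κ : K) ht2 hD2 hκ
      c d w (by change d ≤ P.dim; omega)
    have e4 : (weil T k).dim P = c + d := hP
    rw [e4, if_pos le_rfl, Nat.add_sub_cancel, Nat.choose_self, Nat.sub_self, pow_zero, one_mul,
      Nat.cast_one, one_mul] at e3
    rw [e1, hh] at e2
    have e5 : T.tr Y.X ((ytau g ρ t) ^ d * T.pullH (ρ ≫ q).hom (T.pullH gX w)) =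
        (q₀ : K) * ((b : K) ^ c * κ * T.tr X.X w) :=
      e2.trans (congrArg (fun z => (q₀ : K) * z) e3)
    have e6 : T.tr X'.X ((((q₀ * b ^ c * κ : ℚ) : K) • (1 : T.H X'.X)) * T.pullH gX w) =
        (q₀ : K) * ((b : K) ^ c * κ * T.tr X.X w) := by
      rw [smul_mul_assoc, one_mul, map_smul, BX.tr, smul_eq_mul]
      push_cast
      ring
    exact e6.trans e5.symm
  · intro i hi y hy
    obtain ⟨v', hv', rfl⟩ := weak i hi y hy
    obtain ⟨v, hv, rfl⟩ := BV.gr hv'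
    obtain ⟨x, h1, h2, h3⟩ := abs_span (weil T k) ht2 hspan hv
    refine ⟨fun l => T.pullH gX (x l), fun l hl => ?_, fun l hl => ?_, ?_⟩
    · exact T.pullH_mem _ X'.isVar.isWeil X.isVar.isWeil _ _ (h1 l hl)
    · change T.pullH gX (x l) = 0
      rw [h2 l hl]
      exact map_zero (T.pullH gX)
    · have h4 : T.pullH ρ.hom (T.pullH g v) = yphi g ρ v := rfl
      have h5 : ∑ l ∈ range (P.dim + 1), (weil T k).tm (X := X) (Y := P) (x l) ((T.cl _ t) ^ l) =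
          ∑ l ∈ range (d + 2), (weil T k).tm (X := X) (Y := P) (x l) ((T.cl _ t) ^ l) := by
        symm
        refine Finset.sum_subset (fun l hl => ?_) fun l _ hl => ?_
        · rw [Finset.mem_range] at hl ⊢
          omega
        · rw [Finset.mem_range] at hl
          have hi' : i < Y.dim := hi
          rw [h2 l (by omega), (weil T k).tm_zero_left]
      rw [h4, h3.trans h5]
      refine (map_sum (yphi g ρ) _ _).trans (Finset.sum_congr rfl fun l _ => ?_)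
      exact yphi_tm' q ρ comm ht (x l) l
  · by_cases hd : X.dim ≤ d + 2
    · left
      change X'.dim ≤ d + 2
      rw [hX']
      exact hd
    · right
      refine ⟨by change X'.dim = d + 3; omega, ?_⟩
      obtain ⟨Ψ, hΨ, h1, h2⟩ := hPhi K (Var k₀ k) (weil T k) X P (T.cl _ t) (T.cl _ D) b κ e c d
        ⟨t, ht, rfl⟩ ⟨D, hD, rfl⟩ hb hκ0 he hc hP (by change X.dim = d + 3; omega) hκ hDe
      have h3 : ∀ (Ψ u : T.H (X ⊗ P).X) (x : T.H X.X) (l : ℕ),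
          (weil T k).tm (X := X) (Y := P) x ((T.cl _ t) ^ l) = u → T.tr Y.X (yphi g ρ Ψ *
          ((ytau g ρ t) ^ l * T.pullH (ρ ≫ q).hom (T.pullH gX x))) =
          (q₀ : K) * T.tr (X ⊗ P).X ((T.cl _ h) ^ c * (Ψ * u)) := by
        rintro Ψ _ x l rfl
        rw [← yphi_tm' q ρ comm ht x l]
        exact (congrArg (T.tr Y.X) (map_mul (yphi g ρ) _ _).symm).trans (htr _)
      refine ⟨yphi g ρ Ψ, yphi_alg ρ hΨ, fun l hl x' => ?_, fun h0 => ?_⟩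
      · obtain ⟨x, rfl⟩ := BX.bij.2 x'
        refine (h3 Ψ _ x l rfl).trans ?_
        rw [hh]
        have h4 := h1 l hl x
        exact (congrArg (fun z => (q₀ : K) * z) h4).trans (mul_zero _)
      · have h4 := h3 Ψ _ 1 (d + 1) rfl
        rw [map_one, map_one, mul_one, hh] at h4
        have h5 := h4.symm.trans h0
        rcases mul_eq_zero.1 h5 with h6 | h6
        · exact hq₀ (Rat.cast_eq_zero.1 h6)
        · exact h2 h6

end Pool.Agent.Lib.MP_4ca46c_ag.Div
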