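import Mathlib
import Pool.Agent.Lib.MP_4ca46c_ag.Div.Asm
import Pool.Agent.Lib.MP_4ca46c_ag.Div.YF
import Pool.Agent.Lib.MP_4ca46c_ag.Div.PiU

/-!
# Assembly: the conjecture for divisors and complete intersections
-/

namespace Pool.Agent.Lib.MP_4ca46c_ag.Div

open CategoryTheory Limits AlgebraicGeometry MonoidalCategory CartesianMonoidalCategory Finset
open Pool.Agent.Lib.MP_4ca46c_ag.Sign Pool.Agent.Lib.MP_4ca46c_ag.Hyp
open Pool.Agent.Lib.MP_4ca46c_ag.Std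
open Geo Geo.WeilCohomology

attribute [local instance] Geo.WeilCohomology.ring Geo.WeilCohomology.algebra
  Geo.WeilCohomology.finite Geo.WeilCohomology.graded

variable {k₀ K : Type} [Field k₀] [Field K]
  {D : CohData k₀ K} (h : D.IsTheory) (h' : IsStandard D) (hw : WeakLefschetz D)
  {X : PrVar k₀} {r : ℕ} (V : ProdEmb X r)

include h h' hw in
/-- The geometric data of a section. -/
theorem exists_geo [CharZero K] (c : ℕ) (Y : PrVar k₀) (hY : V.IsSection D c Y) :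
    ∃ (X' W' : Var k₀ Y.k) (gX : X'.X ⟶ X.X) (g : W'.X ⟶ (xv X ⊗ pv V).X) (q : W' ⟶ X')
      (ρ : xv Y ⟶ W') (q₀ : ℚ), X'.dim = X.n ∧ Y.n + c = X.n + r ∧ q₀ ≠ 0 ∧
      BCmap (D.weil h) (xv X) X' gX ∧ BCmap (D.weil h) (xv X ⊗ pv V) W' g ∧
      q.hom ≫ gX = g ≫ (fst (xv X) (pv V)).hom ∧
      (D.weil h).push ρ.hom 1 = q₀ • (D.weil h).pull g (V.h D ^ c) ∧
      (∀ i < (xv Y).dim, ∀ u ∈ (D.weil h).deg (xv Y).X i, ∃ v ∈ (D.weil h).deg W'.X i,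
        (D.weil h).pullH ρ.hom v = u) := by
  obtain ⟨hn, φ, V', v, g, ρ, hP, hρ, hU, q₀, hq₀, hcl⟩ := hY
  let _ : Algebra X.k Y.k := φ.toRingHom.toAlgebra
  have : IsScalarTower k₀ X.k Y.k := IsScalarTower.of_algebraMap_eq fun x => (φ.commutes x).symm
  have hφ : IsScalarTower.toAlgHom k₀ X.k Y.k = φ := AlgHom.ext fun _ => rfl
  let X' : Var k₀ Y.k := ⟨pullback X.str (ptMap k₀ φ), pullback.snd _ _, X.n,
    isVar_bc (IsPullback.of_hasPullback _ _) X.isVar⟩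
  let W' : Var k₀ Y.k := ⟨V', v, X.n + r, isVar_bc hP (vp V).isVar⟩
  let q : W' ⟶ X' := ⟨pullback.lift (g ≫ pullback.fst X.str (PSo.str k₀ X.k V.κ)) v (by
    rw [Category.assoc]
    exact hP.w), pullback.lift_snd _ _ _⟩
  let ρ' : xv Y ⟶ W' := ⟨ρ, hρ⟩
  have BX : BCmap (D.weil h) (xv X) X' (pullback.fst X.str (ptMap k₀ φ)) := by
    obtain ⟨h1, h2, h3⟩ := tBC k₀ K (D.weil h) (bridge_extra h h') X.k Y.k (xv X) X'
      (pullback.fst X.str (ptMap k₀ φ)) rfl (by rw [hφ]; exact IsPullback.of_hasPullback _ _)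
    exact ⟨h1, h2, h3⟩
  have BV : BCmap (D.weil h) (xv X ⊗ pv V) W' g := by
    obtain ⟨h1, h2, h3⟩ := tBC k₀ K (D.weil h) (bridge_extra h h') X.k Y.k (xv X ⊗ pv V) W'
      g rfl (by rw [hφ]; exact hP)
    exact ⟨h1, h2, h3⟩
  refine ⟨X', W', pullback.fst X.str (ptMap k₀ φ), g, q, ρ', q₀, rfl, hn, hq₀, BX, BV,
    pullback.lift_fst _ _ _, hcl, ?_⟩
  intro i hi u hu
  obtain ⟨z, hz, hz'⟩ := hw Y.k V' Y.X v Y.str ρ Y.n c (by
    rw [hn]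
    exact W'.isVar) Y.isVar hρ hU i hi u hu
  exact ⟨z, hz, hz'⟩

include h h' hw in
/-- The data for the triangular system, for divisors. -/
theorem exists_core [CharZero K] {t : D.CH (PSo k₀ X.k V.κ)} {κ b c₀ : ℚ}
    (Z : ZData h V t κ b c₀) (Y : PrVar k₀) (hY : V.IsSection D 1 Y) :
    ∃ (X' : Var k₀ Y.k) (gX : X'.X ⟶ X.X) (c : ℚ) (g : xv Y ⟶ X') (τ : D.H Y.X) (b' κ' : ℚ),
      X'.dim = X.n ∧ BCmap (D.weil h) (xv X) X' gX ∧ c ≠ 0 ∧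
        CoreData (weil (D.weil h) Y.k) X' (xv Y) g τ
          ((c : K) • D.pullH gX (D.cl _ (V.hX D)) : D.H X'.X) b' κ' r := by
  obtain ⟨X', W', gX, g, q, ρ, q₀, hX', hn, hq₀, BX, BV, hc, hcl, hweak⟩ :=
    exists_geo h h' hw V 1 Y hY
  rw [pow_one] at hcl
  exact ⟨X', gX, q₀, ρ ≫ q, _, _, _, hX', BX, hq₀,
    y_core q ρ BX BV hc t Z.t_mem Z.span κ Z.κ_ne Z.tr_t (V.h D)
      (V.hX D) (hX_codim h V) b Z.b_ne Z.h_eq q₀ hq₀ hcl hX' hn hweak⟩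

include h h' hw in
/-- The conjecture of Künneth type for the divisors. -/
theorem div_kunneth [CharZero K] (hX : X.KunnethConj D)
    (hL : ∀ a, a + r + 2 ≤ X.n → LeftInv D X (V.hX D) (r + 1) a) (Y : PrVar k₀)
    (hY : V.IsSection D 1 Y) : Y.KunnethConj D := by
  obtain ⟨t, κ, b, c₀, Z⟩ := exists_zData h h' V
  obtain ⟨X', gX, c, g, τ, b', κ', hdim, B, hc, C⟩ := exists_core h h' hw V Z Y hY
  refine (br_kunneth h h' Y).2 (tDual tTrp _ _ _ _ ?_)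
  refine tCore _ _ _ _ _ _ _ _ _ _ _ C (B.allPi ((br_kunneth h h' X).1 hX)) fun a ha => ?_
  refine B.linv hc ((br_left h h' X (V.hX D) (r + 1) a).1 (hL a ?_))
  rw [← hdim]
  exact ha

include h h' in
theorem kunneth_of_weil [CharZero K] (hX : HasWeilEndo D X) : X.KunnethConj D := by
  obtain ⟨F, q, hF, hq, H⟩ := hX
  refine (br_kunneth h h' X).2 (tWeil K (Var k₀ X.k) (weil (D.weil h) X.k) (xv X) ⟨F, hF⟩ q hq
    fun i => ?_)
  obtain ⟨P, h1, h2, h3⟩ := H i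
  exact ⟨P, h1, h2, h3⟩

include h h' hw in
/-- The operators for a complete intersection. -/
theorem exists_unif (hTri : StTri) (hTrH : StTrH) (hPhi : StPhi) [CharZero K] (c : ℕ)
    (hc : 1 ≤ c) (Y : PrVar k₀) (hY : V.IsSection D c Y) (h1 : X.n ≤ Y.n)
    (h2 : 2 * X.n ≤ Y.n + 3) : ∃ (X' : Var k₀ Y.k) (gX : X'.X ⟶ X.X) (g : xv Y ⟶ X')
      (τ : (weil (D.weil h) Y.k).H (xv Y)) (R : ℕ), BCmap (D.weil h) (xv X) X' gX ∧
      τ ∈ (weil (D.weil h) Y.k).Alg (xv Y) 1 ∧ UnifA (weil (D.weil h) Y.k) X' (xv Y) g τ R := by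
  obtain ⟨t, κ, b, e, Z⟩ := exists_zData h h' V
  obtain ⟨X', W', gX, g, q, ρ, q₀, hX', hn, hq₀, BX, BV, hco, hcl, hweak⟩ :=
    exists_geo h h' hw V c Y hY
  obtain ⟨d, hd⟩ : ∃ d, Y.n = X.n + d := ⟨Y.n - X.n, by omega⟩
  obtain ⟨F1, F2⟩ := y_fib q ρ BX BV hTrH hPhi hco t Z.t_mem Z.span κ Z.κ_ne Z.tr_t (V.h D)
    (V.hX D) (hX_codim h V) b Z.b_ne Z.h_eq e Z.c_ne Z.tr_h c d q₀ hq₀ hcl hX' hc
    (by change r = c + d; omega) hd (by change X.n ≤ d + 3; omega) hweak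
  exact ⟨X', gX, ρ ≫ q, _, d + 2, BX, F1.τ_alg, hTri _ _ _ _ _ _ _ _ _ F1 F2⟩

include h h' hw in
/-- The conjecture of Künneth type for complete intersections. -/
theorem sec_kunneth (hTri : StTri) (hTrH : StTrH) (hPhi : StPhi) [CharZero K] (c : ℕ)
    (hc : 1 ≤ c) (Y : PrVar k₀) (hY : V.IsSection D c Y) (h1 : X.n ≤ Y.n)
    (h2 : 2 * X.n ≤ Y.n + 3) (hX : X.KunnethConj D ∨ HasWeilEndo D X) : Y.KunnethConj D := by
  obtain ⟨X', gX, g, τ, R, B, hτ, U⟩ := exists_unif h h' hw V hTri hTrH hPhi c hc Y hY h1 h2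
  exact (br_kunneth h h' Y).2 (tDual tTrp _ _ _ _ (tPiU _ _ _ _ _ _ _ _ hτ U
    (B.allPi ((br_kunneth h h' X).1 (hX.elim id (kunneth_of_weil h h'))))))

include h h' hw in
/-- The sign conjecture for complete intersections. -/
theorem sec_sign (hTri : StTri) (hTrH : StTrH) (hPhi : StPhi) (hSgn : StSgnU) [CharZero K]
    (c : ℕ) (hc : 1 ≤ c) (Y : PrVar k₀) (hY : V.IsSection D c Y) (h1 : X.n ≤ Y.n)
    (h2 : 2 * X.n ≤ Y.n + 3) (hX : X.SignConj D) : Y.SignConj D := by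
  obtain ⟨X', gX, g, τ, R, B, hτ, U⟩ := exists_unif h h' hw V hTri hTrH hPhi c hc Y hY h1 h2
  exact (br_sign h h' Y).2 (hSgn _ _ _ _ _ _ _ _ hτ U (B.even ((br_sign h h' X).1 hX)))

end Pool.Agent.Lib.MP_4ca46c_ag.Div
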