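import Mathlib
import Pool.Agent.Lib.MP_4ca46c_ag.Div.Asm2

/-!
# Assembly: the converse, and the theorem
-/

namespace Pool.Agent.Lib.MP_4ca46c_ag.Div

open CategoryTheory Limits AlgebraicGeometry MonoidalCategory CartesianMonoidalCategory Finset
open Pool.Agent.Lib.MP_4ca46c_ag.Sign Pool.Agent.Lib.MP_4ca46c_ag.Hyp
open Pool.Agent.Lib.MP_4ca46c_ag.Std
open Geo Geo.WeilCohomology

attribute [local instance] Geo.WeilCohomology.ring Geo.WeilCohomology.algebra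
  Geo.WeilCohomology.finite Geo.WeilCohomology.graded

variable {k₀ K : Type} [Field k₀] [Field K]

theorem proj_of_allPi [CharZero K] {T : WeilTheory k₀ K} (V : PVar T)
    (H : AllPi (weil T V.k) V.var) (a : ℕ) : ProjOp k₀ K V a := by
  obtain ⟨u, ⟨c, hc, rfl⟩, h1⟩ := (weil T V.k).mem_cor_zero.1 (H a)
  refine ⟨c, hc, fun i v hv w => ?_⟩
  have h2 := (weil T V.k).op_spec (X := V.var) (Y := V.var) (T.cl V.sq c) v w
  have h3 : (weil T V.k).op (X := V.var) (Y := V.var) (T.cl V.sq c) v =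
      (weil T V.k).pi V.var a v := (LinearMap.congr_fun h1 v).symm
  rw [h3] at h2
  refine h2.symm.trans ?_
  split_ifs with hi
  · subst hi
    rw [(weil T V.k).pi_same hv]
    rfl
  · rw [(weil T V.k).pi_ne hv hi, zero_mul, map_zero]

theorem affineCompl_of {X Y U : Sch k₀} {ρ : Y ⟶ X} {j : U ⟶ X} (hU : IsComplement ρ j)
    (hUa : IsAffine U.left) : AffineCompl ρ.left 1 := by
  have h1 := hU.isOpen
  refine ⟨hU.closed, fun _ => j.left.opensRange, fun _ => isAffineOpen_opensRange j.left, ?_⟩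
  rw [← hU.compl]
  exact (Set.iUnion_const _).symm

variable {D : CohData k₀ K} (h : D.IsTheory) (h' : IsStandard D)
  {X : PrVar k₀} {r : ℕ} (V : ProdEmb X r)

include h h' in
theorem conv_rel [CharZero K] (m : ℕ) (hm : 1 ≤ m) (hn : X.n + r = m + 1)
    (hY : ∀ Y, V.IsSection D 1 Y → Y.KunnethConj D) (a : ℕ)
    (H : (weil (D.weil h) X.k).H (xv X ⊗ pv V)) (hH : H = D.cl V.Z (V.h D)) : ∃ κ : ℚ,
    ∃ u ∈ (weil (D.weil h) X.k).Alg ((xv X ⊗ pv V) ⊗ (xv X ⊗ pv V)) m,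
      ∀ i, ∀ z ∈ (weil (D.weil h) X.k).gr (xv X ⊗ pv V) i, ∀ z',
      (weil (D.weil h) X.k).tr ((xv X ⊗ pv V) ⊗ (xv X ⊗ pv V)) (u *
        (weil (D.weil h) X.k).pull (snd (xv X ⊗ pv V) (xv X ⊗ pv V)) (H * z) *
        (weil (D.weil h) X.k).pull (fst (xv X ⊗ pv V) (xv X ⊗ pv V)) (H * z')) =
          ((if i = a then 1 else 0) - (κ : K)) *
        (weil (D.weil h) X.k).tr (xv X ⊗ pv V) (H * z * z') := by
  subst hH
  obtain ⟨V', U, v', g, ρ, j, hP, hρ, hU, hUa, hcl⟩ := tGenDiv k₀ K (tAffC k₀) (D.weil h)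
    (bridge_extra h h') X.k (vp V) m hm hn
  let W : ProjVar k₀ (vp V).L := (vp V).W (bridge_extra h h') m hm hn
  have hd : V.IsSection D 1 (ofProj W) := ⟨hn.symm, IsScalarTower.toAlgHom k₀ X.k (vp V).L, V',
    v', g, ρ, hP, hρ, affineCompl_of hU hUa, 1, one_ne_zero, by
      rw [one_smul, pow_one]
      exact hcl⟩
  have hK := (kunneth_iff h h' W).1 (hY (ofProj W) hd)
  have G := (vp V).genSec (bridge_extra h h') m hm hn
  obtain ⟨κ, w, hw, H⟩ := tKeyA k₀ K (D.weil h) _ _ G a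
    (proj_of_allPi (W.toP (bridge_extra h h')) ((pv_kunneth _).1 hK) a)
  exact ⟨κ, D.cl _ w, ⟨w, hw, rfl⟩, H⟩

include h h' in
theorem conv_main [CharZero K] (hY : ∀ Y, V.IsSection D 1 Y → Y.KunnethConj D)
    (hc : 1 ≤ r ∨ X.KunnethConj D) : X.KunnethConj D ∧
      ∀ a, a + r + 2 ≤ X.n → LeftInv D X (V.hX D) (r + 1) a := by
  by_cases h0 : X.n = 0
  · exact ⟨(kunneth_iff h h' X.toProj).2 ((tEasy' k₀ K (D.weil h)
      (X.toProj.toP (bridge_extra h h'))).2.2 h0).1, fun a ha => by omega⟩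
  by_cases h1 : X.n + r ≤ 1
  · exact ⟨hc.resolve_left (by omega), fun a ha => by omega⟩
  obtain ⟨m, hn⟩ : ∃ m, X.n + r = m + 1 := ⟨X.n + r - 1, by omega⟩
  have hm : 1 ≤ m := by omega
  have key := conv_rel h h' V m hm hn hY
  obtain ⟨t, κ, b, c₀, Z⟩ := exists_zData h h' V
  refine ⟨?_, fun a ha => ?_⟩
  · by_cases hr : 1 ≤ r
    · refine (br_kunneth h h' X).2 (tConvC K (Var k₀ X.k) (weil (D.weil h) X.k) (xv X) (pv V)
        (D.cl _ t) (D.cl _ (V.hX D)) b κ m ⟨t, Z.t_mem, rfl⟩ ⟨V.hX D, hX_codim h V, rfl⟩ Z.b_ne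
        Z.κ_ne hr hn Z.tr_t fun a => key a _ Z.h_eq.symm)
    · exact hc.resolve_left hr
  · refine (br_left h h' X (V.hX D) (r + 1) a).2 (tConv K (Var k₀ X.k) (weil (D.weil h) X.k)
      (xv X) (pv V) (D.cl _ t) (D.cl _ (V.hX D)) b κ a ⟨t, Z.t_mem, rfl⟩
      ⟨V.hX D, hX_codim h V, rfl⟩ Z.b_ne Z.κ_ne Z.tr_t ?_)
    obtain ⟨κ', u, hu, H⟩ := key (a + 2 * r) _ rfl
    obtain ⟨s, hs, hs'⟩ := tLeft tTrp K (Var k₀ X.k) (weil (D.weil h) X.k) (xv X ⊗ pv V)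
      (D.cl V.Z (V.h D)) m (a + 2 * r) κ' u hn ⟨V.h D, h_codim h V, rfl⟩ (hl h h' V) (by omega)
      hu H
    refine ⟨s, hs, ?_⟩
    rw [Z.h_eq] at hs'
    exact hs'

variable (hw : WeakLefschetz D)

include h h' hw in
/-- **The theorem.** -/
theorem final_div (hTri : StTri) (hTrH : StTrH) (hPhi : StPhi) (hSgn : StSgnU) :
    ((1 ≤ r ∨ X.KunnethConj D) → ((∀ Y, V.IsSection D 1 Y → Y.KunnethConj D) ↔
      X.KunnethConj D ∧ ∀ a, a + r + 2 ≤ X.n → LeftInv D X (V.hX D) (r + 1) a)) ∧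
    ∀ c Y, 1 ≤ c → V.IsSection D c Y → X.n ≤ Y.n → 2 * X.n ≤ Y.n + 3 →
      (X.KunnethConj D ∨ HasWeilEndo D X → Y.KunnethConj D) ∧ (X.SignConj D → Y.SignConj D) := by
  have : CharZero K := charZero_of_extra (D.weil h) (bridge_extra h h')
  exact ⟨fun hc => ⟨fun hY => conv_main h h' V hY hc,
    fun hX Y hY => div_kunneth h h' hw V hX.1 hX.2 Y hY⟩,
    fun c Y hc hY h1 h2 => ⟨sec_kunneth h h' hw V hTri hTrH hPhi c hc Y hY h1 h2,
      sec_sign h h' hw V hTri hTrH hPhi hSgn c hc Y hY h1 h2⟩⟩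

end Pool.Agent.Lib.MP_4ca46c_ag.Div
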