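import Mathlib
import Pool.Agent.Lib.MP_4ca46c_ag.Div.Spec

/-!
# The converse for left inverses
-/

namespace Pool.Agent.Lib.MP_4ca46c_ag.Div

open CategoryTheory Limits AlgebraicGeometry MonoidalCategory CartesianMonoidalCategory Finset
open Pool.Agent.Lib.MP_4ca46c_ag.Sign Pool.Agent.Lib.MP_4ca46c_ag.Hyp
open Pool.Agent.Lib.MP_4ca46c_ag.Std

theorem conv_pow_gr {K : Type} [Field K] [CharZero K] {𝒱 : Type 1} [Category.{0} 𝒱]
    [CartesianMonoidalCategory 𝒱] (W : Geo.WeilCohomology K 𝒱) {P : 𝒱} {t : W.H P}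
    (ht : t ∈ W.Alg P 1) (l : ℕ) : t ^ l ∈ W.gr P (2 * l) := by
  induction l with
  | zero => rw [pow_zero]; exact SetLike.one_mem_graded (W.gr P)
  | succ l ih =>
    rw [pow_succ, show 2 * (l + 1) = 2 * l + 2 * 1 by ring]
    exact SetLike.mul_mem_graded ih (W.alg_gr ht)

theorem conv_push_fst {K : Type} [Field K] [CharZero K] {𝒱 : Type 1} [Category.{0} 𝒱]
    [CartesianMonoidalCategory 𝒱] (W : Geo.WeilCohomology K 𝒱) {X P : 𝒱} (y : W.H X) (q : W.H P) :
    W.push (fst X P) (W.tm y q) = W.tr P q • y := by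
  refine W.push_eq _ _ _ fun y' => ?_
  rw [Geo.WeilCohomology.tm, W.tr_snd, smul_mul_assoc, map_smul, smul_eq_mul, mul_comm]

theorem tConv : StConv := by
  intro K _ _ 𝒱 _ _ W X P t d b κ a ht hd hb hκ htr ⟨w, hw, hwz⟩
  set r := W.dim P with hr
  have htg : ∀ l, t ^ l ∈ W.gr P (2 * l) := conv_pow_gr W ht
  have hdg : ∀ l, d ^ l ∈ W.gr X (2 * l) := conv_pow_gr W hd
  have hbK : ((b : ℚ) : K) ≠ 0 := by exact_mod_cast hb
  have hκK : ((κ : ℚ) : K) ≠ 0 := by exact_mod_cast hκ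
  set H := W.tm d 1 + (b : K) • W.tm 1 t with hH
  -- the element φ x
  have hφ : ∀ x ∈ W.gr X a, ∃ φ ∈ W.gr (X ⊗ P) (a + 2 * r),
      H * φ = W.tm (d ^ (r + 1) * x) 1 ∧ W.push (fst X P) φ = ((-(b : K)) ^ r * (κ : K)) • x := by
    intro x hx
    have hdx : ∀ l, d ^ l * x ∈ W.gr X (2 * l + a) := fun l => SetLike.mul_mem_graded (hdg l) hx
    refine ⟨∑ l ∈ range (r + 1), ((-(b : K)) ^ l) • W.tm (d ^ (r - l) * x) (t ^ l), ?_, ?_, ?_⟩
    · refine Submodule.sum_mem _ fun l hl => Submodule.smul_mem _ _ ?_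
      have hl' : l ≤ r := Nat.lt_succ_iff.1 (mem_range.1 hl)
      have := W.tm_gr (hdx (r - l)) (htg l)
      rwa [show 2 * (r - l) + a + 2 * l = a + 2 * r by omega] at this
    · have key : ∀ l ∈ range (r + 1), H * (((-(b : K)) ^ l) • W.tm (d ^ (r - l) * x) (t ^ l)) =
          ((-(b : K)) ^ l) • W.tm (d ^ (r + 1 - l) * x) (t ^ l) -
            ((-(b : K)) ^ (l + 1)) • W.tm (d ^ (r + 1 - (l + 1)) * x) (t ^ (l + 1)) := by
        intro l hl
        have hl' : l ≤ r := Nat.lt_succ_iff.1 (mem_range.1 hl)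
        have h1 : W.tm d (1 : W.H P) * W.tm (d ^ (r - l) * x) (t ^ l) =
            W.tm (d ^ (r + 1 - l) * x) (t ^ l) := by
          rw [W.tm_mul d (t ^ l) (SetLike.one_mem_graded (W.gr P)) (hdx (r - l)), zero_mul,
            pow_zero, one_smul, one_mul, ← mul_assoc, ← pow_succ',
            show r - l + 1 = r + 1 - l by omega]
        have h2 : W.tm (1 : W.H X) t * W.tm (d ^ (r - l) * x) (t ^ l) =
            W.tm (d ^ (r - l) * x) (t ^ (l + 1)) := by
          rw [W.tm_mul (1 : W.H X) (t ^ l) (W.alg_gr ht) (hdx (r - l)), mul_assoc,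
            pow_mul, neg_one_sq, one_pow, one_smul, one_mul, ← pow_succ']
        rw [mul_smul_comm, hH, add_mul, smul_mul_assoc, h1, h2, smul_add, smul_smul,
          Nat.add_sub_add_right, sub_eq_add_neg, ← neg_smul]
        congr 2
        rw [pow_succ]
        ring
      rw [mul_sum, sum_congr rfl key, sum_range_sub' (fun l => ((-(b : K)) ^ l) •
        W.tm (d ^ (r + 1 - l) * x) (t ^ l))]
      have h0 : t ^ (r + 1) = 0 := W.gr_top (htg (r + 1)) (by omega)
      rw [h0, W.tm_zero_right, smul_zero, sub_zero, pow_zero, one_smul, pow_zero, Nat.sub_zero]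
    · rw [map_sum, sum_eq_single_of_mem r (mem_range.2 (Nat.lt_succ_self r))]
      · rw [map_smul, conv_push_fst, htr, smul_smul, Nat.sub_self, pow_zero, one_mul]
      · intro l hl hlr
        have hl' : l ≤ r := Nat.lt_succ_iff.1 (mem_range.1 hl)
        rw [map_smul, conv_push_fst, W.tr_gr (htg l) (by omega), zero_smul, smul_zero]
  -- the left inverse
  have hcQ : ((((-b) ^ r * κ)⁻¹ : ℚ) : K) = ((-(b : K)) ^ r * (κ : K))⁻¹ := by push_cast; rfl
  have hcne : ((-(b : K)) ^ r * (κ : K)) ≠ 0 := mul_ne_zero (pow_ne_zero _ (neg_ne_zero.2 hbK)) hκK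
  refine ⟨((((-b) ^ r * κ)⁻¹ : ℚ) : K) •
    (W.push (fst X P) ∘ₗ w ∘ₗ (W.pull (fst X P)).toLinearMap), ?_, ?_⟩
  · apply W.cor_rat
    have h1 := W.cor_comp (W.cor_push (fst X P)) (W.cor_comp hw (W.cor_pull (fst X P)))
    have e : ((W.dim X : ℤ) - W.dim (X ⊗ P)) + (-1 + 0) = -((W.dim P + 1 : ℕ) : ℤ) := by
      rw [W.dim_tensor]
      push_cast
      ring
    rw [e] at h1
    exact h1
  · intro x hx
    obtain ⟨φ, hφg, hφ1, hφ2⟩ := hφ x hx
    have h1 := hwz φ hφg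
    rw [hφ1] at h1
    have h2 : W.tm (d ^ (r + 1) * x) (1 : W.H P) = W.pull (fst X P) (d ^ (r + 1) * x) := by
      rw [Geo.WeilCohomology.tm, map_one, mul_one]
    rw [h2] at h1
    rw [LinearMap.smul_apply, LinearMap.comp_apply, LinearMap.comp_apply]
    change _ • W.push (fst X P) (w (W.pull (fst X P) (d ^ (r + 1) * x))) = x
    rw [h1, hφ2, smul_smul, hcQ, inv_mul_cancel₀ hcne, one_smul]

end Pool.Agent.Lib.MP_4ca46c_ag.Div
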