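import Pool.Agent.Lib.MP_4ca46c_ag.Div.Spec3
import Pool.Agent.Lib.MP_4ca46c_ag.Div.Core

/-!
# From the total space to the base
-/

set_option autoImplicit false

namespace Pool.Agent.Lib.MP_4ca46c_ag.Div

open CategoryTheory Limits AlgebraicGeometry MonoidalCategory CartesianMonoidalCategory Finset
open Pool.Agent.Lib.MP_4ca46c_ag.Sign Pool.Agent.Lib.MP_4ca46c_ag.Hyp
open Pool.Agent.Lib.MP_4ca46c_ag.Std

theorem tDown : StDown := by
  intro K _ _ 𝒱 _ _ W X Y g τ q d hτ hq hdim hpush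
  have hqK : (q : K) ≠ 0 := Rat.cast_ne_zero.2 hq
  have hproj : ∀ x, W.push g (τ ^ d * W.pull g x) = (q : K) • x := by
    intro x
    refine W.push_eq _ _ _ fun y => ?_
    rw [mul_assoc, ← map_mul, ← W.push_spec, hpush, smul_mul_assoc, smul_mul_assoc, one_mul]
  have key : ∀ (p : W.H Y →ₗ[K] W.H Y) (p' : W.H X →ₗ[K] W.H X), p ∈ W.Cor Y Y 0 →
      (∀ x, p (W.pull g x) = W.pull g (p' x)) → p' ∈ W.Cor X X 0 := by
    intro p p' hp h
    have h1 : p' = ((q⁻¹ : ℚ) : K) • (W.push g ∘ₗ LinearMap.mulLeft K (τ ^ d) ∘ₗ p ∘ₗ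
        (W.pull g).toLinearMap) := by
      refine LinearMap.ext fun x => ?_
      have h2 : (W.push g ∘ₗ LinearMap.mulLeft K (τ ^ d) ∘ₗ p ∘ₗ
        (W.pull g).toLinearMap) x = W.push g (τ ^ d * p (W.pull g x)) := rfl
      rw [LinearMap.smul_apply, h2, h, hproj, smul_smul, Rat.cast_inv, inv_mul_cancel₀ hqK,
        one_smul]
    rw [h1]
    refine W.cor_rat ?_ _
    refine core_cast W (W.cor_comp (W.cor_push g) (W.cor_comp
      (W.cor_mul (core_alg_pow W hτ d)) (W.cor_comp hp (W.cor_pull g)))) ?_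
    rw [hdim]
    push_cast
    ring
  refine ⟨fun h a => key _ _ (h a) fun x => ?_, fun h => key _ _ h fun x => ?_⟩
  · have h3 : W.pi Y a ∘ₗ (W.pull g).toLinearMap = (W.pull g).toLinearMap ∘ₗ W.pi X a := by
      refine W.hom_ext fun i x hx => ?_
      change W.pi Y a (W.pull g x) = W.pull g (W.pi X a x)
      by_cases hi : i = a
      · subst hi
        rw [W.pi_same hx, W.pi_same (W.pull_gr g hx)]
      · rw [W.pi_ne hx hi, W.pi_ne (W.pull_gr g hx) hi, map_zero]
    exact LinearMap.congr_fun h3 x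
  · have h3 : W.even Y ∘ₗ (W.pull g).toLinearMap = (W.pull g).toLinearMap ∘ₗ W.even X := by
      refine W.hom_ext fun i x hx => ?_
      change W.even Y (W.pull g x) = W.pull g (W.even X x)
      rcases Nat.even_or_odd i with hi | hi
      · rw [W.even_even hx hi, W.even_even (W.pull_gr g hx) hi]
      · rw [W.even_odd hx hi, W.even_odd (W.pull_gr g hx) hi, map_zero]
    exact LinearMap.congr_fun h3 x

end Pool.Agent.Lib.MP_4ca46c_ag.Div
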