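import Mathlib
import Pool.Agent.Lib.MP_4ca46c_ag.Div.Abs
import Pool.Agent.Lib.MP_4ca46c_ag.Div.Spec3

/-!
# The class for the condition `Edge`
-/

namespace Pool.Agent.Lib.MP_4ca46c_ag.Div

open CategoryTheory Limits AlgebraicGeometry MonoidalCategory CartesianMonoidalCategory Finset
open Pool.Agent.Lib.MP_4ca46c_ag.Sign Pool.Agent.Lib.MP_4ca46c_ag.Hyp
open Pool.Agent.Lib.MP_4ca46c_ag.Std
open Geo Geo.WeilCohomology

attribute [local instance] Geo.WeilCohomology.ring Geo.WeilCohomology.algebra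
  Geo.WeilCohomology.finite Geo.WeilCohomology.graded

/-- the coefficients of the product -/
theorem phi_coeff (b : ℚ) (c d l : ℕ) (P : Polynomial ℚ) (hP : P.natDegree ≤ d + 1)
    (hl : l ≤ c + d) :
    (∑ k ∈ range (d + 2), if k + l ≤ c + d then
      P.coeff k * ((c.choose (c + d - (k + l)) : ℚ) * b ^ (c + d - (k + l))) else 0) =
    ((1 + Polynomial.C b * Polynomial.X) ^ c * P).coeff (c + d - l) := by
  have hQ : ∀ m : ℕ, ((1 + Polynomial.C b * Polynomial.X) ^ c : Polynomial ℚ).coeff m =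
      (c.choose m : ℚ) * b ^ m := by
    intro m
    have h1 : ((1 + Polynomial.C b * Polynomial.X) ^ c : Polynomial ℚ) =
        ((1 + Polynomial.X) ^ c : Polynomial ℚ).comp (Polynomial.C b * Polynomial.X) := by
      simp
    rw [h1, Polynomial.comp_C_mul_X_coeff, Polynomial.coeff_one_add_X_pow]
  rw [mul_comm, Polynomial.coeff_mul,
    Finset.Nat.sum_antidiagonal_eq_sum_range_succ (fun i j => P.coeff i *
      ((1 + Polynomial.C b * Polynomial.X) ^ c : Polynomial ℚ).coeff j)]
  have h2 : ∀ k : ℕ, d + 1 < k → P.coeff k = 0 := fun k hk =>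
    Polynomial.coeff_eq_zero_of_natDegree_lt (by omega)
  rw [← Finset.sum_filter]
  have h3 : ∑ k ∈ range (c + d - l).succ, P.coeff k *
      ((1 + Polynomial.C b * Polynomial.X) ^ c : Polynomial ℚ).coeff (c + d - l - k) =
      ∑ k ∈ (range (c + d - l).succ).filter (fun k => k < d + 2), P.coeff k *
      ((1 + Polynomial.C b * Polynomial.X) ^ c : Polynomial ℚ).coeff (c + d - l - k) := by
    symm
    apply Finset.sum_subset (Finset.filter_subset _ _)
    intro k hk hk2
    rw [Finset.mem_filter, not_and] at hk2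
    have := hk2 hk
    rw [h2 k (by omega), zero_mul]
  rw [h3]
  have h4 : (range (d + 2)).filter (fun k => k + l ≤ c + d) =
      (range (c + d - l).succ).filter (fun k => k < d + 2) := by
    ext k
    simp only [Finset.mem_filter, Finset.mem_range]
    omega
  rw [h4]
  refine Finset.sum_congr rfl fun k hk => ?_
  rw [hQ]
  have e : c + d - l - k = c + d - (k + l) := by omega
  rw [e]

theorem tPhi (h1 : StPoly) (h2 : StTrH) : StPhi := by
  intro K _ _ 𝒱 _ _ W X P t D b κ e c d htA hDA hb hκ0 he0 hc hdP hdX htr htrX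
  have ht : t ∈ W.gr P 2 := W.alg_gr htA
  have hD : D ∈ W.gr X 2 := W.alg_gr hDA
  obtain ⟨Q, hQ1, hQ2, hQ3⟩ := h1 b c (c + d) hb hc (by omega)
  have hQ1' : Q.natDegree ≤ d + 1 := by omega
  have hpowX : ∀ m : ℕ, D ^ m ∈ W.Alg X m := by
    intro m
    induction m with
    | zero => rw [pow_zero]; exact W.alg_one X
    | succ m ih => rw [pow_succ]; exact W.alg_mul ih hDA
  have hpowP : ∀ m : ℕ, t ^ m ∈ W.Alg P m := by
    intro m
    induction m with
    | zero => rw [pow_zero]; exact W.alg_one P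
    | succ m ih => rw [pow_succ]; exact W.alg_mul ih htA
  -- the trace
  have key : ∀ (l : ℕ) (x : W.H X), l ≤ d + 1 →
      W.tr (X ⊗ P) ((W.tm D 1 + (b : K) • W.tm 1 t) ^ c *
        ((∑ k ∈ range (d + 2), ((Q.coeff k : ℚ) : K) • W.tm (D ^ (d + 2 - k)) (t ^ k)) *
          W.tm x (t ^ l))) =
      ((((1 + Polynomial.C b * Polynomial.X) ^ c * Q).coeff (c + d - l) : ℚ) : K) *
        ((κ : K) * W.tr X (D ^ (l + 2) * x)) := by
    intro l x hl
    rw [← phi_coeff b c d l Q hQ1' (by omega), Finset.sum_mul, Finset.mul_sum, map_sum,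
      Rat.cast_sum, Finset.sum_mul]
    refine Finset.sum_congr rfl fun k hk => ?_
    rw [Finset.mem_range] at hk
    have e1 : W.tm (D ^ (d + 2 - k)) (t ^ k) * W.tm x (t ^ l) =
        W.tm (D ^ (d + 2 - k) * x) (t ^ (k + l)) := by
      have h := abs_tm_mul W (D ^ (d + 2 - k)) (q := t ^ k) x (t ^ l) (i := k) (abs_pow W ht _)
      rw [← pow_add] at h
      exact h
    rw [smul_mul_assoc, e1, mul_smul_comm, map_smul, smul_eq_mul]
    by_cases hkl : k + l ≤ c + d
    · rw [if_pos hkl, h2 K 𝒱 W X P t D (b : K) (κ : K) ht hD htr c (k + l)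
        (D ^ (d + 2 - k) * x) (by omega), hdP]
      by_cases hle : c + d ≤ c + (k + l)
      · rw [if_pos hle, ← mul_assoc (D ^ _) (D ^ _), ← pow_add]
        have e2 : c + (k + l) - (c + d) + (d + 2 - k) = l + 2 := by omega
        rw [e2]
        push_cast
        ring
      · rw [if_neg hle, Nat.choose_eq_zero_of_lt (show c < c + d - (k + l) by omega)]
        simp
    · rw [if_neg hkl]
      have e2 : t ^ (k + l) = 0 := W.gr_top (abs_pow W ht (k + l)) (by omega)
      rw [e2, W.tm_zero_right]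
      simp
  refine ⟨∑ k ∈ range (d + 2), ((Q.coeff k : ℚ) : K) • W.tm (D ^ (d + 2 - k)) (t ^ k), ?_, ?_, ?_⟩
  · refine AddSubgroup.sum_mem _ fun k hk => W.alg_rat _ ?_
    rw [Finset.mem_range] at hk
    have h := W.tm_alg (hpowX (d + 2 - k)) (hpowP k)
    have e1 : d + 2 - k + k = d + 2 := by omega
    rwa [e1] at h
  · intro l hl x
    rw [key l x (by omega), hQ2 (c + d - l) (by omega) (by omega), Rat.cast_zero, zero_mul]
  · rw [key (d + 1) 1 (le_refl _)]
    have e1 : c + d - (d + 1) = c - 1 := by omega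
    rw [e1, mul_one]
    have e2 : W.tr X (D ^ (d + 1 + 2)) = (e : K) := by
      rw [← htrX, hdX]
    rw [e2]
    refine mul_ne_zero ?_ (mul_ne_zero ?_ ?_)
    · exact_mod_cast hQ3
    · exact_mod_cast hκ0
    · exact_mod_cast he0

end Pool.Agent.Lib.MP_4ca46c_ag.Div
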