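import Pool.Agent.Lib.MP_4ca46c_ag.Div.Spec3

/-!
# A polynomial over the rational numbers
-/

set_option autoImplicit false

namespace Pool.Agent.Lib.MP_4ca46c_ag.Div

open Polynomial

private lemma Poly_deg (b : ℚ) (hb : b ≠ 0) : (1 + C b * X : ℚ[X]).natDegree = 1 := by
  have h : (1 + C b * X : ℚ[X]) = C b * X + C 1 := by rw [C_1]; ring
  rw [h]
  exact natDegree_linear hb

theorem tPoly : StPoly := by
  intro b c N hb hc hcN
  have hdeg := Poly_deg b hb
  have hQ1 : (1 + C b * X : ℚ[X]) ≠ 0 := by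
    intro h
    rw [h, natDegree_zero] at hdeg
    exact absurd hdeg (by norm_num)
  obtain ⟨Q, hQ⟩ : ∃ Q : ℚ[X], Q = (1 + C b * X) ^ c := ⟨_, rfl⟩
  have hQ0 : Q ≠ 0 := by rw [hQ]; exact pow_ne_zero _ hQ1
  have hQd : Q.natDegree = c := by rw [hQ, natDegree_pow, hdeg, mul_one]
  have hQd' : Q.degree = (c : WithBot ℕ) := by rw [degree_eq_natDegree hQ0, hQd]
  obtain ⟨P, hP⟩ : ∃ P : ℚ[X], P = X ^ (N + 1) / Q := ⟨_, rfl⟩
  obtain ⟨R, hR⟩ : ∃ R : ℚ[X], R = X ^ (N + 1) % Q := ⟨_, rfl⟩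
  have hdiv : Q * P + R = X ^ (N + 1) := by rw [hP, hR]; exact EuclideanDomain.div_add_mod _ _
  have hQP : Q * P = X ^ (N + 1) - R := by rw [← hdiv]; ring
  have hRd : R.degree < (c : WithBot ℕ) := by
    rw [hR, ← hQd']
    exact EuclideanDomain.mod_lt _ hQ0
  have hRc : ∀ j, c ≤ j → R.coeff j = 0 := fun j hj =>
    coeff_eq_zero_of_degree_lt (hRd.trans_le (by exact_mod_cast hj))
  rw [← hQ]
  refine ⟨P, ?_, ?_, ?_⟩
  · by_cases hP0 : P = 0
    · rw [hP0, natDegree_zero]; exact Nat.zero_le _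
    · have h1 : (Q * P).natDegree ≤ N + 1 := by
        rw [hQP]
        refine (natDegree_sub_le _ _).trans (max_le (by rw [natDegree_X_pow]) ?_)
        have h2 : R.natDegree ≤ c := natDegree_le_of_degree_le hRd.le
        omega
      rw [natDegree_mul hQ0 hP0, hQd] at h1
      omega
  · intro j hj1 hj2
    rw [hQP, coeff_sub, hRc j hj1, coeff_X_pow, if_neg (by omega), sub_zero]
  · intro h0
    rw [hQP, coeff_sub, coeff_X_pow, if_neg (by omega), zero_sub, neg_eq_zero] at h0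
    have h1 : R.degree < ((c - 1 : ℕ) : WithBot ℕ) := by
      rw [degree_lt_iff_coeff_zero]
      intro m hm
      by_cases h : m = c - 1
      · rw [h]; exact h0
      · exact hRc m (by omega)
    have h2 : derivative^[c - 1] R = 0 := by
      by_cases hR0 : R = 0
      · rw [hR0, iterate_derivative_zero]
      · exact iterate_derivative_eq_zero ((natDegree_lt_iff_degree_lt hR0).2 h1)
    have h3 : (1 + C b * X : ℚ[X]) ^ c ∣ X ^ (N + 1) - R := by
      rw [← hQ, ← hQP]; exact dvd_mul_right _ _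
    have h4 := pow_sub_dvd_iterate_derivative_of_pow_dvd (c - 1) h3
    rw [iterate_derivative_sub, h2, sub_zero, show c - (c - 1) = 1 by omega, pow_one] at h4
    obtain ⟨S, hS⟩ := h4
    have h5 := congrArg (fun p : ℚ[X] => p.eval (-b⁻¹)) hS
    rw [iterate_derivative_X_pow_eq_natCast_mul] at h5
    simp only [eval_mul, eval_pow, eval_X, eval_natCast, eval_add, eval_one, eval_C] at h5
    rw [show (1 : ℚ) + b * -b⁻¹ = 0 by field_simp; ring, zero_mul] at h5
    have h6 : ((N + 1).descFactorial (c - 1) : ℚ) ≠ 0 := by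
      rw [Nat.cast_ne_zero]
      exact (Nat.descFactorial_pos.2 (by omega)).ne'
    have h7 : (-b⁻¹) ^ (N + 1 - (c - 1)) ≠ 0 := pow_ne_zero _ (neg_ne_zero.2 (inv_ne_zero hb))
    exact mul_ne_zero h6 h7 h5

end Pool.Agent.Lib.MP_4ca46c_ag.Div
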