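import Pool.Agent.Lib.MP_4ca46c_ag.Div.Spec3
import Pool.Agent.Lib.MP_4ca46c_ag.Div.Sgn

/-!
# The sign conjecture for the total space
-/

set_option autoImplicit false

namespace Pool.Agent.Lib.MP_4ca46c_ag.Div

open CategoryTheory Limits AlgebraicGeometry MonoidalCategory CartesianMonoidalCategory Finset
open Pool.Agent.Lib.MP_4ca46c_ag.Sign Pool.Agent.Lib.MP_4ca46c_ag.Hyp
open Pool.Agent.Lib.MP_4ca46c_ag.Std

theorem tSgnU (h2 : StTrp) : StSgnU := by
  intro K _ _ 𝒱 _ _ W X Y g τ R hτ1 hU hE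
  obtain ⟨A, hA1, hA2⟩ := hU
  obtain ⟨m, hm⟩ : ∃ m, m = W.dim Y := ⟨_, rfl⟩
  obtain ⟨e, he, he0, he1⟩ := sgn_e W hE m
  have hτ : ∀ l : ℕ, τ ^ l ∈ W.Alg Y l := by
    intro l
    induction l with
    | zero => rw [pow_zero]; exact W.alg_one Y
    | succ l ih => rw [pow_succ]; exact W.alg_mul ih hτ1
  -- the operator `B`
  obtain ⟨B, hB⟩ : ∃ B : W.H Y →ₗ[K] W.H Y, B = ∑ l ∈ range R,
      LinearMap.mulLeft K (τ ^ l) ∘ₗ (W.pull g).toLinearMap ∘ₗ e ∘ₗ A l := ⟨_, rfl⟩
  have hBc : B ∈ W.Cor Y Y 0 := by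
    rw [hB]
    refine AddSubgroup.sum_mem _ fun l _ => ?_
    refine sgn_cast W (W.cor_comp (W.cor_mul (hτ l))
      (W.cor_comp (W.cor_pull g) (W.cor_comp he (hA1 l)))) ?_
    ring
  have hBa : ∀ y, B y = ∑ l ∈ range R, τ ^ l * W.pull g (e (A l y)) := by
    intro y
    rw [hB, LinearMap.sum_apply]
    rfl
  have hpar : ∀ i l : ℕ, 2 * l ≤ i → (Even (i - 2 * l) ↔ Even i) := by
    intro i l h
    rw [Nat.even_sub h]
    simp
  have hB0 : ∀ i y, y ∈ W.gr Y i → (Even i ↔ Even m) → B y = 0 := by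
    intro i y hy hi
    rw [hBa]
    refine Finset.sum_eq_zero fun l _ => ?_
    have h3 : e (A l y) = 0 := by
      by_cases h4 : 2 * l ≤ i
      · exact he0 (i - 2 * l) _ (W.cor_gr (hA1 l) hy (by omega)) ((hpar i l h4).trans hi)
      · rw [W.cor_gr_zero (hA1 l) hy (by omega), map_zero]
    rw [h3, map_zero, mul_zero]
  have hB1 : ∀ i y, y ∈ W.gr Y i → ¬ (Even i ↔ Even m) → i < m → B y = y := by
    intro i y hy hi him
    conv_rhs => rw [hA2 i (hm ▸ him) y hy]
    rw [hBa]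
    refine Finset.sum_congr rfl fun l _ => ?_
    have h3 : e (A l y) = A l y := by
      by_cases h4 : 2 * l ≤ i
      · exact he1 (i - 2 * l) _ (W.cor_gr (hA1 l) hy (by omega))
          (fun h => hi ((hpar i l h4).symm.trans h))
      · rw [W.cor_gr_zero (hA1 l) hy (by omega), map_zero]
    rw [h3]
  -- the transpose
  obtain ⟨B', hBc', hBt⟩ := h2 K 𝒱 W Y 0 B hBc
  have hBg : ∀ i y, y ∈ W.gr Y i → B y ∈ W.gr Y i := fun i y hy =>
    W.cor_gr hBc hy (by omega)
  have hBg' : ∀ i y, y ∈ W.gr Y i → B' y ∈ W.gr Y i := fun i y hy =>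
    W.cor_gr hBc' hy (by omega)
  have hpar2 : ∀ i k : ℕ, i + k = 2 * m → (Even k ↔ Even i) := by
    intro i k h
    have h3 : Even (i + k) := by rw [h]; exact even_two_mul m
    exact (Nat.even_add.1 h3).symm
  have hB0' : ∀ i y, y ∈ W.gr Y i → (Even i ↔ Even m) → B' y = 0 := by
    intro i y hy hi
    refine W.ext_tr fun y' => ?_
    rw [hBt, zero_mul, map_zero]
    refine W.ind (P := fun y' => W.tr Y (y * B y') = 0) y' (by simp) (fun k z hz => ?_)
      (fun a c ha hc => by simp only [map_add, mul_add, ha, hc, add_zero])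
    by_cases h3 : i + k = 2 * m
    · rw [hB0 k z hz ((hpar2 i k h3).trans hi), mul_zero, map_zero]
    · exact W.tr_gr (SetLike.mul_mem_graded hy (hBg k z hz)) (hm ▸ h3)
  have hB1' : ∀ i y, y ∈ W.gr Y i → ¬ (Even i ↔ Even m) → m < i → B' y = y := by
    intro i y hy hi him
    refine W.ext_tr fun y' => ?_
    rw [hBt]
    refine W.ind (P := fun y' => W.tr Y (y * B y') = W.tr Y (y * y')) y' (by simp)
      (fun k z hz => ?_) (fun a c ha hc => by simp only [map_add, mul_add, ha, hc])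
    by_cases h3 : i + k = 2 * m
    · rw [hB1 k z hz (fun h => hi ((hpar2 i k h3).symm.trans h)) (by omega)]
    · rw [W.tr_gr (SetLike.mul_mem_graded hy (hBg k z hz)) (hm ▸ h3),
        W.tr_gr (SetLike.mul_mem_graded hy hz) (hm ▸ h3)]
  -- the projector onto the part of the parity of `m`
  obtain ⟨C, hC⟩ : ∃ C : W.H Y →ₗ[K] W.H Y, C = (LinearMap.id - B) ∘ₗ (LinearMap.id - B') :=
    ⟨_, rfl⟩
  have hCc : C ∈ W.Cor Y Y 0 := by
    rw [hC]
    refine sgn_cast W (W.cor_comp (AddSubgroup.sub_mem _ (W.cor_id Y) hBc)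
      (AddSubgroup.sub_mem _ (W.cor_id Y) hBc')) (by ring)
  have hCa : ∀ y, C y = (y - B' y) - B (y - B' y) := by
    intro y
    rw [hC]
    rfl
  have hC1 : ∀ i y, y ∈ W.gr Y i → (Even i ↔ Even m) → C y = y := by
    intro i y hy hi
    rw [hCa, hB0' i y hy hi, sub_zero, hB0 i y hy hi, sub_zero]
  have hC0 : ∀ i y, y ∈ W.gr Y i → ¬ (Even i ↔ Even m) → C y = 0 := by
    intro i y hy hi
    rw [hCa]
    rcases lt_trichotomy i m with h3 | h3 | h3
    · rw [hB1 i _ (Submodule.sub_mem _ hy (hBg' i y hy)) hi h3, sub_self]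
    · exact absurd (by rw [h3]) hi
    · rw [hB1' i y hy hi h3, sub_self, map_zero, sub_zero]
  by_cases hmE : Even m
  · have h3 : W.even Y = C := by
      refine W.hom_ext fun i y hy => ?_
      by_cases hi : Even i
      · rw [W.even_even hy hi, hC1 i y hy ⟨fun _ => hmE, fun _ => hi⟩]
      · rw [W.even_odd hy (Nat.not_even_iff_odd.1 hi), hC0 i y hy (fun h => hi (h.2 hmE))]
    rw [h3]
    exact hCc
  · have h3 : W.even Y = LinearMap.id - C := by
      refine W.hom_ext fun i y hy => ?_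
      rw [LinearMap.sub_apply, LinearMap.id_apply]
      by_cases hi : Even i
      · rw [W.even_even hy hi, hC0 i y hy (fun h => hmE (h.1 hi)), sub_zero]
      · rw [W.even_odd hy (Nat.not_even_iff_odd.1 hi),
          hC1 i y hy ⟨fun h => absurd h hi, fun h => absurd h hmE⟩, sub_self]
    rw [h3]
    exact AddSubgroup.sub_mem _ (W.cor_id Y) hCc

end Pool.Agent.Lib.MP_4ca46c_ag.Div
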