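import Mathlib
import Pool.Agent.Lib.MP_4ca46c_ag.Div.Abs
import Pool.Agent.Lib.MP_4ca46c_ag.Div.Spec3

/-!
# Traces on `X × P`
-/

namespace Pool.Agent.Lib.MP_4ca46c_ag.Div

open CategoryTheory Limits AlgebraicGeometry MonoidalCategory CartesianMonoidalCategory Finset
open Pool.Agent.Lib.MP_4ca46c_ag.Sign Pool.Agent.Lib.MP_4ca46c_ag.Hyp
open Pool.Agent.Lib.MP_4ca46c_ag.Std
open Geo Geo.WeilCohomology

attribute [local instance] Geo.WeilCohomology.ring Geo.WeilCohomology.algebra
  Geo.WeilCohomology.finite Geo.WeilCohomology.graded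

theorem tTrH : StTrH := by
  intro K _ _ 𝒱 _ _ W X P t D b κ ht _hD hκ c j x hj
  have one_gr : (1 : W.H P) ∈ W.gr P (2 * 0) := SetLike.GradedOne.one_mem (A := W.gr P)
  have hc1 : W.tm D (1 : W.H P) * W.tm (1 : W.H X) t = W.tm D t := by
    have h := abs_tm_mul W D (q := (1 : W.H P)) (1 : W.H X) t (i := 0) one_gr
    rw [mul_one, one_mul] at h
    exact h
  have hc2 : W.tm (1 : W.H X) t * W.tm D (1 : W.H P) = W.tm D t := by
    have h := abs_tm_mul W (1 : W.H X) (q := t) D (1 : W.H P) (i := 1) ht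
    rw [one_mul, mul_one] at h
    exact h
  have hcomm : Commute (W.tm D (1 : W.H P)) (b • W.tm (1 : W.H X) t) := by
    unfold Commute SemiconjBy
    rw [mul_smul_comm, smul_mul_assoc, hc1, hc2]
  have hp1 : ∀ m : ℕ, W.tm D (1 : W.H P) ^ m = W.tm (D ^ m) (1 : W.H P) := by
    intro m
    unfold Geo.WeilCohomology.tm
    rw [map_one, mul_one, mul_one, map_pow]
  have hp2 : ∀ m : ℕ, W.tm (1 : W.H X) t ^ m = W.tm (1 : W.H X) (t ^ m) := by
    intro m
    unfold Geo.WeilCohomology.tm
    rw [map_one, one_mul, one_mul, map_pow]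
  have hterm : ∀ m : ℕ, W.tr (X ⊗ P) (W.tm D (1 : W.H P) ^ m *
      (b • W.tm (1 : W.H X) t) ^ (c - m) * (c.choose m : W.H (X ⊗ P)) * W.tm x (t ^ j)) =
      (c.choose m : K) * b ^ (c - m) * (W.tr X (D ^ m * x) *
        (if c - m + j = W.dim P then κ else 0)) := by
    intro m
    rw [smul_pow, hp1, hp2]
    have e1 : W.tm (D ^ m) (1 : W.H P) * b ^ (c - m) • W.tm (1 : W.H X) (t ^ (c - m)) *
        (c.choose m : W.H (X ⊗ P)) * W.tm x (t ^ j) =
        ((c.choose m : K) * b ^ (c - m)) • W.tm (D ^ m * x) (t ^ (c - m + j)) := by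
      have h1 := abs_tm_mul W (D ^ m) (q := (1 : W.H P)) (1 : W.H X) (t ^ (c - m)) (i := 0) one_gr
      rw [mul_one, one_mul] at h1
      have h2 := abs_tm_mul W (D ^ m) (q := t ^ (c - m)) x (t ^ j) (i := c - m) (abs_pow W ht _)
      rw [← pow_add] at h2
      rw [mul_smul_comm, h1, smul_mul_assoc, (Nat.cast_commute _ _).eq.symm, smul_mul_assoc,
        mul_assoc, h2, mul_smul, ← nsmul_eq_mul, ← Nat.cast_smul_eq_nsmul K, smul_comm]
    rw [e1, map_smul, smul_eq_mul, abs_tr_tm, abs_tr_pow W ht hκ]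
  rw [hcomm.add_pow, Finset.sum_mul, map_sum, Finset.sum_congr rfl (fun m _ => hterm m)]
  split_ifs with hle
  · rw [Finset.sum_eq_single (c + j - W.dim P)]
    · have e2 : c - (c + j - W.dim P) = W.dim P - j := by omega
      have e3 : c.choose (c + j - W.dim P) = c.choose (W.dim P - j) := by
        rw [← Nat.choose_symm (show c + j - W.dim P ≤ c by omega), e2]
      rw [e2, e3, if_pos (by omega)]
      ring
    · intro m hm hne
      rw [Finset.mem_range] at hm
      rw [if_neg (by omega), mul_zero, mul_zero]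
    · intro hm
      exfalso
      apply hm
      rw [Finset.mem_range]
      omega
  · apply Finset.sum_eq_zero
    intro m hm
    rw [Finset.mem_range] at hm
    rw [if_neg (by omega), mul_zero, mul_zero]

end Pool.Agent.Lib.MP_4ca46c_ag.Div
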