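import Pool.Agent.Lib.MP_4ca46c_ag.Div.Spec3
import Pool.Agent.Lib.MP_4ca46c_ag.Div.Core

set_option autoImplicit false

/-!
# The triangular system for fibrations
-/

namespace Pool.Agent.Lib.MP_4ca46c_ag.Div

open CategoryTheory Limits AlgebraicGeometry MonoidalCategory CartesianMonoidalCategory Finset
open Pool.Agent.Lib.MP_4ca46c_ag.Sign Pool.Agent.Lib.MP_4ca46c_ag.Hyp
open Pool.Agent.Lib.MP_4ca46c_ag.Std

section Tri

variable {K : Type} [Field K] [CharZero K] {𝒱 : Type 1} [Category.{0} 𝒱]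
  [CartesianMonoidalCategory 𝒱] (W : Geo.WeilCohomology K 𝒱) {X Y : 𝒱}

/-- a decomposition of `y` -/
def tri_Dec (g : Y ⟶ X) (τ : W.H Y) (d i : ℕ) (y : W.H Y) (x : ℕ → W.H X) : Prop :=
  (∀ l, 2 * l ≤ i → x l ∈ W.gr X (i - 2 * l)) ∧ (∀ l, i < 2 * l → x l = 0) ∧
      y = ∑ l ∈ range (d + 2), τ ^ l * W.pull g (x l)

/-- the projection formula -/
theorem tri_proj (g : Y ⟶ X) (z : W.H Y) (x : W.H X) :
    W.push g (z * W.pull g x) = W.push g z * x := by
  refine W.push_eq g _ _ fun y => ?_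
  rw [mul_assoc, W.push_spec, map_mul (W.pull g), mul_assoc]

variable {W}

theorem tri_s {g : Y ⟶ X} {τ : W.H Y} {q : ℚ} {d : ℕ} (h : FibData W X Y g τ q d) (j : ℕ) :
    W.push g (τ ^ (d + j)) ∈ W.Alg X j :=
  W.push_alg g (core_alg_pow W h.τ_alg (d + j)) (by have := h.dim; omega)

theorem tri_zero {g : Y ⟶ X} {τ : W.H Y} {q : ℚ} {d : ℕ} (h : FibData W X Y g τ q d) {j : ℕ}
    (hj : j < d) : W.push g (τ ^ j) = 0 :=
  W.cor_gr_zero (W.cor_push g) (W.alg_gr (core_alg_pow W h.τ_alg j)) (by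
    have := h.dim
    push_cast
    omega)

/-- the value of the push-forward -/
theorem tri_push {g : Y ⟶ X} {τ : W.H Y} {q : ℚ} {d : ℕ} (h : FibData W X Y g τ q d) {l : ℕ}
    (hl : l ≤ d) (x : ℕ → W.H X) :
    W.push g (τ ^ (d - l) * ∑ l' ∈ range (d + 2), τ ^ l' * W.pull g (x l')) =
      (q : K) • x l + ∑ l' ∈ Ioc l (d + 1), W.push g (τ ^ (d + (l' - l))) * x l' := by
  have e1 : W.push g (τ ^ (d - l) * ∑ l' ∈ range (d + 2), τ ^ l' * W.pull g (x l')) =
      ∑ l' ∈ range (d + 2), ((if l' = l then (q : K) • x l' else 0) +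
        (if l' ∈ Ioc l (d + 1) then W.push g (τ ^ (d + (l' - l))) * x l' else 0)) := by
    rw [Finset.mul_sum, map_sum]
    refine Finset.sum_congr rfl fun l' hl' => ?_
    have hl'' : l' < d + 2 := Finset.mem_range.1 hl'
    rw [← mul_assoc, ← pow_add, tri_proj]
    rcases lt_trichotomy l' l with h1 | h1 | h1
    · rw [tri_zero h (by omega), zero_mul, if_neg (by omega), if_neg (by rw [mem_Ioc]; omega),
        add_zero]
    · subst h1
      rw [if_pos rfl, if_neg (by rw [mem_Ioc]; omega), add_zero, show d - l' + l' = d by omega,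
        h.push, smul_mul_assoc, one_mul]
    · rw [if_neg (by omega), if_pos (by rw [mem_Ioc]; omega), zero_add,
        show d - l + l' = d + (l' - l) by omega]
  rw [e1, Finset.sum_add_distrib, Finset.sum_ite_eq' (range (d + 2)) l
    (fun l' => (q : K) • x l'), if_pos (Finset.mem_range.2 (by omega))]
  congr 1
  rw [← Finset.sum_filter]
  refine Finset.sum_congr ?_ fun _ _ => rfl
  ext l'
  rw [mem_filter, mem_range, mem_Ioc]
  omega

/-- the highest operator -/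
theorem tri_top {g : Y ⟶ X} {τ : W.H Y} {q : ℚ} {d : ℕ} (h : FibData W X Y g τ q d)
    (hd : W.dim X ≤ d + 2 ∨ (W.dim X = d + 3 ∧ Edge W X Y g τ d)) :
    ∃ A ∈ W.Cor X Y (-((d + 1 : ℕ) : ℤ)), ∀ i < W.dim Y, ∀ y x,
      tri_Dec W g τ d i y x → A y = x (d + 1) := by
  have hdim := h.dim
  rcases hd with hd | ⟨hd, Φ, hΦ, hΦ0, hΦ1⟩
  · refine ⟨0, AddSubgroup.zero_mem _, fun i hi y x hx => ?_⟩
    rw [hx.2.1 (d + 1) (by omega), LinearMap.zero_apply]
  · have hmem : Φ * τ ^ (d + 1) ∈ W.Alg Y (W.dim Y) := by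
      have := W.alg_mul hΦ (core_alg_pow W h.τ_alg (d + 1))
      rwa [show d + 2 + (d + 1) = W.dim Y by omega] at this
    obtain ⟨ρ, hρ⟩ := W.alg_tr hmem
    have hρ0 : (ρ : K) ≠ 0 := by
      rw [← hρ]
      exact hΦ1
    refine ⟨W.op (W.tm (((ρ⁻¹ : ℚ) : K) • (1 : W.H X)) Φ), ?_, fun i hi y x hx => ?_⟩
    · refine W.mem_cor.2 (Or.inr ⟨0 + (d + 2), _, ?_,
        W.tm_alg (W.alg_rat ρ⁻¹ (W.alg_one X)) hΦ, rfl⟩)
      push_cast
      omega
    · rw [W.op_tm]
      have e1 : W.tr Y (Φ * y) = W.tr Y (Φ * (τ ^ (d + 1) * W.pull g (x (d + 1)))) := by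
        rw [hx.2.2, Finset.mul_sum, map_sum, Finset.sum_range_succ, Finset.sum_eq_zero, zero_add]
        intro l hl
        exact hΦ0 l (Nat.lt_succ_iff.1 (Finset.mem_range.1 hl)) (x l)
      rw [e1]
      by_cases hi2 : 2 * (d + 1) ≤ i
      · have h0 : x (d + 1) ∈ W.gr X 0 := by
          have := hx.1 (d + 1) hi2
          rwa [show i - 2 * (d + 1) = 0 by omega] at this
        obtain ⟨a, ha⟩ := W.connected h0
        have e2 : Φ * (τ ^ (d + 1) * W.pull g (x (d + 1))) = a • (Φ * τ ^ (d + 1)) := by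
          rw [ha, AlgHom.commutes, Algebra.algebraMap_eq_smul_one, mul_smul_comm, mul_one,
            mul_smul_comm]
        rw [e2, map_smul, hρ, smul_eq_mul, smul_smul, Rat.cast_inv, mul_assoc,
          mul_inv_cancel₀ hρ0, mul_one, ha, Algebra.algebraMap_eq_smul_one]
      · rw [hx.2.1 (d + 1) (by omega), map_zero, mul_zero, mul_zero, map_zero, zero_smul]

theorem tri_A {g : Y ⟶ X} {τ : W.H Y} {q : ℚ} {d : ℕ} (h : FibData W X Y g τ q d)
    (hd : W.dim X ≤ d + 2 ∨ (W.dim X = d + 3 ∧ Edge W X Y g τ d)) :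
    ∀ k l : ℕ, l + k = d + 1 → ∃ A ∈ W.Cor X Y (-(l : ℤ)), ∀ i < W.dim Y, ∀ y x,
      tri_Dec W g τ d i y x → A y = x l := by
  have hq : (q : K) ≠ 0 := by
    rw [Ne, Rat.cast_eq_zero]
    exact h.q_ne
  have hdim := h.dim
  intro k
  induction k using Nat.strong_induction_on with
  | _ k ih =>
    intro l hl
    rcases Nat.eq_zero_or_pos k with rfl | hk
    · rw [add_zero] at hl
      subst hl
      exact tri_top h hd
    · have hA : ∀ l' : ℕ, ∃ A : W.H Y →ₗ[K] W.H X, l < l' → l' ≤ d + 1 →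
          A ∈ W.Cor X Y (-(l' : ℤ)) ∧ ∀ i < W.dim Y, ∀ y x, tri_Dec W g τ d i y x → A y = x l' := by
        intro l'
        by_cases hl' : l < l' ∧ l' ≤ d + 1
        · obtain ⟨A, h1, h2⟩ := ih (d + 1 - l') (by omega) l' (by omega)
          exact ⟨A, fun _ _ => ⟨h1, h2⟩⟩
        · exact ⟨0, fun h1 h2 => absurd ⟨h1, h2⟩ hl'⟩
      choose A hA using hA
      refine ⟨((q⁻¹ : ℚ) : K) • (W.push g ∘ₗ LinearMap.mulLeft K (τ ^ (d - l)) -
        ∑ l' ∈ Ioc l (d + 1), LinearMap.mulLeft K (W.push g (τ ^ (d + (l' - l)))) ∘ₗ A l'), ?_, ?_⟩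
      · refine W.cor_rat (AddSubgroup.sub_mem _ ?_ (AddSubgroup.sum_mem _ fun l' hl' => ?_)) _
        · refine core_cast W (W.cor_comp (W.cor_push g)
            (W.cor_mul (core_alg_pow W h.τ_alg (d - l)))) ?_
          omega
        · rw [mem_Ioc] at hl'
          refine core_cast W (W.cor_comp (W.cor_mul (tri_s h (l' - l)))
            (hA l' hl'.1 hl'.2).1) ?_
          omega
      · intro i hi y x hx
        have e1 : W.push g (τ ^ (d - l) * y) =
            (q : K) • x l + ∑ l' ∈ Ioc l (d + 1), W.push g (τ ^ (d + (l' - l))) * x l' := by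
          rw [← tri_push h (by omega) x, ← hx.2.2]
        have e2 : (∑ l' ∈ Ioc l (d + 1),
            LinearMap.mulLeft K (W.push g (τ ^ (d + (l' - l)))) ∘ₗ A l') y =
            ∑ l' ∈ Ioc l (d + 1), W.push g (τ ^ (d + (l' - l))) * x l' := by
          rw [LinearMap.sum_apply]
          refine Finset.sum_congr rfl fun l' hl' => ?_
          rw [mem_Ioc] at hl'
          rw [LinearMap.comp_apply, LinearMap.mulLeft_apply, (hA l' hl'.1 hl'.2).2 i hi y x hx]
        rw [LinearMap.smul_apply, LinearMap.sub_apply, e2, LinearMap.comp_apply,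
          LinearMap.mulLeft_apply, e1, add_sub_cancel_right, smul_smul, Rat.cast_inv,
          inv_mul_cancel₀ hq, one_smul]

end Tri

theorem tTri : StTri := by
  intro K _ _ 𝒱 _ _ W X Y g τ q d h hd
  have hA' : ∀ l : ℕ, ∃ A ∈ W.Cor X Y (-(l : ℤ)), l ≤ d + 1 →
      ∀ i < W.dim Y, ∀ y x, tri_Dec W g τ d i y x → A y = x l := by
    intro l
    by_cases hl : l ≤ d + 1
    · obtain ⟨A, h1, h2⟩ := tri_A h hd (d + 1 - l) l (by omega)
      exact ⟨A, h1, fun _ => h2⟩
    · exact ⟨0, AddSubgroup.zero_mem _, fun h => absurd h hl⟩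
  choose A hA1 hA2 using hA'
  refine ⟨A, hA1, fun i hi y hy => ?_⟩
  obtain ⟨x, hx⟩ := h.span i hi y hy
  have hx' : tri_Dec W g τ d i y x := hx
  conv_lhs => rw [hx.2.2]
  refine Finset.sum_congr rfl fun l hl => ?_
  rw [hA2 l (Nat.lt_succ_iff.1 (Finset.mem_range.1 hl)) i hi y x hx']

end Pool.Agent.Lib.MP_4ca46c_ag.Div
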