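import Pool.Agent.Lib.MP_4ca46c_ag.Div.Spec2
import Pool.Agent.Lib.MP_4ca46c_ag.Div.Core

set_option autoImplicit false

/-!
# The triangular system, uniformly in the degree
-/

namespace Pool.Agent.Lib.MP_4ca46c_ag.Div

open CategoryTheory Limits AlgebraicGeometry MonoidalCategory CartesianMonoidalCategory Finset
open Pool.Agent.Lib.MP_4ca46c_ag.Sign Pool.Agent.Lib.MP_4ca46c_ag.Hyp
open Pool.Agent.Lib.MP_4ca46c_ag.Std

section Uni

variable {K : Type} [Field K] [CharZero K] {𝒱 : Type 1} [Category.{0} 𝒱]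
  [CartesianMonoidalCategory 𝒱] (W : Geo.WeilCohomology K 𝒱) {X Y : 𝒱}

theorem uni_A {g : Y ⟶ X} {τ : W.H Y} {d : W.H X} {b κ : ℚ} {r : ℕ}
    (h : CoreData W X Y g τ d b κ r) (hU : UInv W X d r) :
    ∀ k l : ℕ, l + k = r → ∃ A ∈ W.Cor X Y (-(l : ℤ)), ∀ i < W.dim Y, ∀ y x,
      core_Dec W g τ r i y x → A y = x l := by
  have hb : (b : K) ≠ 0 := by
    rw [Ne, Rat.cast_eq_zero]; exact h.b_ne
  intro k
  induction k with
  | zero =>
    intro l hl
    rw [add_zero] at hl
    subst hl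
    obtain ⟨s, hs, hs2⟩ := hU
    refine ⟨s ∘ₗ ∑ j ∈ range (l + 1), (((-b) ^ (l - j) : ℚ) : K) •
      (LinearMap.mulLeft K (d ^ j) ∘ₗ core_U W g τ κ l j), ?_, ?_⟩
    · have h3 : (∑ j ∈ range (l + 1), (((-b) ^ (l - j) : ℚ) : K) •
          (LinearMap.mulLeft K (d ^ j) ∘ₗ core_U W g τ κ l j)) ∈ W.Cor X Y 1 := by
        refine AddSubgroup.sum_mem _ fun j hj => ?_
        have hj' : j ≤ l := Nat.lt_succ_iff.1 (Finset.mem_range.1 hj)
        refine W.cor_rat ?_ _
        refine core_cast W (W.cor_comp (W.cor_mul (core_alg_pow W h.d_alg j))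
          (core_U_cor W h hj')) ?_
        ring
      refine core_cast W (W.cor_comp hs h3) ?_
      push_cast
      ring
    · intro i hi y x hyx
      rw [LinearMap.comp_apply, LinearMap.sum_apply]
      have h4 : ∑ j ∈ range (l + 1), ((((-b) ^ (l - j) : ℚ) : K) •
          (LinearMap.mulLeft K (d ^ j) ∘ₗ core_U W g τ κ l j)) y = d ^ (l + 1) * x l := by
        rw [← core_tel W h x, ← hyx.2.2]
        rfl
      rw [h4]
      by_cases h2 : 2 * l ≤ i
      · exact hs2 (i - 2 * l) (by have := h.dim; omega) _ (hyx.1 l h2)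
      · rw [hyx.2.1 l (by omega), mul_zero, map_zero]
  | succ k ih =>
    intro l hl
    obtain ⟨A, hA, hA2⟩ := ih (l + 1) (by omega)
    refine ⟨((b⁻¹ : ℚ) : K) • (core_U W g τ κ r (l + 1) - LinearMap.mulLeft K d ∘ₗ A), ?_, ?_⟩
    · refine W.cor_rat ?_ _
      refine AddSubgroup.sub_mem _ ?_ ?_
      · refine core_cast W (core_U_cor W h (by omega)) ?_
        push_cast
        ring
      · refine core_cast W (W.cor_comp (W.cor_mul h.d_alg) hA) ?_
        push_cast
        ring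
    · intro i hi y x hyx
      have h1 := hA2 i hi y x hyx
      have h2 : core_U W g τ κ r (l + 1) y = d * x (l + 1) + (b : K) • x l := by
        rw [hyx.2.2, core_U_apply W h (by omega)]
      rw [LinearMap.smul_apply, LinearMap.sub_apply, LinearMap.comp_apply, h1, h2,
        LinearMap.mulLeft_apply, add_sub_cancel_left, smul_smul, Rat.cast_inv,
        inv_mul_cancel₀ hb, one_smul]

end Uni

theorem tUni : StUni := by
  intro K _ _ 𝒱 _ _ W X Y g τ d b κ r h hU
  have hA' : ∀ l : ℕ, ∃ A ∈ W.Cor X Y (-(l : ℤ)), l ≤ r →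
      ∀ i < W.dim Y, ∀ y x, core_Dec W g τ r i y x → A y = x l := by
    intro l
    by_cases hl : l ≤ r
    · obtain ⟨A, h1, h2⟩ := uni_A W h hU (r - l) l (by omega)
      exact ⟨A, h1, fun _ => h2⟩
    · exact ⟨0, AddSubgroup.zero_mem _, fun h => absurd h hl⟩
  choose A hA1 hA2 using hA'
  refine ⟨A, hA1, fun i hi y hy => ?_⟩
  obtain ⟨x, hx⟩ := h.span i hi y hy
  have hx' : core_Dec W g τ r i y x := hx
  conv_lhs => rw [hx.2.2]
  refine Finset.sum_congr rfl fun l hl => ?_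
  rw [hA2 l (Nat.lt_succ_iff.1 (Finset.mem_range.1 hl)) i hi y x hx']

end Pool.Agent.Lib.MP_4ca46c_ag.Div
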